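import Pool.Agent.Hhelper75.Low4.Bridge

namespace Low4

open Encodable Denumerable Nat.Partrec

variable {α β γ : Type} [Primcodable α] [Primcodable β] [Primcodable γ]

theorem Dec.or {A : Set ℕ} {p q : α → Prop} (hp : Dec A p) (hq : Dec A q) :
    Dec A fun a => p a ∨ q a :=
  ⟨hp.1.or hq.1, (hp.2.and hq.2).of_eq fun _ => not_or.symm⟩

/-- a concrete representative of the jump: the `e`-th c.e. set of strings contains an initial
segment of `A` -/
def J (A : Set ℕ) : Set ℕ := {e | ∃ s, (Code.eval (ofNat Code e) (encode (pre A s))).Dom}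

theorem ce_J (A : Set ℕ) : CE A fun e => e ∈ J A := by
  refine CE.mk' (W := fun σ e => (Code.eval (ofNat Code e) (encode σ)).Dom) ?_ fun e => Iff.rfl
  have h1 : Partrec fun x : List Bool × ℕ => Code.eval (ofNat Code x.2) (encode x.1) :=
    Code.eval_part.comp ((Computable.ofNat Code).comp Computable.snd)
      (Computable.encode.comp Computable.fst)
  exact Sig1.of_re h1.dom_re

theorem many_one_J {A : Set ℕ} {p : α → Prop} (h : CE A p) :
    ∃ f : α → ℕ, Computable f ∧ ∀ a, p a ↔ f a ∈ J A := by
  obtain ⟨W, h1, -, h3⟩ := h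
  have h1' := h1.re
  -- a code for the map `pair (encode a) (encode σ) ↦ W σ a`
  have h2 : Partrec fun q : ℕ =>
      (Part.bind (decode (α := List Bool × α)
        (Nat.pair q.unpair.2 q.unpair.1) : Part (List Bool × α)) fun x =>
          (Part.assert (W x.1 x.2) fun _ => Part.some ()).map fun _ => (0 : ℕ)) := by
    refine Partrec.bind ?_ ?_
    · refine Computable.ofOption (Computable.decode.comp ?_)
      exact Primrec₂.natPair.to_comp.comp (Computable.snd.comp Computable.unpair)
        (Computable.fst.comp Computable.unpair)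
    · exact (Partrec.map h1' (Computable.const 0).to₂).comp Computable.snd
  obtain ⟨c, hc⟩ := Code.exists_code.1 (Partrec.nat_iff.1 h2)
  refine ⟨fun a => encode (Code.curry c (encode a)), ?_, fun a => ?_⟩
  · exact Computable.encode.comp (Code.primrec₂_curry.to_comp.comp (Computable.const c)
      Computable.encode)
  · rw [h3]
    refine exists_congr fun s => ?_
    rw [ofNat_encode, Code.eval_curry, hc]
    simp only [Nat.unpair_pair]
    rw [← Encodable.encode_prod_val, Encodable.encodek]
    simp [Part.dom_iff_mem]

theorem isJump_J (A : Set ℕ) : IsJump A (J A) := by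
  refine ⟨ceIn_of_ce (ce_J A), fun S hS => ?_⟩
  obtain ⟨f, hf, h⟩ := many_one_J (ce_of_ceIn hS)
  exact ⟨f, hf, h⟩

theorem CE.dec_J {A : Set ℕ} {p : α → Prop} (h : CE A p) : Dec (J A) p := by
  obtain ⟨f, hf, hp⟩ := many_one_J h
  exact (Dec.comp (Red.refl (J A)) hf).of_eq fun a => (hp a).symm

theorem J_mono {A B : Set ℕ} (h : Red A B) : Red (J A) (J B) := ((ce_J A).trans h).dec_J

theorem red_J (A : Set ℕ) : Red A (J A) := (CE.mem A).dec_J

/-- effective join -/
def join (A B : Set ℕ) : Set ℕ :=
  {n | (n.bodd = false ∧ n.div2 ∈ A) ∨ (n.bodd = true ∧ n.div2 ∈ B)}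

theorem join_red {A B C : Set ℕ} (hA : Red A C) (hB : Red B C) : Red (join A B) C := by
  have h1 : Dec C fun n : ℕ => n.bodd = true := Dec.of_computable Computable.nat_bodd
  have h2 : Dec C fun n : ℕ => n.bodd = false := h1.not.of_eq fun n => by simp
  exact (h2.and (Dec.comp hA Computable.nat_div2)).or (h1.and (Dec.comp hB Computable.nat_div2))

theorem red_join_left (A B : Set ℕ) : Red A (join A B) := by
  have h := Dec.comp (Red.refl (join A B)) (f := fun n : ℕ => 2 * n)
    (Primrec.nat_double.to_comp)
  refine h.of_eq fun n => ?_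
  simp [join, Nat.div2_val]

theorem red_join_right (A B : Set ℕ) : Red B (join A B) := by
  have h := Dec.comp (Red.refl (join A B)) (f := fun n : ℕ => 2 * n + 1)
    (Primrec.nat_double_succ.to_comp)
  refine h.of_eq fun n => ?_
  simp only [join, Set.mem_ofPred_eq, Nat.div2_val]
  have h1 : (2 * n + 1) / 2 = n := by omega
  rw [h1]
  simp

/-- `D` is 1-generic relative to `B` -/
def Generic (D B : Set ℕ) : Prop :=
  ∀ W : List Bool → Prop, CE B W → ∃ s, W (pre D s) ∨ ∀ τ, pre D s <+: τ → ¬ W τ

theorem Generic.mono {D B C : Set ℕ} (h : Generic D B) (hC : Red C B) : Generic D C :=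
  fun W hW => h W (hW.trans hC)

/-- interleaving -/
def jn (σ ρ : List Bool) (t : ℕ) : List Bool :=
  (List.range t).map fun i => cond i.bodd (ρ.getD i.div2 false) (σ.getD i.div2 false)

theorem primrec_jn : Primrec fun x : (List Bool × List Bool) × ℕ => jn x.1.1 x.1.2 x.2 := by
  unfold jn
  refine Primrec.list_map (Primrec.list_range.comp Primrec.snd) ?_
  refine Primrec.cond (Primrec.nat_bodd.comp Primrec.snd) ?_ ?_
  · exact (Primrec.list_getD false).comp (Primrec.snd.comp (Primrec.fst.comp Primrec.fst))
      (Primrec.nat_div2.comp Primrec.snd)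
  · exact (Primrec.list_getD false).comp (Primrec.fst.comp (Primrec.fst.comp Primrec.fst))
      (Primrec.nat_div2.comp Primrec.snd)

theorem jn_pre (D B : Set ℕ) {s r t : ℕ} (h1 : t ≤ 2 * s) (h2 : t ≤ 2 * r) :
    jn (pre D s) (pre B r) t = pre (join D B) t := by
  classical
  unfold jn
  apply List.ext_getElem?
  intro i
  by_cases hi : i < t
  · rw [pre_getElem? _ _ _ hi, List.getElem?_map, List.getElem?_range hi]
    simp only [Option.map_some, List.getD_eq_getElem?_getD]
    have h3 : i.div2 < s := by rw [Nat.div2_val]; omega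
    have h4 : i.div2 < r := by rw [Nat.div2_val]; omega
    rw [pre_getElem? _ _ _ h3, pre_getElem? _ _ _ h4]
    cases hb : i.bodd <;> simp [join, hb]
  · rw [pre_getElem?_none _ _ _ (not_lt.1 hi)]
    simp only [List.getElem?_eq_none_iff, List.length_map, List.length_range]
    exact not_lt.1 hi

theorem computable_isPrefix : Computable fun x : List Bool × List Bool =>
    decide (x.1 <+: x.2) := by
  have h : Computable fun x : List Bool × List Bool => decide (x.2.take x.1.length = x.1) :=
    ((Primrec.eq (α := List Bool)).decide.to_comp).comp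
      (computable_take.comp Computable.snd (Computable.list_length.comp Computable.fst))
      Computable.fst
  refine h.of_eq fun x => ?_
  rw [decide_eq_decide, List.prefix_iff_eq_take, eq_comm]

theorem jump_join {D B : Set ℕ} (h : Generic D B) : Red (J (join D B)) (join D (J B)) := by
  have hr : Red (join D B) (join D (J B)) :=
    join_red (red_join_left _ _) ((red_J B).trans (red_join_right _ _))
  refine ⟨(ce_J _).trans hr, ?_⟩
  -- the c.e. relation `V`
  let V : ℕ → List Bool → Prop := fun e σ => ∃ r t, t ≤ 2 * σ.length ∧ t ≤ 2 * r ∧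
    (Code.eval (ofNat Code e) (encode (jn σ (pre B r) t))).Dom
  have hV : CE B fun x : ℕ × List Bool => V x.1 x.2 := by
    refine CE.mk' (W := fun ρ x => ∃ t, (decide (t ≤ 2 * x.2.length) = true ∧
      decide (t ≤ 2 * ρ.length) = true) ∧
      (Code.eval (ofNat Code x.1) (encode (jn x.2 ρ t))).Dom) ?_ ?_
    · refine Sig1.ex (α := List Bool × (ℕ × List Bool)) (p := fun x t =>
        (decide (t ≤ 2 * x.2.2.length) = true ∧ decide (t ≤ 2 * x.1.length) = true) ∧
        (Code.eval (ofNat Code x.2.1) (encode (jn x.2.2 x.1 t))).Dom) ?_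
      refine Sig1.and (Sig1.and ?_ ?_) ?_
      · refine Sig1.of_computable ((Primrec.nat_le.decide.to_comp).comp Computable.snd ?_)
        exact Primrec.nat_double.to_comp.comp (Computable.list_length.comp
          (Computable.snd.comp (Computable.snd.comp Computable.fst)))
      · refine Sig1.of_computable ((Primrec.nat_le.decide.to_comp).comp Computable.snd ?_)
        exact Primrec.nat_double.to_comp.comp (Computable.list_length.comp
          (Computable.fst.comp Computable.fst))
      · have h1 : Partrec fun y : (List Bool × (ℕ × List Bool)) × ℕ =>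
            Code.eval (ofNat Code y.1.2.1) (encode (jn y.1.2.2 y.1.1 y.2)) := by
          refine Code.eval_part.comp ((Computable.ofNat Code).comp (Computable.fst.comp
            (Computable.snd.comp Computable.fst))) (Computable.encode.comp ?_)
          exact Computable.comp (f := fun x : (List Bool × List Bool) × ℕ => jn x.1.1 x.1.2 x.2)
            (g := fun y : (List Bool × (ℕ × List Bool)) × ℕ => ((y.1.2.2, y.1.1), y.2))
            primrec_jn.to_comp (Computable.pair (Computable.pair
            (Computable.snd.comp (Computable.snd.comp Computable.fst))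
            (Computable.fst.comp Computable.fst)) Computable.snd)
        exact Sig1.of_re h1.dom_re
    · intro x
      simp only [V, pre_length, decide_eq_true_eq, and_assoc]
  have hE : CE B fun x : ℕ × List Bool => ∃ τ, decide (x.2 <+: τ) = true ∧ V x.1 τ := by
    refine CE.ex (p := fun (x : ℕ × List Bool) τ => decide (x.2 <+: τ) = true ∧ V x.1 τ) ?_
    refine CE.and (CE.of_sig1 (Sig1.of_computable ?_)) ?_
    · exact Computable.comp (f := fun x : List Bool × List Bool => decide (x.1 <+: x.2))
        (g := fun y : (ℕ × List Bool) × List Bool => (y.1.2, y.2))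
        computable_isPrefix (Computable.pair (Computable.snd.comp Computable.fst)
        Computable.snd)
    · exact hV.comp (f := fun y : (ℕ × List Bool) × List Bool => (y.1.1, y.2))
        (Computable.pair (Computable.fst.comp Computable.fst) Computable.snd)
  have hQ := hE.dec_J.2
  have h5 : CE (join D (J B)) fun e : ℕ => ∃ σ : List Bool, (σ = pre D σ.length) ∧
      ¬ ∃ τ, decide (σ <+: τ) = true ∧ V e τ := by
    refine CE.ex (p := fun e (σ : List Bool) => (σ = pre D σ.length) ∧
      ¬ ∃ τ, decide (σ <+: τ) = true ∧ V e τ) ?_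
    refine CE.and ((ce_initial (red_join_left _ _)).comp Computable.snd) ?_
    exact hQ.trans (red_join_right _ _)
  refine h5.of_eq fun e => ?_
  constructor
  · rintro ⟨σ, hσ, hn⟩ he
    obtain ⟨t, ht⟩ := he
    apply hn
    refine ⟨pre D (max σ.length t), ?_, t, t, ?_, by omega, ?_⟩
    · rw [decide_eq_true_eq]
      conv_lhs => rw [hσ]
      exact pre_le D (le_max_left _ _)
    · rw [pre_length]
      have := le_max_right σ.length t
      omega
    · rw [jn_pre]
      · exact ht
      · have := le_max_right σ.length t
        omega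
      · omega
  · intro he
    have hVe : CE B fun σ => V e σ :=
      hV.comp (f := fun σ : List Bool => (e, σ)) (Computable.pair (Computable.const e) Computable.id)
    obtain ⟨s, hs | hs⟩ := h (fun σ => V e σ) hVe
    · exfalso
      obtain ⟨r, t, h1, h2, h3⟩ := hs
      rw [pre_length] at h1
      rw [jn_pre D B h1 h2] at h3
      exact he ⟨t, h3⟩
    · refine ⟨pre D s, by simp, ?_⟩
      rintro ⟨τ, h1, h2⟩
      rw [decide_eq_true_eq] at h1
      exact hs τ h1 h2

end Low4
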