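import Pool.Agent.Hhelper75.Low4.CE

namespace Low4

open Encodable

theorem pre_succ (A : Set ℕ) (k : ℕ) :
    pre A (k + 1) = pre A k ++ [open Classical in decide (k ∈ A)] := by
  simp [pre, List.range_succ]

theorem recIn_computable {O : Set (ℕ →. ℕ)} {f : ℕ → ℕ} (hf : Computable f) :
    Nat.RecursiveIn O (fun n => Part.some (f n)) := by
  have : Nat.Partrec (fun n => Part.some (f n)) := Partrec.nat_iff.1 hf.partrec
  exact this.recursiveIn

theorem recIn_pair {O : Set (ℕ →. ℕ)} {f g : ℕ → ℕ}
    (hf : Nat.RecursiveIn O (fun n => Part.some (f n)))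
    (hg : Nat.RecursiveIn O (fun n => Part.some (g n))) :
    Nat.RecursiveIn O (fun n => Part.some (Nat.pair (f n) (g n))) := by
  refine (Nat.RecursiveIn.pair hf hg).of_eq fun n => ?_
  simp [Seq.seq]

theorem recIn_comp {O : Set (ℕ →. ℕ)} {f g : ℕ → ℕ}
    (hf : Nat.RecursiveIn O (fun n => Part.some (f n)))
    (hg : Nat.RecursiveIn O (fun n => Part.some (g n))) :
    Nat.RecursiveIn O (fun n => Part.some (f (g n))) := by
  refine (Nat.RecursiveIn.comp hf hg).of_eq fun n => ?_
  simp

open Classical in
theorem recIn_chi (A : Set ℕ) :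
    Nat.RecursiveIn {chi A} (fun n => Part.some (if n ∈ A then 1 else 0)) :=
  Nat.RecursiveIn.oracle _ rfl

theorem recIn_pre (A : Set ℕ) :
    Nat.RecursiveIn {chi A} (fun k => Part.some (encode (pre A k))) := by
  classical
  -- step on codes
  let G : ℕ → ℕ := fun q =>
    encode (((decode (α := List Bool) q.unpair.1.unpair.2.unpair.2).getD []) ++
      [decide (q.unpair.2 = 1)])
  have hG : Computable G := by
    have h1 : Computable fun q : ℕ => q.unpair.1.unpair.2.unpair.2 :=
      Computable.snd.comp (Computable.unpair.comp (Computable.snd.comp (Computable.unpair.comp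
        (Computable.fst.comp Computable.unpair))))
    have h2 : Computable fun q : ℕ => decide (q.unpair.2 = 1) :=
      ((Primrec.eq (α := ℕ)).decide.to_comp).comp (Computable.snd.comp Computable.unpair)
        (Computable.const 1)
    refine Computable.encode.comp (Computable.list_append.comp ?_
      (Computable.list_cons.comp h2 (Computable.const [])))
    exact Computable.option_getD (Computable.decode.comp h1) (Computable.const [])
  have hchi : Nat.RecursiveIn {chi A}
      (fun q => Part.some (if q.unpair.2.unpair.1 ∈ A then 1 else 0)) :=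
    recIn_comp (f := fun n => if n ∈ A then 1 else 0) (g := fun q => q.unpair.2.unpair.1)
      (recIn_chi A) (recIn_computable (Computable.fst.comp (Computable.unpair.comp
        (Computable.snd.comp Computable.unpair))))
  have hstep : Nat.RecursiveIn {chi A}
      (fun q => Part.some (G (Nat.pair q (if q.unpair.2.unpair.1 ∈ A then 1 else 0)))) :=
    recIn_comp (f := G) (recIn_computable hG)
      (recIn_pair (f := fun q => q) (recIn_computable Computable.id) hchi)
  have hprec := Nat.RecursiveIn.prec
    (recIn_computable (O := {chi A}) (f := fun _ => encode ([] : List Bool)) (Computable.const _))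
    hstep
  have h0 := Nat.RecursiveIn.comp hprec
    (recIn_pair (f := fun _ => 0) (g := fun k => k) (recIn_computable (Computable.const 0))
      (recIn_computable Computable.id))
  refine h0.of_eq fun k => ?_
  simp only [Part.bind_eq_bind, Part.bind_some, Nat.unpair_pair]
  induction k with
  | zero => simp [pre]
  | succ k ih =>
    simp only [ih, Part.bind_some]
    simp only [Nat.unpair_pair, G, Encodable.encodek, Option.getD_some]
    rw [pre_succ]
    by_cases hk : k ∈ A <;> simp [hk]

theorem recIn_search {A : Set ℕ} {R : List Bool × ℕ × ℕ → Option ℕ} (hR : Computable R) :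
    Nat.RecursiveIn {chi A} (fun n => Nat.rfindOpt fun k => R (pre A k, n, k)) := by
  classical
  let S : ℕ → Option ℕ := fun q =>
    R ((decode (α := List Bool) q.unpair.2).getD [], q.unpair.1.unpair.1, q.unpair.1.unpair.2)
  have hS : Computable S := by
    refine hR.comp (Computable.pair ?_ (Computable.pair ?_ ?_))
    · exact Computable.option_getD (Computable.decode.comp (Computable.snd.comp Computable.unpair))
        (Computable.const [])
    · exact Computable.fst.comp (Computable.unpair.comp (Computable.fst.comp Computable.unpair))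
    · exact Computable.snd.comp (Computable.unpair.comp (Computable.fst.comp Computable.unpair))
  -- `q = pair n k`
  have hpre : Nat.RecursiveIn {chi A} (fun q => Part.some (Nat.pair q (encode (pre A q.unpair.2)))) :=
    recIn_pair (f := fun q => q) (g := fun q => encode (pre A q.unpair.2))
      (recIn_computable Computable.id)
      (recIn_comp (f := fun k => encode (pre A k)) (g := fun q => q.unpair.2) (recIn_pre A)
        (recIn_computable (Computable.snd.comp Computable.unpair)))
  have htest : Nat.RecursiveIn {chi A} (fun q => Part.some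
      (cond (R (pre A q.unpair.2, q.unpair.1, q.unpair.2)).isSome 0 1)) := by
    have h1 : Computable fun q => (cond (S q).isSome 0 1 : ℕ) :=
      Computable.cond (Primrec.option_isSome.to_comp.comp hS) (Computable.const 0)
        (Computable.const 1)
    refine (Nat.RecursiveIn.comp (recIn_computable h1) hpre).of_eq fun q => ?_
    simp [S]
  have hval : Nat.RecursiveIn {chi A} (fun q => (R (pre A q.unpair.2, q.unpair.1, q.unpair.2) :
      Part ℕ)) := by
    have h1 : Nat.Partrec fun q => (S q : Part ℕ) := Partrec.nat_iff.1 hS.ofOption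
    refine (Nat.RecursiveIn.comp h1.recursiveIn hpre).of_eq fun q => ?_
    simp [S]
  have hfind := Nat.RecursiveIn.rfind htest
  have hpf := Nat.RecursiveIn.pair (recIn_computable (O := {chi A}) (f := fun n => n) Computable.id)
    hfind
  refine (Nat.RecursiveIn.comp hval hpf).of_eq fun n => ?_
  simp only [Nat.rfindOpt, Nat.unpair_pair, Part.map_eq_map, Part.map_some, Seq.seq,
    Part.bind_eq_bind, Part.bind_some]
  rw [Part.bind_map]
  simp only [Nat.unpair_pair]
  congr 1
  congr 1
  funext k
  cases (R (pre A k, n, k)) <;> simp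

theorem ce_of_ceIn {A S : Set ℕ} (h : CEIn A S) : CE A fun n => n ∈ S := by
  obtain ⟨f, hf, hS⟩ := h
  obtain ⟨F, hF⟩ := exists_rep (RecursiveIn.iff_nat.1 hf)
  refine CE.mk' (W := fun σ n => (F σ n).Dom) ?_ ?_
  · have := hF.part.dom_re
    exact Sig1.of_re this
  · intro n
    rw [hS n]
    constructor
    · intro h
      obtain ⟨m, hm⟩ := Part.dom_iff_mem.1 h
      obtain ⟨s, hs⟩ := (hF.lim _ _).1 hm
      exact ⟨s, hs.fst⟩
    · rintro ⟨s, hs⟩
      obtain ⟨m, hm⟩ := Part.dom_iff_mem.1 hs
      exact ((hF.lim _ _).2 ⟨s, hm⟩).fst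

/-- bounded search for a witness -/
theorem ce_bounded {α : Type} [Primcodable α] {A : Set ℕ} {p : α → Prop} (h : CE A p) :
    ∃ R : List Bool × α × ℕ → Bool, Computable R ∧ ∀ a, p a ↔ ∃ k, R (pre A k, a, k) = true := by
  obtain ⟨W, ⟨Q, hQ, hQW⟩, hmono, hp⟩ := h
  refine ⟨fun x => bEx (fun t => bEx (fun u => Q (x.1.take t, x.2.1) u) (x.2.2 + 1))
    (x.2.2 + 1), ?_, ?_⟩
  · have h1 : Computable₂ fun (y : (List Bool × α × ℕ) × ℕ) (u : ℕ) =>
        Q (y.1.1.take y.2, y.1.2.1) u := by
      refine (hQ.comp (Computable.pair (computable_take.comp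
        (Computable.fst.comp (Computable.fst.comp Computable.fst))
        (Computable.snd.comp Computable.fst)) (Computable.fst.comp (Computable.snd.comp
          (Computable.fst.comp Computable.fst)))) Computable.snd).to₂
    have h2 : Computable fun (y : (List Bool × α × ℕ) × ℕ) =>
        bEx (fun u => Q (y.1.1.take y.2, y.1.2.1) u) (y.1.2.2 + 1) :=
      computable_bEx h1 (Primrec.succ.to_comp.comp (Computable.snd.comp (Computable.snd.comp
        Computable.fst)))
    exact computable_bEx (α := List Bool × α × ℕ) (R := fun x t =>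
      bEx (fun u => Q (x.1.take t, x.2.1) u) (x.2.2 + 1)) h2.to₂
      (Primrec.succ.to_comp.comp (Computable.snd.comp Computable.snd))
  · intro a
    rw [hp]
    constructor
    · rintro ⟨s, hs⟩
      obtain ⟨u, hu⟩ := (hQW (pre A s, a)).1 hs
      refine ⟨max s u, ?_⟩
      rw [bEx_iff]
      refine ⟨s, Nat.lt_succ_of_le (le_max_left _ _), ?_⟩
      rw [bEx_iff]
      refine ⟨u, Nat.lt_succ_of_le (le_max_right _ _), ?_⟩
      rw [pre_take A _ _ (le_max_left _ _)]
      exact hu
    · rintro ⟨k, hk⟩
      rw [bEx_iff] at hk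
      obtain ⟨t, ht, hk⟩ := hk
      rw [bEx_iff] at hk
      obtain ⟨u, hu, hk⟩ := hk
      rw [pre_take A _ _ (Nat.lt_succ_iff.1 ht)] at hk
      exact ⟨t, (hQW (pre A t, a)).2 ⟨u, hk⟩⟩

theorem ceIn_of_ce {A S : Set ℕ} (h : CE A fun n => n ∈ S) : CEIn A S := by
  obtain ⟨R, hR, hS⟩ := ce_bounded h
  refine ⟨_, RecursiveIn.iff_nat.2 (recIn_search (A := A)
    (R := fun x => cond (R x) (some 0) none) ?_), ?_⟩
  · exact Computable.cond hR (Computable.const _) (Computable.const _)
  · intro n
    rw [hS n, Nat.rfindOpt_dom]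
    constructor
    · rintro ⟨k, hk⟩
      exact ⟨k, 0, by simp [hk]⟩
    · rintro ⟨k, a, hk⟩
      refine ⟨k, ?_⟩
      cases hh : R (pre A k, n, k)
      · simp [hh] at hk
      · rfl

theorem ceIn_iff {A S : Set ℕ} : CEIn A S ↔ CE A fun n => n ∈ S := ⟨ce_of_ceIn, ceIn_of_ce⟩

theorem turingReducible_of_red {A B : Set ℕ} (h : Red B A) : TuringReducible (chi B) (chi A) := by
  classical
  obtain ⟨h1, h0⟩ := h
  obtain ⟨R, hR, hB⟩ := ce_bounded h1
  obtain ⟨Q, hQ, hB'⟩ := ce_bounded h0
  refine (RecursiveIn.iff_nat.2 (recIn_search (A := A)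
    (R := fun x => cond (R x) (some 1) (cond (Q x) (some 0) none)) ?_)).of_eq ?_
  · exact Computable.cond hR (Computable.const _)
      (Computable.cond hQ (Computable.const _) (Computable.const _))
  · intro n
    rw [chi, Part.eq_some_iff]
    have hdom : (Nat.rfindOpt fun k => cond (R (pre A k, n, k)) (some 1)
        (cond (Q (pre A k, n, k)) (some 0) none)).Dom := by
      rw [Nat.rfindOpt_dom]
      by_cases hn : n ∈ B
      · obtain ⟨k, hk⟩ := (hB n).1 hn
        exact ⟨k, 1, by simp [hk]⟩
      · obtain ⟨k, hk⟩ := (hB' n).1 hn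
        cases hr : R (pre A k, n, k)
        · exact ⟨k, 0, by simp [hk, hr]⟩
        · exact ⟨k, 1, by simp [hr]⟩
    obtain ⟨a, ha⟩ := Part.dom_iff_mem.1 hdom
    have ha' := ha
    obtain ⟨k, hk⟩ := Nat.rfindOpt_spec ha
    cases hr : R (pre A k, n, k) with
    | true =>
      have : n ∈ B := (hB n).2 ⟨k, hr⟩
      simp only [hr, cond_true, Option.mem_def, Option.some.injEq] at hk
      subst hk
      simpa [this] using ha
    | false =>
      cases hq : Q (pre A k, n, k) with
      | true =>
        have : n ∉ B := (hB' n).2 ⟨k, hq⟩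
        simp only [hr, hq, cond_false, cond_true, Option.mem_def, Option.some.injEq] at hk
        subst hk
        simpa [this] using ha
      | false =>
        simp [hr, hq] at hk

end Low4
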