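import Pool.Agent.Hhelper75.Low4.NF

namespace Low4

variable {α β γ : Type} [Primcodable α] [Primcodable β] [Primcodable γ]

/-- predicates computably enumerable relative to `A`, via c.e. functionals -/
def CE (A : Set ℕ) (p : α → Prop) : Prop :=
  ∃ W : List Bool → α → Prop, Sig1 (fun x : List Bool × α => W x.1 x.2) ∧
    (∀ σ τ a, σ <+: τ → W σ a → W τ a) ∧ ∀ a, p a ↔ ∃ s, W (pre A s) a

/-- predicates decidable relative to `A` -/
def Dec (A : Set ℕ) (p : α → Prop) : Prop := CE A p ∧ CE A fun a => ¬ p a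

/-- Turing reducibility between sets -/
def Red (B A : Set ℕ) : Prop := Dec A fun n => n ∈ B

theorem computable_take : Computable₂ (fun (σ : List Bool) (t : ℕ) => σ.take t) := by
  have h1 : Computable fun x : List Bool × ℕ =>
      (Nat.rec [] (fun i (l : List Bool) => l ++ ((x.1[i]?).map fun b => [b]).getD []) x.2 :
        List Bool) := by
    refine Computable.nat_rec (f := fun x : List Bool × ℕ => x.2) (g := fun _ => ([] : List Bool))
      (h := fun (x : List Bool × ℕ) (q : ℕ × List Bool) =>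
        q.2 ++ ((x.1[q.1]?).map fun b => [b]).getD [])
      Computable.snd (Computable.const []) ?_
    refine Computable₂.comp Computable.list_append (Computable.snd.comp Computable.snd) ?_
    refine Computable.option_getD ?_ (Computable.const [])
    refine Computable.option_map (Computable.list_getElem?.comp
      (Computable.fst.comp Computable.fst) (Computable.fst.comp Computable.snd)) ?_
    exact (Computable.list_cons.comp Computable.snd (Computable.const [])).to₂
  refine h1.of_eq fun x => ?_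
  obtain ⟨σ, t⟩ := x
  simp only
  induction t with
  | zero => simp
  | succ t ih =>
    simp only [ih]
    rw [List.take_add_one]
    congr 1
    cases σ[t]? <;> simp

theorem CE.mk' {A : Set ℕ} {p : α → Prop} {W : List Bool → α → Prop}
    (hW : Sig1 (fun x : List Bool × α => W x.1 x.2)) (h : ∀ a, p a ↔ ∃ s, W (pre A s) a) :
    CE A p := by
  refine ⟨fun σ a => ∃ t < σ.length + 1, W (σ.take t) a, ?_, ?_, ?_⟩
  · refine Sig1.bex (α := List Bool × α) (p := fun x t => W (x.1.take t) x.2) ?_
      (Primrec.succ.to_comp.comp (Computable.list_length.comp Computable.fst))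
    exact hW.comp (f := fun y : (List Bool × α) × ℕ => (y.1.1.take y.2, y.1.2))
      (Computable.pair (computable_take.comp (Computable.fst.comp Computable.fst) Computable.snd)
        (Computable.snd.comp Computable.fst))
  · rintro σ τ a hστ ⟨t, ht, hW⟩
    refine ⟨t, lt_of_lt_of_le ht (Nat.succ_le_succ hστ.length_le), ?_⟩
    have : τ.take t = σ.take t := by
      obtain ⟨ρ, rfl⟩ := hστ
      rw [List.take_append_of_le_length (Nat.lt_succ_iff.1 ht)]
    rw [this]; exact hW
  · intro a
    rw [h]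
    constructor
    · rintro ⟨s, hs⟩
      exact ⟨s, s, by simp, by rw [pre_take A s s le_rfl]; exact hs⟩
    · rintro ⟨s, t, ht, hW⟩
      rw [pre_length] at ht
      rw [pre_take A s t (Nat.lt_succ_iff.1 ht)] at hW
      exact ⟨t, hW⟩

theorem CE.of_eq {A : Set ℕ} {p q : α → Prop} (hp : CE A p) (h : ∀ a, p a ↔ q a) : CE A q := by
  obtain ⟨W, h1, h2, h3⟩ := hp
  exact ⟨W, h1, h2, fun a => (h a).symm.trans (h3 a)⟩

theorem CE.of_sig1 {A : Set ℕ} {p : α → Prop} (hp : Sig1 p) : CE A p :=
  ⟨fun _ a => p a, hp.comp Computable.snd, fun _ _ _ _ h => h, fun _ => ⟨fun h => ⟨0, h⟩,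
    fun ⟨_, h⟩ => h⟩⟩

theorem CE.comp {A : Set ℕ} {p : β → Prop} {f : α → β} (hp : CE A p) (hf : Computable f) :
    CE A fun a => p (f a) := by
  obtain ⟨W, h1, h2, h3⟩ := hp
  exact ⟨fun σ a => W σ (f a),
    h1.comp (f := fun x : List Bool × α => (x.1, f x.2))
      (Computable.pair Computable.fst (hf.comp Computable.snd)),
    fun σ τ a h => h2 σ τ (f a) h, fun a => h3 (f a)⟩

theorem CE.and {A : Set ℕ} {p q : α → Prop} (hp : CE A p) (hq : CE A q) :
    CE A fun a => p a ∧ q a := by
  obtain ⟨W, h1, h2, h3⟩ := hp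
  obtain ⟨V, k1, k2, k3⟩ := hq
  refine ⟨fun σ a => W σ a ∧ V σ a, h1.and k1, fun σ τ a h hh =>
    ⟨h2 _ _ _ h hh.1, k2 _ _ _ h hh.2⟩, fun a => ?_⟩
  simp only [h3, k3]
  constructor
  · rintro ⟨⟨s, hs⟩, ⟨t, ht⟩⟩
    exact ⟨max s t, h2 _ _ _ (pre_le A (le_max_left _ _)) hs,
      k2 _ _ _ (pre_le A (le_max_right _ _)) ht⟩
  · rintro ⟨s, hs, ht⟩
    exact ⟨⟨s, hs⟩, ⟨s, ht⟩⟩

theorem CE.or {A : Set ℕ} {p q : α → Prop} (hp : CE A p) (hq : CE A q) :
    CE A fun a => p a ∨ q a := by
  obtain ⟨W, h1, h2, h3⟩ := hp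
  obtain ⟨V, k1, k2, k3⟩ := hq
  refine ⟨fun σ a => W σ a ∨ V σ a, h1.or k1, fun σ τ a h hh =>
    hh.imp (h2 _ _ _ h) (k2 _ _ _ h), fun a => ?_⟩
  simp only [h3, k3]
  rw [exists_or]

theorem CE.ex {A : Set ℕ} {p : α → β → Prop} (hp : CE A fun x : α × β => p x.1 x.2) :
    CE A fun a => ∃ b, p a b := by
  obtain ⟨W, h1, h2, h3⟩ := hp
  refine ⟨fun σ a => ∃ b, W σ (a, b), ?_, fun σ τ a h hh => ?_, fun a => ?_⟩
  · refine Sig1.ex (α := List Bool × α) (p := fun x b => W x.1 (x.2, b)) ?_
    exact h1.comp (f := fun y : (List Bool × α) × β => (y.1.1, (y.1.2, y.2)))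
      (Computable.pair (Computable.fst.comp Computable.fst)
        (Computable.pair (Computable.snd.comp Computable.fst) Computable.snd))
  · obtain ⟨b, hb⟩ := hh
    exact ⟨b, h2 _ _ _ h hb⟩
  · constructor
    · rintro ⟨b, hb⟩
      obtain ⟨s, hs⟩ := (h3 (a, b)).1 hb
      exact ⟨s, b, hs⟩
    · rintro ⟨s, b, hs⟩
      exact ⟨b, (h3 (a, b)).2 ⟨s, hs⟩⟩

theorem CE.ball {A : Set ℕ} {p : α → ℕ → Prop} {f : α → ℕ}
    (hp : CE A fun x : α × ℕ => p x.1 x.2) (hf : Computable f) :
    CE A fun a => ∀ i < f a, p a i := by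
  obtain ⟨W, h1, h2, h3⟩ := hp
  refine ⟨fun σ a => ∀ i < f a, W σ (a, i), ?_, fun σ τ a h hh i hi => h2 _ _ _ h (hh i hi),
    fun a => ?_⟩
  · refine Sig1.ball (α := List Bool × α) (p := fun x i => W x.1 (x.2, i)) (f := fun x => f x.2)
      ?_ (hf.comp Computable.snd)
    exact h1.comp (f := fun y : (List Bool × α) × ℕ => (y.1.1, (y.1.2, y.2)))
      (Computable.pair (Computable.fst.comp Computable.fst)
        (Computable.pair (Computable.snd.comp Computable.fst) Computable.snd))
  · constructor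
    · intro h
      have : ∀ i, ∃ s, i < f a → W (pre A s) (a, i) := by
        intro i
        by_cases hi : i < f a
        · obtain ⟨s, hs⟩ := (h3 (a, i)).1 (h i hi)
          exact ⟨s, fun _ => hs⟩
        · exact ⟨0, fun h => absurd h hi⟩
      choose g hg using this
      refine ⟨(Finset.range (f a)).sup g, fun i hi => ?_⟩
      exact h2 _ _ _ (pre_le A (Finset.le_sup (f := g) (Finset.mem_range.2 hi))) (hg i hi)
    · rintro ⟨s, hs⟩ i hi
      exact (h3 (a, i)).2 ⟨s, hs i hi⟩

theorem CE.mem (A : Set ℕ) : CE A fun n => n ∈ A := by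
  refine CE.mk' (W := fun σ n => σ.getD n false = true) ?_ ?_
  · exact Sig1.of_computable ((Primrec.list_getD false).to_comp.comp Computable.fst Computable.snd)
  · intro n
    constructor
    · intro h
      refine ⟨n + 1, ?_⟩
      rw [List.getD_eq_getElem?_getD, pre_getElem? A _ _ (Nat.lt_succ_self n)]
      simp [h]
    · rintro ⟨s, hs⟩
      rw [List.getD_eq_getElem?_getD] at hs
      by_cases hn : n < s
      · rw [pre_getElem? A _ _ hn] at hs
        simpa using hs
      · rw [pre_getElem?_none A _ _ (not_lt.1 hn)] at hs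
        simp at hs

theorem CE.notMem (A : Set ℕ) : CE A fun n => n ∉ A := by
  refine CE.mk' (W := fun σ n => (!(σ.getD n true)) = true) ?_ ?_
  · exact Sig1.of_computable (Primrec.not.to_comp.comp
      ((Primrec.list_getD true).to_comp.comp Computable.fst Computable.snd))
  · intro n
    constructor
    · intro h
      refine ⟨n + 1, ?_⟩
      rw [List.getD_eq_getElem?_getD, pre_getElem? A _ _ (Nat.lt_succ_self n)]
      simp [h]
    · rintro ⟨s, hs⟩
      rw [List.getD_eq_getElem?_getD] at hs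
      by_cases hn : n < s
      · rw [pre_getElem? A _ _ hn] at hs
        simpa using hs
      · rw [pre_getElem?_none A _ _ (not_lt.1 hn)] at hs
        simp at hs

theorem Dec.of_eq {A : Set ℕ} {p q : α → Prop} (hp : Dec A p) (h : ∀ a, p a ↔ q a) : Dec A q :=
  ⟨hp.1.of_eq h, hp.2.of_eq fun a => not_congr (h a)⟩

theorem Dec.not {A : Set ℕ} {p : α → Prop} (hp : Dec A p) : Dec A fun a => ¬ p a :=
  ⟨hp.2, hp.1.of_eq fun _ => not_not.symm⟩

theorem Dec.and {A : Set ℕ} {p q : α → Prop} (hp : Dec A p) (hq : Dec A q) :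
    Dec A fun a => p a ∧ q a :=
  ⟨hp.1.and hq.1, (hp.2.or hq.2).of_eq fun _ => not_and_or.symm⟩

theorem Dec.comp {A : Set ℕ} {p : β → Prop} {f : α → β} (hp : Dec A p) (hf : Computable f) :
    Dec A fun a => p (f a) := ⟨hp.1.comp hf, hp.2.comp hf⟩

theorem Dec.of_computable {A : Set ℕ} {f : α → Bool} (hf : Computable f) :
    Dec A fun a => f a = true :=
  ⟨CE.of_sig1 (Sig1.of_computable hf),
    (CE.of_sig1 (Sig1.of_computable (Primrec.not.to_comp.comp hf))).of_eq fun a => by simp⟩

theorem Red.refl (A : Set ℕ) : Red A A := ⟨CE.mem A, CE.notMem A⟩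

/-- being an initial segment of (the characteristic sequence of) `B` -/
theorem ce_initial {A B : Set ℕ} (h : Red B A) :
    CE A fun σ : List Bool => σ = pre B σ.length := by
  have h1 : CE A fun σ : List Bool => ∀ i < σ.length,
      ((σ.getD i false = true ∧ i ∈ B) ∨ ((!(σ.getD i false)) = true ∧ i ∉ B)) := by
    refine CE.ball ?_ Computable.list_length
    have hg : Computable fun x : List Bool × ℕ => x.1.getD x.2 false :=
      (Primrec.list_getD false).to_comp.comp Computable.fst Computable.snd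
    refine CE.or (CE.and ?_ (h.1.comp Computable.snd)) (CE.and ?_ (h.2.comp Computable.snd))
    · exact CE.of_sig1 (Sig1.of_computable hg)
    · exact CE.of_sig1 (Sig1.of_computable (Primrec.not.to_comp.comp hg))
  refine h1.of_eq fun σ => ?_
  constructor
  · intro h
    apply List.ext_getElem?
    intro i
    by_cases hi : i < σ.length
    · rw [pre_getElem? B _ _ hi]
      have := h i hi
      rw [List.getD_eq_getElem?_getD, List.getElem?_eq_getElem hi] at this
      rw [List.getElem?_eq_getElem hi]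
      simp only [Option.getD_some] at this
      rcases this with ⟨h1, h2⟩ | ⟨h1, h2⟩
      · simp [h1, h2]
      · simp only [Bool.not_eq_true'] at h1
        simp [h1, h2]
    · rw [pre_getElem?_none B _ _ (not_lt.1 hi), List.getElem?_eq_none (not_lt.1 hi)]
  · intro h i hi
    rw [h, List.getD_eq_getElem?_getD, pre_getElem? B _ _ hi]
    by_cases hB : i ∈ B <;> simp [hB]

theorem CE.trans {A B : Set ℕ} {p : α → Prop} (hp : CE B p) (h : Red B A) : CE A p := by
  obtain ⟨W, h1, h2, h3⟩ := hp
  have h4 : CE A fun a => ∃ σ : List Bool, (σ = pre B σ.length) ∧ W σ a := by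
    refine CE.ex (p := fun a (σ : List Bool) => (σ = pre B σ.length) ∧ W σ a) ?_
    refine CE.and ((ce_initial h).comp Computable.snd) ?_
    exact CE.of_sig1 (h1.comp (f := fun x : α × List Bool => (x.2, x.1))
      (Computable.pair Computable.snd Computable.fst))
  refine h4.of_eq fun a => ?_
  rw [h3]
  constructor
  · rintro ⟨σ, hσ, hW⟩
    exact ⟨σ.length, hσ ▸ hW⟩
  · rintro ⟨s, hs⟩
    exact ⟨pre B s, by simp, hs⟩

theorem Dec.trans {A B : Set ℕ} {p : α → Prop} (hp : Dec B p) (h : Red B A) : Dec A p :=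
  ⟨hp.1.trans h, hp.2.trans h⟩

theorem Red.trans {A B C : Set ℕ} (h1 : Red A B) (h2 : Red B C) : Red A C := Dec.trans h1 h2

end Low4
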