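import Mathlib

namespace Low4

open Metric Set

variable {Y : Type} [MetricSpace Y] (s : ℕ → Y)

/-- union of the open balls of radius `1/(N+1)` with centres listed in `L` -/
def VB (N : ℕ) (L : List ℕ) : Set Y :=
  {x | ∃ i < L.length, dist x (s (L.getD i 0)) < 1 / ((N : ℝ) + 1)}

/-- union of the closed balls of radius `1/(N+1)` with centres listed in `L` -/
def FB (N : ℕ) (L : List ℕ) : Set Y :=
  {x | ∃ i < L.length, dist x (s (L.getD i 0)) ≤ 1 / ((N : ℝ) + 1)}

theorem VB_sub_FB (N : ℕ) (L : List ℕ) : VB s N L ⊆ FB s N L :=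
  fun _ ⟨i, hi, h⟩ => ⟨i, hi, h.le⟩

theorem isOpen_VB (N : ℕ) (L : List ℕ) : IsOpen (VB s N L) := by
  have : VB s N L = ⋃ i ∈ Finset.range L.length, ball (s (L.getD i 0)) (1 / ((N : ℝ) + 1)) := by
    ext x; simp [VB]
  rw [this]
  exact isOpen_biUnion fun i _ => isOpen_ball

theorem isClosed_FB (N : ℕ) (L : List ℕ) : IsClosed (FB s N L) := by
  have : FB s N L = ⋃ i ∈ Finset.range L.length,
      closedBall (s (L.getD i 0)) (1 / ((N : ℝ) + 1)) := by
    ext x; simp [FB]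
  rw [this]
  exact isClosed_biUnion_finset fun i _ => isClosed_closedBall

/-- a step of length `< 1/(k+1)` inside `VB` -/
def Ed (N : ℕ) (L : List ℕ) (k : ℕ) (a b : ℕ) : Prop :=
  s a ∈ VB s N L ∧ s b ∈ VB s N L ∧ dist (s a) (s b) < 1 / ((k : ℝ) + 1)

/-- `a` and `b` are linked by a chain of dense points in `VB` with steps `< 1/(k+1)` -/
def Lk (N : ℕ) (L : List ℕ) (k : ℕ) (a b : ℕ) : Prop :=
  s a ∈ VB s N L ∧ Relation.ReflTransGen (Ed s N L k) a b

theorem exists_nat_lt {δ : ℝ} (h : 0 < δ) : ∃ k : ℕ, 1 / ((k : ℝ) + 1) < δ :=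
  exists_nat_one_div_lt h

theorem lk_sound [CompactSpace Y] {N : ℕ} {L : List ℕ} {a b : ℕ} (h : ∀ k, Lk s N L k a b) :
    s b ∈ connectedComponentIn (FB s N L) (s a) := by
  have haV : s a ∈ FB s N L := VB_sub_FB s N L (h 0).1
  have hcomp : IsCompact (FB s N L) := (isClosed_FB s N L).isCompact
  haveI : CompactSpace (FB s N L) := isCompact_iff_compactSpace.1 hcomp
  have hb : s b ∈ FB s N L := by
    have h2 := (h 0).2
    induction h2 with
    | refl => exact haV
    | tail _ hbc _ => exact VB_sub_FB s N L hbc.2.1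
  rw [connectedComponentIn_eq_image haV]
  refine ⟨⟨s b, hb⟩, ?_, rfl⟩
  rw [connectedComponent_eq_iInter_isClopen, mem_iInter]
  rintro ⟨Z, hZ, hx⟩
  obtain ⟨δ, hδ, hth⟩ := hZ.1.isCompact.exists_thickening_subset_open hZ.2 Subset.rfl
  obtain ⟨k, hk⟩ := exists_nat_lt hδ
  have key : ∀ c, Relation.ReflTransGen (Ed s N L k) a c →
      ∃ hc : s c ∈ FB s N L, (⟨s c, hc⟩ : FB s N L) ∈ Z := by
    intro c hc
    induction hc with
    | refl => exact ⟨haV, hx⟩
    | @tail c e _ hce ih =>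
      obtain ⟨h1, h2⟩ := ih
      refine ⟨VB_sub_FB s N L hce.2.1, hth ?_⟩
      rw [mem_thickening_iff]
      refine ⟨_, h2, ?_⟩
      rw [Subtype.dist_eq, dist_comm]
      exact hce.2.2.trans hk
  obtain ⟨_, h2⟩ := key b (h k).2
  exact h2

theorem Ed.symm {N : ℕ} {L : List ℕ} {k a b : ℕ} (h : Ed s N L k a b) : Ed s N L k b a :=
  ⟨h.2.1, h.1, by rw [dist_comm]; exact h.2.2⟩

theorem lk_complete (hs : DenseRange s) {N : ℕ} {L : List ℕ} {C : Set Y}
    (hC : IsPreconnected C) (hCV : C ⊆ VB s N L) {a b : ℕ} (ha : s a ∈ C) (hb : s b ∈ C) (k : ℕ) :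
    Lk s N L k a b := by
  have hk : (0 : ℝ) < 1 / ((k : ℝ) + 1) := by positivity
  set ε : ℝ := 1 / ((k : ℝ) + 1) with hε
  have hsymm : ∀ a b, Relation.ReflTransGen (Ed s N L k) a b →
      Relation.ReflTransGen (Ed s N L k) b a := by
    intro a b h
    induction h with
    | refl => exact .refl
    | tail _ hbc ih => exact Relation.ReflTransGen.head (Ed.symm s hbc) ih
  have key := hC.induction₂ (fun x y => ∀ a b, s a ∈ VB s N L → s b ∈ VB s N L →
    dist (s a) x < ε / 3 → dist (s b) y < ε / 3 → Relation.ReflTransGen (Ed s N L k) a b)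
    ?_ ?_ ?_ ha hb
  · refine ⟨hCV ha, key a b (hCV ha) (hCV hb) ?_ ?_⟩ <;> rw [dist_self] <;> positivity
  · intro x hx
    have : ∀ᶠ y in nhdsWithin x C, dist y x < ε / 3 :=
      nhdsWithin_le_nhds (Metric.ball_mem_nhds x (by positivity))
    filter_upwards [this] with y hy a b haV hbV hax hby
    refine Relation.ReflTransGen.single ⟨haV, hbV, ?_⟩
    calc dist (s a) (s b) ≤ dist (s a) x + dist x y + dist y (s b) := dist_triangle4 _ _ _ _
      _ < ε / 3 + ε / 3 + ε / 3 := by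
        rw [dist_comm x y, dist_comm y (s b)]
        exact add_lt_add (add_lt_add hax hy) hby
      _ = ε := by ring
  · intro x y z hx hy hz h1 h2 a c haV hcV hax hcz
    -- choose a dense point near `y` in `VB`
    have hopen : IsOpen (VB s N L ∩ ball y (ε / 3)) := (isOpen_VB s N L).inter isOpen_ball
    obtain ⟨b, hb⟩ := hs.exists_mem_open hopen ⟨y, hCV hy, mem_ball_self (by positivity)⟩
    exact (h1 a b haV hb.1 hax hb.2).trans (h2 b c hb.1 hcV hb.2 hcz)
  · intro x y hx hy h a b haV hbV hay hbx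
    exact hsymm _ _ (h b a hbV haV hbx hay)

/-- covering a compact set by small balls around dense points -/
theorem exists_cover (hs : DenseRange s) {Q : Set Y} (hQ : IsCompact Q) (N : ℕ) :
    ∃ L : List ℕ, Q ⊆ VB s N L ∧
      ∀ i < L.length, ∃ x ∈ Q, dist x (s (L.getD i 0)) < 1 / ((N : ℝ) + 1) := by
  classical
  have hN : (0 : ℝ) < 1 / ((N : ℝ) + 1) := by positivity
  have h1 : Q ⊆ ⋃ i : ℕ, ball (s i) (1 / ((N : ℝ) + 1)) := by
    intro x _
    obtain ⟨i, hi⟩ := hs.exists_mem_open (isOpen_ball (x := x) (ε := 1 / ((N : ℝ) + 1)))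
      ⟨x, mem_ball_self hN⟩
    exact mem_iUnion.2 ⟨i, by rw [mem_ball, dist_comm]; exact hi⟩
  obtain ⟨t, ht⟩ := hQ.elim_finite_subcover _ (fun i => isOpen_ball) h1
  let t' := t.filter fun i => ∃ x ∈ Q, dist x (s i) < 1 / ((N : ℝ) + 1)
  refine ⟨t'.toList, ?_, ?_⟩
  · intro x hx
    obtain ⟨i, hi, hxi⟩ := mem_iUnion₂.1 (ht hx)
    have hit : i ∈ t'.toList := by
      rw [Finset.mem_toList, Finset.mem_filter]
      exact ⟨hi, x, hx, hxi⟩
    obtain ⟨n, hn, hn2⟩ := List.mem_iff_getElem.1 hit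
    refine ⟨n, hn, ?_⟩
    rw [List.getD_eq_getElem _ _ hn, hn2]
    exact hxi
  · intro i hi
    have : (t'.toList).getD i 0 ∈ t'.toList := by
      rw [List.getD_eq_getElem _ _ hi]; exact List.getElem_mem hi
    rw [Finset.mem_toList, Finset.mem_filter] at this
    exact this.2

end Low4
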