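import Pool.Agent.Hhelper75.Low4.Formula

namespace Low4

open Metric Set

/-- parameters `((n, b, M), (N, Ls, ys, zs))` -/
abbrev Par : Type := (ℕ × ℕ × ℕ) × (ℕ × List (List ℕ) × List ℕ × List ℕ)

/-- `(k, i, j, t, t')` -/
abbrev Kap : Type := ℕ × ℕ × ℕ × ℕ × ℕ

theorem lt_iff_cross (δ : ℝ) (hδ : 0 ≤ δ) (M N : ℕ) :
    δ + 1 / ((N : ℝ) + 1) < 1 / ((M : ℝ) + 1) ↔
      δ * (((M + 1) * (N + 1) : ℕ) : ℝ) < ((N - M : ℕ) : ℝ) := by
  have hM : (0 : ℝ) < (M : ℝ) + 1 := by positivity
  have hN : (0 : ℝ) < (N : ℝ) + 1 := by positivity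
  rcases le_or_gt M N with h | h
  · rw [Nat.cast_sub h]
    push_cast
    have h1 : δ + 1 / ((N : ℝ) + 1) < 1 / ((M : ℝ) + 1) ↔
        (δ + 1 / ((N : ℝ) + 1)) * (((M : ℝ) + 1) * ((N : ℝ) + 1)) <
          1 / ((M : ℝ) + 1) * (((M : ℝ) + 1) * ((N : ℝ) + 1)) :=
      (mul_lt_mul_iff_left₀ (mul_pos hM hN)).symm
    rw [h1]
    have h2 : (δ + 1 / ((N : ℝ) + 1)) * (((M : ℝ) + 1) * ((N : ℝ) + 1)) =
        δ * (((M : ℝ) + 1) * ((N : ℝ) + 1)) + (M + 1) := by
      field_simp
    have h3 : 1 / ((M : ℝ) + 1) * (((M : ℝ) + 1) * ((N : ℝ) + 1)) = N + 1 := by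
      field_simp
    rw [h2, h3]
    constructor <;> intro h <;> linarith
  · have h1 : N - M = 0 := by omega
    rw [h1]
    constructor
    · intro h2
      exfalso
      have h3 : 1 / ((M : ℝ) + 1) ≤ 1 / ((N : ℝ) + 1) := by
        apply one_div_le_one_div_of_le hN
        have : (N : ℝ) ≤ M := by exact_mod_cast h.le
        linarith
      linarith
    · intro h2
      exfalso
      have : 0 ≤ δ * (((M + 1) * (N + 1) : ℕ) : ℝ) := by positivity
      simp only [Nat.cast_zero] at h2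
      linarith

variable {Y : Type} [MetricSpace Y] {s : ℕ → Y} {a : ℕ × ℕ × ℕ → ℕ × ℕ}

/-- the matrix of the formula expressing `FS` -/
def Phi (s : ℕ → Y) (x : Par × Kap) : Prop :=
  ((decide (x.2.2.1 < x.1.1.1 + 1) && decide (x.2.2.2.2.1 < (x.1.2.2.1.getD x.2.2.1 []).length))
      = true →
    dist (s ((x.1.2.2.1.getD x.2.2.1 []).getD x.2.2.2.2.1 0)) (s x.1.1.2.1) *
      (((x.1.1.2.2 + 1) * (x.1.2.1 + 1) : ℕ) : ℝ) < ((x.1.2.1 - x.1.1.2.2 : ℕ) : ℝ)) ∧
  (((decide (x.2.2.1 < x.1.1.1) && decide (x.2.2.2.1 < x.1.1.1)) &&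
      (!(decide (x.2.2.1 = x.2.2.2.1)) &&
      (decide (x.2.2.2.2.1 < (x.1.2.2.1.getD x.2.2.1 []).length) &&
      decide (x.2.2.2.2.2 < (x.1.2.2.1.getD x.2.2.2.1 []).length)))) = true →
    ((2 : ℕ) : ℝ) / ((x.1.2.1 : ℝ) + 1) < dist (s ((x.1.2.2.1.getD x.2.2.1 []).getD x.2.2.2.2.1 0))
      (s ((x.1.2.2.1.getD x.2.2.2.1 []).getD x.2.2.2.2.2 0))) ∧
  ((decide (x.2.2.1 < x.1.1.1) && decide (x.2.2.2.2.1 < (x.1.2.2.1.getD x.1.1.1 []).length))
      = true →
    ((1 : ℕ) : ℝ) / ((x.1.2.1 : ℝ) + 1) < dist (s (x.1.2.2.2.1.getD x.2.2.1 0))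
      (s ((x.1.2.2.1.getD x.1.1.1 []).getD x.2.2.2.2.1 0))) ∧
  (decide (x.2.2.1 < x.1.1.1) = true →
    Lk s x.1.2.1 (x.1.2.2.1.getD x.2.2.1 []) x.2.1 (x.1.2.2.2.1.getD x.2.2.1 0)
      (x.1.2.2.2.2.getD x.2.2.1 0)) ∧
  (decide (x.2.2.1 < x.1.1.1) = true →
    Lk s x.1.2.1 (x.1.2.2.1.getD x.1.1.1 []) x.2.1 (x.1.2.2.2.2.getD 0 0)
      (x.1.2.2.2.2.getD x.2.2.1 0))

theorem FS_iff_Phi (p : Par) :
    FS s p.1.1 p.1.2.1 p.1.2.2 p.2.1 p.2.2.1 p.2.2.2.1 p.2.2.2.2 ↔ ∀ κ : Kap, Phi s (p, κ) := by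
  obtain ⟨⟨n, b, M⟩, ⟨N, Ls, ys, zs⟩⟩ := p
  constructor
  · rintro ⟨h1, h2, h3, h4, h5⟩ ⟨k, i, j, t, t'⟩
    refine ⟨?_, ?_, ?_, ?_, ?_⟩
    · intro h
      simp only [Bool.and_eq_true, decide_eq_true_eq] at h
      exact (lt_iff_cross _ dist_nonneg _ _).1 (h1 i h.1 t h.2)
    · intro h
      simp only [Bool.and_eq_true, decide_eq_true_eq, Bool.not_eq_true',
        decide_eq_false_iff_not] at h
      have := h2 i h.1.1 j h.1.2 h.2.1 t h.2.2.1 t' h.2.2.2
      simpa using this
    · intro h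
      simp only [Bool.and_eq_true, decide_eq_true_eq] at h
      have := h3 i h.1 t h.2
      simpa using this
    · intro h
      simp only [decide_eq_true_eq] at h
      exact h4 k i h
    · intro h
      simp only [decide_eq_true_eq] at h
      exact h5 k i h
  · intro h
    refine ⟨?_, ?_, ?_, ?_, ?_⟩
    · intro i hi t ht
      have := (h (0, i, 0, t, 0)).1
      simp only [Bool.and_eq_true, decide_eq_true_eq] at this
      exact (lt_iff_cross _ dist_nonneg _ _).2 (this ⟨hi, ht⟩)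
    · intro i hi j hj hij t ht t' ht'
      have := (h (0, i, j, t, t')).2.1
      simp only [Bool.and_eq_true, decide_eq_true_eq, Bool.not_eq_true',
        decide_eq_false_iff_not] at this
      have := this ⟨⟨hi, hj⟩, hij, ht, ht'⟩
      simpa using this
    · intro i hi t ht
      have := (h (0, i, 0, t, 0)).2.2.1
      simp only [Bool.and_eq_true, decide_eq_true_eq] at this
      have := this ⟨hi, ht⟩
      simpa using this
    · intro k i hi
      have := (h (k, i, 0, 0, 0)).2.2.2.1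
      simp only [decide_eq_true_eq] at this
      exact this hi
    · intro k i hi
      have := (h (k, i, 0, 0, 0)).2.2.2.2
      simp only [decide_eq_true_eq] at this
      exact this hi

theorem computable_ltb : Computable fun x : ℕ × ℕ => decide (x.1 < x.2) :=
  Primrec.nat_lt.decide.to_comp

theorem computable_lt {α : Type} [Primcodable α] {f g : α → ℕ} (hf : Computable f)
    (hg : Computable g) : Computable fun x => decide (f x < g x) :=
  Computable.comp (f := fun x : ℕ × ℕ => decide (x.1 < x.2)) (g := fun x => (f x, g x))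
    computable_ltb (Computable.pair hf hg)

theorem computable_eqn {α : Type} [Primcodable α] {f g : α → ℕ} (hf : Computable f)
    (hg : Computable g) : Computable fun x => decide (f x = g x) :=
  Computable.comp (f := fun x : ℕ × ℕ => decide (x.1 = x.2)) (g := fun x => (f x, g x))
    (Primrec.eq (α := ℕ)).decide.to_comp (Computable.pair hf hg)

theorem computable_band {α : Type} [Primcodable α] {f g : α → Bool} (hf : Computable f)
    (hg : Computable g) : Computable fun x => (f x && g x) := Primrec.and.to_comp.comp hf hg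

theorem computable_getDL {α : Type} [Primcodable α] {f : α → List (List ℕ)} {g : α → ℕ}
    (hf : Computable f) (hg : Computable g) : Computable fun x => (f x).getD (g x) [] :=
  Computable.comp (f := fun x : List (List ℕ) × ℕ => x.1.getD x.2 []) (g := fun x => (f x, g x))
    (Primrec.list_getD []).to_comp (Computable.pair hf hg)

theorem computable_getDN {α : Type} [Primcodable α] {f : α → List ℕ} {g : α → ℕ}
    (hf : Computable f) (hg : Computable g) : Computable fun x => (f x).getD (g x) 0 :=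
  Computable.comp (f := fun x : List ℕ × ℕ => x.1.getD x.2 0) (g := fun x => (f x, g x))
    (Primrec.list_getD 0).to_comp (Computable.pair hf hg)

theorem sig1_Phi (ha : Computable a)
    (h : ∀ i j n : ℕ, |dist (s i) (s j) - ((a (i, j, n)).1 : ℝ) / ((a (i, j, n)).2 + 1)| ≤ 1 / 2 ^ n) :
    Sig1 (Phi s) := by
  have c1 : Computable fun x : Par × Kap => x.1 := Computable.fst
  have c11 : Computable fun x : Par × Kap => x.1.1 := Computable.fst.comp c1
  have cn : Computable fun x : Par × Kap => x.1.1.1 := Computable.fst.comp c11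
  have c112 : Computable fun x : Par × Kap => x.1.1.2 := Computable.snd.comp c11
  have cb : Computable fun x : Par × Kap => x.1.1.2.1 := Computable.fst.comp c112
  have cM : Computable fun x : Par × Kap => x.1.1.2.2 := Computable.snd.comp c112
  have c12 : Computable fun x : Par × Kap => x.1.2 := Computable.snd.comp c1
  have cN : Computable fun x : Par × Kap => x.1.2.1 := Computable.fst.comp c12
  have c122 : Computable fun x : Par × Kap => x.1.2.2 := Computable.snd.comp c12
  have cLs : Computable fun x : Par × Kap => x.1.2.2.1 := Computable.fst.comp c122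
  have c1222 : Computable fun x : Par × Kap => x.1.2.2.2 := Computable.snd.comp c122
  have cys : Computable fun x : Par × Kap => x.1.2.2.2.1 := Computable.fst.comp c1222
  have czs : Computable fun x : Par × Kap => x.1.2.2.2.2 := Computable.snd.comp c1222
  have c2 : Computable fun x : Par × Kap => x.2 := Computable.snd
  have ck : Computable fun x : Par × Kap => x.2.1 := Computable.fst.comp c2
  have c22 : Computable fun x : Par × Kap => x.2.2 := Computable.snd.comp c2
  have ci : Computable fun x : Par × Kap => x.2.2.1 := Computable.fst.comp c22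
  have c222 : Computable fun x : Par × Kap => x.2.2.2 := Computable.snd.comp c22
  have cj : Computable fun x : Par × Kap => x.2.2.2.1 := Computable.fst.comp c222
  have c2222 : Computable fun x : Par × Kap => x.2.2.2.2 := Computable.snd.comp c222
  have ct : Computable fun x : Par × Kap => x.2.2.2.2.1 := Computable.fst.comp c2222
  have ct' : Computable fun x : Par × Kap => x.2.2.2.2.2 := Computable.snd.comp c2222
  have cLi : Computable fun x : Par × Kap => x.1.2.2.1.getD x.2.2.1 [] := computable_getDL cLs ci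
  have cLj : Computable fun x : Par × Kap => x.1.2.2.1.getD x.2.2.2.1 [] := computable_getDL cLs cj
  have cLn : Computable fun x : Par × Kap => x.1.2.2.1.getD x.1.1.1 [] := computable_getDL cLs cn
  have cyi : Computable fun x : Par × Kap => x.1.2.2.2.1.getD x.2.2.1 0 := computable_getDN cys ci
  have czi : Computable fun x : Par × Kap => x.1.2.2.2.2.getD x.2.2.1 0 := computable_getDN czs ci
  have cz0 : Computable fun x : Par × Kap => x.1.2.2.2.2.getD 0 0 :=
    computable_getDN czs (Computable.const 0)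
  have cLit : Computable fun x : Par × Kap => (x.1.2.2.1.getD x.2.2.1 []).getD x.2.2.2.2.1 0 :=
    computable_getDN cLi ct
  have cLjt : Computable fun x : Par × Kap => (x.1.2.2.1.getD x.2.2.2.1 []).getD x.2.2.2.2.2 0 :=
    computable_getDN cLj ct'
  have cLnt : Computable fun x : Par × Kap => (x.1.2.2.1.getD x.1.1.1 []).getD x.2.2.2.2.1 0 :=
    computable_getDN cLn ct
  have gin : Computable fun x : Par × Kap => decide (x.2.2.1 < x.1.1.1) := computable_lt ci cn
  have gjn : Computable fun x : Par × Kap => decide (x.2.2.2.1 < x.1.1.1) := computable_lt cj cn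
  have gin1 : Computable fun x : Par × Kap => decide (x.2.2.1 < x.1.1.1 + 1) :=
    computable_lt ci (Computable.succ.comp cn)
  have gti : Computable fun x : Par × Kap =>
      decide (x.2.2.2.2.1 < (x.1.2.2.1.getD x.2.2.1 []).length) :=
    computable_lt ct (Computable.list_length.comp cLi)
  have gtj : Computable fun x : Par × Kap =>
      decide (x.2.2.2.2.2 < (x.1.2.2.1.getD x.2.2.2.1 []).length) :=
    computable_lt ct' (Computable.list_length.comp cLj)
  have gtn : Computable fun x : Par × Kap =>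
      decide (x.2.2.2.2.1 < (x.1.2.2.1.getD x.1.1.1 []).length) :=
    computable_lt ct (Computable.list_length.comp cLn)
  have gij : Computable fun x : Par × Kap => !(decide (x.2.2.1 = x.2.2.2.1)) :=
    Primrec.not.to_comp.comp (computable_eqn ci cj)
  refine Sig1.and ?_ (Sig1.and ?_ (Sig1.and ?_ (Sig1.and ?_ ?_)))
  · refine Sig1.imp (computable_band gin1 gti) ?_
    refine (sig1_LT ha h).comp (f := fun x : Par × Kap =>
      (((x.1.2.2.1.getD x.2.2.1 []).getD x.2.2.2.2.1 0, x.1.1.2.1),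
        (x.1.2.1 - x.1.1.2.2, (x.1.1.2.2 + 1) * (x.1.2.1 + 1)))) ?_
    refine Computable.pair (Computable.pair cLit cb) (Computable.pair ?_ ?_)
    · exact Primrec.nat_sub.to_comp.comp cN cM
    · exact Primrec.nat_mul.to_comp.comp (Computable.succ.comp cM) (Computable.succ.comp cN)
  · refine Sig1.imp (computable_band (computable_band gin gjn)
      (computable_band gij (computable_band gti gtj))) ?_
    exact (sig1_big ha h 2).comp (f := fun x : Par × Kap =>
      (x.1.2.1, ((x.1.2.2.1.getD x.2.2.1 []).getD x.2.2.2.2.1 0,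
        (x.1.2.2.1.getD x.2.2.2.1 []).getD x.2.2.2.2.2 0)))
      (Computable.pair cN (Computable.pair cLit cLjt))
  · refine Sig1.imp (computable_band gin gtn) ?_
    exact (sig1_big ha h 1).comp (f := fun x : Par × Kap =>
      (x.1.2.1, (x.1.2.2.2.1.getD x.2.2.1 0,
        (x.1.2.2.1.getD x.1.1.1 []).getD x.2.2.2.2.1 0)))
      (Computable.pair cN (Computable.pair cyi cLnt))
  · refine Sig1.imp gin ?_
    exact (sig1_Lk ha h).comp (f := fun x : Par × Kap =>
      (((x.1.2.1, x.1.2.2.1.getD x.2.2.1 []), x.2.1), (x.1.2.2.2.1.getD x.2.2.1 0,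
        x.1.2.2.2.2.getD x.2.2.1 0)))
      (Computable.pair (Computable.pair (Computable.pair cN cLi) ck) (Computable.pair cyi czi))
  · refine Sig1.imp gin ?_
    exact (sig1_Lk ha h).comp (f := fun x : Par × Kap =>
      (((x.1.2.1, x.1.2.2.1.getD x.1.1.1 []), x.2.1), (x.1.2.2.2.2.getD 0 0,
        x.1.2.2.2.2.getD x.2.2.1 0)))
      (Computable.pair (Computable.pair (Computable.pair cN cLn) ck) (Computable.pair cz0 czi))

/-- `FStar` is decidable in `∅'''` -/
theorem dec_FStar (ha : Computable a)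
    (h : ∀ i j n : ℕ, |dist (s i) (s j) - ((a (i, j, n)).1 : ℝ) / ((a (i, j, n)).2 + 1)| ≤ 1 / 2 ^ n) :
    Dec (JJ 3 ∅) fun x : ℕ × ℕ × ℕ => FStar s x.1 x.2.1 x.2.2 := by
  have h0 : CE (JJ 0 ∅) (Phi s) := CE.of_sig1 (sig1_Phi ha h)
  have h1 : Dec (JJ 1 ∅) (Phi s) := h0.dec_J
  have h2 : CE (JJ 1 ∅) fun p : Par => ∃ κ : Kap, ¬ Phi s (p, κ) :=
    CE.ex (p := fun (p : Par) (κ : Kap) => ¬ Phi s (p, κ)) h1.2
  have h3 : Dec (JJ 2 ∅) fun p : Par => ∃ κ : Kap, ¬ Phi s (p, κ) := h2.dec_J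
  have h4 : CE (JJ 2 ∅) fun p : Par =>
      FS s p.1.1 p.1.2.1 p.1.2.2 p.2.1 p.2.2.1 p.2.2.2.1 p.2.2.2.2 := by
    refine h3.2.of_eq fun p => ?_
    rw [FS_iff_Phi]
    push Not
    rfl
  have h5 : CE (JJ 2 ∅) fun x : ℕ × ℕ × ℕ =>
      ∃ q : ℕ × List (List ℕ) × List ℕ × List ℕ, FS s x.1 x.2.1 x.2.2 q.1 q.2.1 q.2.2.1 q.2.2.2 :=
    CE.ex (p := fun (x : ℕ × ℕ × ℕ) (q : ℕ × List (List ℕ) × List ℕ × List ℕ) =>
      FS s x.1 x.2.1 x.2.2 q.1 q.2.1 q.2.2.1 q.2.2.2) h4
  have h6 : Dec (JJ 3 ∅) fun x : ℕ × ℕ × ℕ =>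
      ∃ q : ℕ × List (List ℕ) × List ℕ × List ℕ, FS s x.1 x.2.1 x.2.2 q.1 q.2.1 q.2.2.1 q.2.2.2 :=
    h5.dec_J
  refine h6.of_eq fun x => ?_
  constructor
  · rintro ⟨q, hq⟩
    exact ⟨_, _, _, _, hq⟩
  · rintro ⟨N, Ls, ys, zs, hq⟩
    exact ⟨(N, Ls, ys, zs), hq⟩

/-- If a compact metric space with the fan structure coding `D` has computable distances between
dense points, then `D` is c.e. in `∅'''`. -/
theorem ce_of_fan [CompactSpace Y] (ha : Computable a)
    (h : ∀ i j n : ℕ, |dist (s i) (s j) - ((a (i, j, n)).1 : ℝ) / ((a (i, j, n)).2 + 1)| ≤ 1 / 2 ^ n)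
    (hs : DenseRange s) {D : Set ℕ} {o : Y} {c : ℕ → Y}
    (hF : IsFan D Y o c) (hD : ∀ N, ∃ n ≥ N, n ∈ D) : CE (JJ 3 ∅) fun d => d ∈ D := by
  have h1 := dec_FStar ha h
  have h2 : CE (JJ 3 ∅) fun d : ℕ => ∃ q : ℕ × ℕ, FStar s (d + 3) q.1 q.2 ∧
      ¬ FStar s (d + 4) q.1 q.2 := by
    refine CE.ex (p := fun (d : ℕ) (q : ℕ × ℕ) => FStar s (d + 3) q.1 q.2 ∧
      ¬ FStar s (d + 4) q.1 q.2) (CE.and ?_ ?_)
    · refine h1.1.comp (f := fun z : ℕ × (ℕ × ℕ) => (z.1 + 3, z.2.1, z.2.2)) ?_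
      exact Computable.pair (Primrec.nat_add.to_comp.comp Computable.fst (Computable.const 3))
        Computable.snd
    · refine h1.2.comp (f := fun z : ℕ × (ℕ × ℕ) => (z.1 + 4, z.2.1, z.2.2)) ?_
      exact Computable.pair (Primrec.nat_add.to_comp.comp Computable.fst (Computable.const 4))
        Computable.snd
  refine h2.of_eq fun d => ?_
  rw [fan_decode s hs hF hD d]
  simp

end Low4
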