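import Mathlib

/-!
# Definitions used in the statement

Turing jumps are expressed with Mathlib's oracle computability (`RecursiveIn`).
-/

namespace Low4

open Classical in
/-- The characteristic function of a set of naturals, as an oracle. -/
noncomputable def chi (A : Set ℕ) : ℕ →. ℕ := fun n => Part.some (if n ∈ A then 1 else 0)

/-- `S` is computably enumerable in `A`: it is the domain of a function which is
recursive in the characteristic function of `A`. -/
def CEIn (A S : Set ℕ) : Prop :=
  ∃ f : ℕ →. ℕ, RecursiveIn {chi A} f ∧ ∀ n, n ∈ S ↔ (f n).Dom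

/-- `J` is (a representative of) the Turing jump of `A`: a set c.e. in `A` to which every set
c.e. in `A` is many-one reducible.  The jump `{e | φ_e^A(e)↓}` has this property and
any two sets with this property are many-one equivalent, in particular Turing equivalent. -/
def IsJump (A J : Set ℕ) : Prop :=
  CEIn A J ∧ ∀ S : Set ℕ, CEIn A S → ManyOneReducible (fun n => n ∈ S) (fun n => n ∈ J)

/-- `J` is (a representative of) the `n`-th Turing jump of `A`. -/
def IsIterJump : ℕ → Set ℕ → Set ℕ → Prop
  | 0, A, J => J = A
  | n + 1, A, J => ∃ K, IsIterJump n A K ∧ IsJump K J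

/-- `D` has low₄ degree: the fourth jumps of `D` and of `∅` have the same Turing degree. -/
def LowFour (D : Set ℕ) : Prop :=
  ∃ J Z : Set ℕ, IsIterJump 4 D J ∧ IsIterJump 4 ∅ Z ∧ TuringEquivalent (chi J) (chi Z)

/-- The topological space `X` has a `D`-computable presentation `(X, d, (x i))`:
`d` is a complete metric compatible with the topology of `X`, `x` is a dense sequence, and some
`D`-computable function sends `(i, j, n)` to (the numerator and the denominator minus one of) a
rational number within `2 ^ (-n)` of `d (x i) (x j)`. -/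
def Presented (D : Set ℕ) (X : Type) [t : TopologicalSpace X] : Prop :=
  ∃ m : MetricSpace X, m.toUniformSpace.toTopologicalSpace = t ∧
    @CompleteSpace X m.toUniformSpace ∧
    ∃ x : ℕ → X, DenseRange x ∧
      ∃ a : ℕ × ℕ × ℕ → ℕ × ℕ, ComputableIn {chi D} a ∧
        ∀ i j n : ℕ, |m.dist (x i) (x j) - ((a (i, j, n)).1 : ℝ) / ((a (i, j, n)).2 + 1)| ≤ 1 / 2 ^ n

/-- Lebesgue covering dimension at most `n`: every open cover has an open refinement such that
every point lies in at most `n + 1` members of the refinement. -/
def CoveringDimLE (X : Type) [TopologicalSpace X] (n : ℕ) : Prop :=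
  ∀ U : Set (Set X), (∀ u ∈ U, IsOpen u) → ⋃₀ U = Set.univ →
    ∃ V : Set (Set X), (∀ v ∈ V, IsOpen v ∧ ∃ u ∈ U, v ⊆ u) ∧ ⋃₀ V = Set.univ ∧
      ∀ x : X, {v ∈ V | x ∈ v}.encard ≤ n + 1

/-- Finite covering dimension. -/
def FiniteDim (X : Type) [TopologicalSpace X] : Prop := ∃ n, CoveringDimLE X n

end Low4
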