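import Pool.Agent.Hhelper75.Low4.Jump

namespace Low4

open Encodable Denumerable
open Nat.Partrec (Code)

variable {α β γ : Type} [Primcodable α] [Primcodable β] [Primcodable γ]

/-- universal c.e.-in-`B` predicate on strings -/
def U (B : Set ℕ) (e : ℕ) (τ : List Bool) : Prop :=
  ∃ s, (Code.eval (ofNat Code e) (encode (pre B s, τ))).Dom

theorem ce_U (B : Set ℕ) : CE B fun x : ℕ × List Bool => U B x.1 x.2 := by
  refine CE.mk' (W := fun σ x => (Code.eval (ofNat Code x.1) (encode (σ, x.2))).Dom) ?_
    fun x => Iff.rfl
  have h1 : Partrec fun x : List Bool × (ℕ × List Bool) =>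
      Code.eval (ofNat Code x.2.1) (encode (x.1, x.2.2)) := by
    refine Code.eval_part.comp ((Computable.ofNat Code).comp (Computable.fst.comp Computable.snd))
      (Computable.encode.comp ?_)
    exact Computable.pair Computable.fst (Computable.snd.comp Computable.snd)
  exact Sig1.of_re h1.dom_re

theorem U_universal {B : Set ℕ} {W : List Bool → Prop} (hW : CE B W) :
    ∃ e, ∀ τ, W τ ↔ U B e τ := by
  obtain ⟨V, h1, -, h3⟩ := hW
  obtain ⟨c, hc⟩ := Code.exists_code.1 h1.re
  refine ⟨encode c, fun τ => ?_⟩
  rw [h3]
  refine exists_congr fun s => ?_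
  rw [ofNat_encode, hc]
  simp only [Encodable.encodek, Part.coe_some, Part.bind_some]
  simp [Part.dom_iff_mem]

/-- `x` codes a pair `(τ, k)` such that `τ` extends `σ` and enters the `e`-th set by stage `k` -/
structure Stage (B : Set ℕ) where
  R : List Bool × (ℕ × List Bool) × ℕ → Bool
  comp : Computable R
  spec : ∀ x : ℕ × List Bool, U B x.1 x.2 ↔ ∃ k, R (pre B k, x, k) = true

noncomputable def stage (B : Set ℕ) : Stage B :=
  have h := ce_bounded (ce_U B)
  ⟨h.choose, h.choose_spec.1, h.choose_spec.2⟩

def P (B : Set ℕ) (e : ℕ) (σ : List Bool) (x : List Bool × ℕ) : Prop :=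
  σ <+: x.1 ∧ (stage B).R (pre B x.2, (e, x.1), x.2) = true

theorem dec_of_pre {A : Set ℕ} {Q : List Bool × α → Bool} (hQ : Computable Q)
    {f : α → ℕ} (hf : Computable f) : Dec A fun a => Q (pre A (f a), a) = true := by
  have h1 : ∀ (Q : List Bool × α → Bool), Computable Q → CE A fun a => Q (pre A (f a), a) = true := by
    intro Q hQ
    refine CE.mk' (W := fun σ a => decide (f a ≤ σ.length) = true ∧ Q (σ.take (f a), a) = true) ?_ ?_
    · refine Sig1.and (Sig1.of_computable ?_) (Sig1.of_computable ?_)
      · exact (Primrec.nat_le.decide.to_comp).comp (hf.comp Computable.snd)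
          (Computable.list_length.comp Computable.fst)
      · exact hQ.comp (Computable.pair (computable_take.comp Computable.fst
          (hf.comp Computable.snd)) Computable.snd)
    · intro a
      simp only [decide_eq_true_eq, pre_length]
      constructor
      · intro h
        exact ⟨f a, le_rfl, by rw [pre_take A _ _ le_rfl]; exact h⟩
      · rintro ⟨s, hs, h⟩
        rw [pre_take A _ _ hs] at h
        exact h
  refine ⟨h1 Q hQ, (h1 (fun x => !(Q x)) (Primrec.not.to_comp.comp hQ)).of_eq fun a => ?_⟩
  simp

theorem dec_P (B : Set ℕ) : Dec B fun y : (ℕ × List Bool) × (List Bool × ℕ) =>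
    P B y.1.1 y.1.2 y.2 := by
  refine Dec.and (Dec.of_eq (p := fun y : (ℕ × List Bool) × (List Bool × ℕ) =>
    decide (y.1.2 <+: y.2.1) = true) (Dec.of_computable ?_) fun y => by simp) ?_
  · exact Computable.comp (f := fun x : List Bool × List Bool => decide (x.1 <+: x.2))
      (g := fun y : (ℕ × List Bool) × (List Bool × ℕ) => (y.1.2, y.2.1)) computable_isPrefix
      (Computable.pair (Computable.snd.comp Computable.fst) (Computable.fst.comp Computable.snd))
  · refine dec_of_pre (Q := fun z : List Bool × ((ℕ × List Bool) × (List Bool × ℕ)) =>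
      (stage B).R (z.1, (z.2.1.1, z.2.2.1), z.2.2.2)) ?_ (f := fun y => y.2.2)
      (Computable.snd.comp Computable.snd)
    exact Computable.comp (f := (stage B).R)
      (g := fun z : List Bool × ((ℕ × List Bool) × (List Bool × ℕ)) =>
        (z.1, (z.2.1.1, z.2.2.1), z.2.2.2)) (stage B).comp
      (Computable.pair Computable.fst (Computable.pair (Computable.pair
        (Computable.fst.comp (Computable.fst.comp Computable.snd))
        (Computable.fst.comp (Computable.snd.comp Computable.snd)))
        (Computable.snd.comp (Computable.snd.comp Computable.snd))))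

/-- the coded version of `P` -/
def PN (B : Set ℕ) (e : ℕ) (σ : List Bool) (n : ℕ) : Prop :=
  ∃ x, decode (α := List Bool × ℕ) n = some x ∧ P B e σ x

theorem dec_PN (B : Set ℕ) : Dec B fun y : (ℕ × List Bool) × ℕ => PN B y.1.1 y.1.2 y.2 := by
  constructor
  · refine CE.ex (p := fun (y : (ℕ × List Bool) × ℕ) (x : List Bool × ℕ) =>
      decode (α := List Bool × ℕ) y.2 = some x ∧ P B y.1.1 y.1.2 x) ?_
    refine CE.and ?_ ?_
    · refine (CE.of_sig1 (Sig1.of_computable (f := fun z : ((ℕ × List Bool) × ℕ) ×
        (List Bool × ℕ) => decide (decode (α := List Bool × ℕ) z.1.2 = some z.2)) ?_)).of_eq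
        fun z => by simp
      exact ((Primrec.eq (α := Option (List Bool × ℕ))).decide.to_comp).comp
        (Computable.decode.comp (Computable.snd.comp Computable.fst))
        (Computable.option_some.comp Computable.snd)
    · exact (dec_P B).1.comp (f := fun z : ((ℕ × List Bool) × ℕ) × (List Bool × ℕ) => (z.1.1, z.2))
        (Computable.pair (Computable.fst.comp Computable.fst) Computable.snd)
  · have h1 : CE B fun y : (ℕ × List Bool) × ℕ =>
        decide (decode (α := List Bool × ℕ) y.2 = none) = true ∨
        ∃ x, decode (α := List Bool × ℕ) y.2 = some x ∧ ¬ P B y.1.1 y.1.2 x := by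
      refine CE.or (CE.of_sig1 (Sig1.of_computable ?_)) ?_
      · exact ((Primrec.eq (α := Option (List Bool × ℕ))).decide.to_comp).comp
          (Computable.decode.comp Computable.snd) (Computable.const none)
      · refine CE.ex (p := fun (y : (ℕ × List Bool) × ℕ) (x : List Bool × ℕ) =>
          decode (α := List Bool × ℕ) y.2 = some x ∧ ¬ P B y.1.1 y.1.2 x) ?_
        refine CE.and ?_ ?_
        · refine (CE.of_sig1 (Sig1.of_computable (f := fun z : ((ℕ × List Bool) × ℕ) ×
            (List Bool × ℕ) => decide (decode (α := List Bool × ℕ) z.1.2 = some z.2)) ?_)).of_eq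
            fun z => by simp
          exact ((Primrec.eq (α := Option (List Bool × ℕ))).decide.to_comp).comp
            (Computable.decode.comp (Computable.snd.comp Computable.fst))
            (Computable.option_some.comp Computable.snd)
        · exact (dec_P B).2.comp (f := fun z : ((ℕ × List Bool) × ℕ) × (List Bool × ℕ) => (z.1.1, z.2))
            (Computable.pair (Computable.fst.comp Computable.fst) Computable.snd)
    refine h1.of_eq fun y => ?_
    simp only [PN, decide_eq_true_eq]
    rcases hd : decode (α := List Bool × ℕ) y.2 with _ | x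
    · simp
    · simp

open Classical in
/-- next string in the construction of a generic -/
noncomputable def next (B : Set ℕ) (e : ℕ) (σ : List Bool) : List Bool :=
  if h : ∃ n, PN B e σ n then
    (((decode (α := List Bool × ℕ) (Nat.find h)).map fun x => x.1).getD []) ++ [false]
  else σ ++ [false]

theorem next_of_ex {B : Set ℕ} {e : ℕ} {σ : List Bool} (h : ∃ n, PN B e σ n) :
    ∃ τ, σ <+: τ ∧ U B e τ ∧ next B e σ = τ ++ [false] := by
  classical
  obtain ⟨x, hx, hP⟩ := Nat.find_spec h
  refine ⟨x.1, hP.1, ((stage B).spec (e, x.1)).2 ⟨x.2, hP.2⟩, ?_⟩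
  rw [next, dif_pos h, hx]
  rfl

theorem next_of_not {B : Set ℕ} {e : ℕ} {σ : List Bool} (h : ¬ ∃ n, PN B e σ n) :
    next B e σ = σ ++ [false] ∧ ∀ τ, σ <+: τ → ¬ U B e τ := by
  constructor
  · rw [next, dif_neg h]
  · intro τ h1 h2
    apply h
    obtain ⟨k, hk⟩ := ((stage B).spec (e, τ)).1 h2
    exact ⟨encode (τ, k), (τ, k), by simp, h1, hk⟩

theorem next_prefix (B : Set ℕ) (e : ℕ) (σ : List Bool) : σ <+: next B e σ := by
  by_cases h : ∃ n, PN B e σ n
  · obtain ⟨τ, h1, -, h3⟩ := next_of_ex h
    rw [h3]; exact h1.trans (List.prefix_append _ _)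
  · rw [(next_of_not h).1]; exact List.prefix_append _ _

theorem next_length (B : Set ℕ) (e : ℕ) (σ : List Bool) : σ.length < (next B e σ).length := by
  by_cases h : ∃ n, PN B e σ n
  · obtain ⟨τ, h1, -, h3⟩ := next_of_ex h
    rw [h3, List.length_append]
    have := h1.length_le
    simp only [List.length_singleton]
    omega
  · rw [(next_of_not h).1]; simp

theorem ce_next (B : Set ℕ) : CE (J B) fun y : (ℕ × List Bool) × List Bool =>
    y.2 = next B y.1.1 y.1.2 := by
  have hex : Dec (J B) fun y : ℕ × List Bool => ∃ n, PN B y.1 y.2 n := by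
    refine CE.dec_J ?_
    exact CE.ex (p := fun (y : ℕ × List Bool) n => PN B y.1 y.2 n) (dec_PN B).1
  have hPN : Dec (J B) fun y : (ℕ × List Bool) × ℕ => PN B y.1.1 y.1.2 y.2 :=
    (dec_PN B).trans (red_J B)
  have h1 : CE (J B) fun y : (ℕ × List Bool) × List Bool =>
      (∃ n, PN B y.1.1 y.1.2 n ∧ (∀ m < n, ¬ PN B y.1.1 y.1.2 m) ∧
        decide (y.2 = (((decode (α := List Bool × ℕ) n).map fun x => x.1).getD []) ++ [false]) = true) ∨
      ((¬ ∃ n, PN B y.1.1 y.1.2 n) ∧ decide (y.2 = y.1.2 ++ [false]) = true) := by
    refine CE.or ?_ (CE.and ?_ ?_)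
    · refine CE.ex (p := fun (y : (ℕ × List Bool) × List Bool) (n : ℕ) =>
        PN B y.1.1 y.1.2 n ∧ (∀ m < n, ¬ PN B y.1.1 y.1.2 m) ∧
        decide (y.2 = (((decode (α := List Bool × ℕ) n).map fun x => x.1).getD []) ++ [false]) =
          true) ?_
      refine CE.and ?_ (CE.and ?_ ?_)
      · exact hPN.1.comp (f := fun z : ((ℕ × List Bool) × List Bool) × ℕ => (z.1.1, z.2))
          (Computable.pair (Computable.fst.comp Computable.fst) Computable.snd)
      · refine CE.ball (p := fun (z : ((ℕ × List Bool) × List Bool) × ℕ) m =>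
          ¬ PN B z.1.1.1 z.1.1.2 m) ?_ Computable.snd
        exact hPN.2.comp (f := fun w : (((ℕ × List Bool) × List Bool) × ℕ) × ℕ =>
          (w.1.1.1, w.2)) (Computable.pair (Computable.fst.comp (Computable.fst.comp
            Computable.fst)) Computable.snd)
      · refine CE.of_sig1 (Sig1.of_computable ?_)
        refine Computable.comp (f := fun x : List Bool × List Bool => decide (x.1 = x.2))
          (g := fun z : ((ℕ × List Bool) × List Bool) × ℕ => (z.1.2,
            (((decode (α := List Bool × ℕ) z.2).map fun x => x.1).getD []) ++ [false]))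
          ((Primrec.eq (α := List Bool)).decide.to_comp) (Computable.pair
            (Computable.snd.comp Computable.fst) ?_)
        refine Computable.list_append.comp (Computable.option_getD ?_ (Computable.const []))
          (Computable.const [false])
        exact Computable.option_map (Computable.decode.comp Computable.snd)
          (Computable.fst.comp Computable.snd).to₂
    · exact hex.2.comp (f := fun z : (ℕ × List Bool) × List Bool => z.1) Computable.fst
    · refine CE.of_sig1 (Sig1.of_computable ?_)
      refine Computable.comp (f := fun x : List Bool × List Bool => decide (x.1 = x.2))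
          (g := fun z : (ℕ × List Bool) × List Bool => (z.2, z.1.2 ++ [false]))
          ((Primrec.eq (α := List Bool)).decide.to_comp) (Computable.pair Computable.snd ?_)
      exact Computable.list_append.comp (Computable.snd.comp Computable.fst)
          (Computable.const [false])
  refine h1.of_eq fun y => ?_
  classical
  simp only [decide_eq_true_eq]
  by_cases h : ∃ n, PN B y.1.1 y.1.2 n
  · rw [next, dif_pos h]
    constructor
    · rintro (⟨n, hn1, hn2, hn3⟩ | ⟨h', -⟩)
      · have : Nat.find h = n := by
          rw [Nat.find_eq_iff]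
          exact ⟨hn1, fun m hm => hn2 m hm⟩
        rw [this]; exact hn3
      · exact absurd h h'
    · intro hy
      exact Or.inl ⟨Nat.find h, Nat.find_spec h, fun m hm => Nat.find_min h hm, hy⟩
  · rw [next, dif_neg h]
    constructor
    · rintro (⟨n, hn1, -⟩ | ⟨-, h'⟩)
      · exact absurd ⟨n, hn1⟩ h
      · exact h'
    · intro hy
      exact Or.inr ⟨h, hy⟩

noncomputable def sq (B : Set ℕ) : ℕ → List Bool
  | 0 => []
  | n + 1 => next B n (sq B n)

theorem sq_prefix (B : Set ℕ) {m n : ℕ} (h : m ≤ n) : sq B m <+: sq B n := by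
  induction h with
  | refl => exact List.prefix_rfl
  | step _ ih => exact ih.trans (next_prefix _ _ _)

theorem sq_length (B : Set ℕ) (n : ℕ) : n ≤ (sq B n).length := by
  induction n with
  | zero => exact Nat.zero_le _
  | succ n ih => exact lt_of_le_of_lt ih (next_length _ _ _)

/-- the generic set -/
def G (B : Set ℕ) : Set ℕ := {n | (sq B (n + 1)).getD n false = true}

theorem getD_of_prefix {σ τ : List Bool} (h : σ <+: τ) {n : ℕ} (hn : n < σ.length) :
    τ.getD n false = σ.getD n false := by
  obtain ⟨ρ, rfl⟩ := h
  rw [List.getD_append _ _ _ _ hn]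

theorem sq_eq_pre (B : Set ℕ) (n : ℕ) : sq B n = pre (G B) (sq B n).length := by
  classical
  apply List.ext_getElem?
  intro i
  by_cases hi : i < (sq B n).length
  · rw [pre_getElem? _ _ _ hi, List.getElem?_eq_getElem hi]
    congr 1
    have h1 : (sq B (i + 1)).getD i false = (sq B n).getD i false := by
      have hi' : i < (sq B (i+1)).length := lt_of_lt_of_le (Nat.lt_succ_self i) (sq_length B (i+1))
      rcases le_total (i + 1) n with h | h
      · exact (getD_of_prefix (sq_prefix B h) hi').symm
      · exact getD_of_prefix (sq_prefix B h) hi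
    have h2 : (sq B n).getD i false = (sq B n)[i] := by
      rw [List.getD_eq_getElem _ _ hi]
    rw [← h2, ← h1]
    by_cases hh : (sq B (i + 1)).getD i false = true
    · rw [hh]; exact (decide_eq_true (show i ∈ G B from hh)).symm
    · have : i ∉ G B := hh
      rw [decide_eq_false this]
      simpa using hh
  · rw [pre_getElem?_none _ _ _ (not_lt.1 hi), List.getElem?_eq_none (not_lt.1 hi)]

theorem generic_G (B : Set ℕ) : Generic (G B) B := by
  intro W hW
  obtain ⟨e, he⟩ := U_universal hW
  by_cases h : ∃ n, PN B e (sq B e) n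
  · obtain ⟨τ, h1, h2, h3⟩ := next_of_ex h
    refine ⟨τ.length, Or.inl ?_⟩
    have h4 : τ <+: pre (G B) (sq B (e+1)).length := by
      rw [← sq_eq_pre B (e + 1)]
      show τ <+: next B e (sq B e)
      rw [h3]; exact List.prefix_append _ _
    rw [← eq_pre_of_le h4]
    exact (he τ).2 h2
  · refine ⟨(sq B e).length, Or.inr ?_⟩
    intro τ hτ
    rw [← sq_eq_pre B e] at hτ
    rw [he]
    exact (next_of_not h).2 τ hτ

theorem ce_sq (B : Set ℕ) : CE (J B) fun y : ℕ × List Bool => y.2 = sq B y.1 := by
  have h1 : CE (J B) fun y : ℕ × List Bool => ∃ l : List (List Bool),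
      (decide (l.getD 0 [] = []) = true ∧ decide (l.getD y.1 [] = y.2) = true) ∧
      ∀ i < y.1, l.getD (i + 1) [] = next B i (l.getD i []) := by
    refine CE.ex (p := fun (y : ℕ × List Bool) (l : List (List Bool)) =>
      (decide (l.getD 0 [] = []) = true ∧ decide (l.getD y.1 [] = y.2) = true) ∧
      ∀ i < y.1, l.getD (i + 1) [] = next B i (l.getD i [])) ?_
    refine CE.and (CE.and ?_ ?_) ?_
    · refine CE.of_sig1 (Sig1.of_computable ?_)
      refine Computable.comp (f := fun x : List Bool × List Bool => decide (x.1 = x.2))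
        (g := fun z : (ℕ × List Bool) × List (List Bool) => (z.2.getD 0 [], []))
        ((Primrec.eq (α := List Bool)).decide.to_comp) (Computable.pair ?_ (Computable.const []))
      exact (Primrec.list_getD []).to_comp.comp Computable.snd (Computable.const 0)
    · refine CE.of_sig1 (Sig1.of_computable ?_)
      refine Computable.comp (f := fun x : List Bool × List Bool => decide (x.1 = x.2))
        (g := fun z : (ℕ × List Bool) × List (List Bool) => (z.2.getD z.1.1 [], z.1.2))
        ((Primrec.eq (α := List Bool)).decide.to_comp) (Computable.pair ?_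
          (Computable.snd.comp Computable.fst))
      exact (Primrec.list_getD []).to_comp.comp Computable.snd
        (Computable.fst.comp Computable.fst)
    · refine CE.ball (p := fun (z : (ℕ × List Bool) × List (List Bool)) i =>
        z.2.getD (i + 1) [] = next B i (z.2.getD i [])) ?_ (Computable.fst.comp Computable.fst)
      refine (ce_next B).comp (f := fun w : ((ℕ × List Bool) × List (List Bool)) × ℕ =>
        ((w.2, w.1.2.getD w.2 []), w.1.2.getD (w.2 + 1) [])) ?_
      refine Computable.pair (Computable.pair Computable.snd ?_) ?_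
      · exact (Primrec.list_getD []).to_comp.comp (Computable.snd.comp Computable.fst)
          Computable.snd
      · exact (Primrec.list_getD []).to_comp.comp (Computable.snd.comp Computable.fst)
          (Computable.succ.comp Computable.snd)
  refine h1.of_eq fun y => ?_
  simp only [decide_eq_true_eq]
  constructor
  · rintro ⟨l, ⟨h0, hn⟩, hs⟩
    rw [← hn]
    have : ∀ i ≤ y.1, l.getD i [] = sq B i := by
      intro i
      induction i with
      | zero => intro _; rw [h0]; rfl
      | succ i ih =>
        intro hi
        rw [hs i hi, ih (Nat.le_of_succ_le hi)]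
        rfl
    exact this _ le_rfl
  · intro h
    refine ⟨(List.range (y.1 + 1)).map (sq B), ⟨?_, ?_⟩, ?_⟩
    · rw [List.getD_eq_getElem?_getD, List.getElem?_map, List.getElem?_range (by omega)]
      rfl
    · rw [List.getD_eq_getElem?_getD, List.getElem?_map, List.getElem?_range (by omega)]
      exact h.symm
    · intro i hi
      rw [List.getD_eq_getElem?_getD, List.getElem?_map, List.getElem?_range (by omega),
        List.getD_eq_getElem?_getD, List.getElem?_map, List.getElem?_range (by omega)]
      rfl

theorem red_G (B : Set ℕ) : Red (G B) (J B) := by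
  have key : ∀ b : Bool, CE (J B) fun n : ℕ => ∃ σ : List Bool, σ = sq B (n + 1) ∧
      decide (σ.getD n false = b) = true := by
    intro b
    refine CE.ex (p := fun (n : ℕ) (σ : List Bool) => σ = sq B (n + 1) ∧
      decide (σ.getD n false = b) = true) (CE.and ?_ ?_)
    · exact (ce_sq B).comp (f := fun z : ℕ × List Bool => (z.1 + 1, z.2))
        (Computable.pair (Computable.succ.comp Computable.fst) Computable.snd)
    · refine CE.of_sig1 (Sig1.of_computable ?_)
      refine Computable.comp (f := fun x : Bool × Bool => decide (x.1 = x.2))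
        (g := fun z : ℕ × List Bool => (z.2.getD z.1 false, b))
        ((Primrec.eq (α := Bool)).decide.to_comp) (Computable.pair ?_ (Computable.const b))
      exact (Primrec.list_getD false).to_comp.comp Computable.snd Computable.fst
  constructor
  · refine (key true).of_eq fun n => ?_
    simp only [exists_eq_left, decide_eq_true_eq]
    rfl
  · refine (key false).of_eq fun n => ?_
    simp only [exists_eq_left, decide_eq_true_eq]
    show _ ↔ ¬ ((sq B (n + 1)).getD n false = true)
    simp

/-- generics are infinite -/
theorem Generic.infinite {D B : Set ℕ} (h : Generic D B) (N : ℕ) : ∃ n ≥ N, n ∈ D := by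
  classical
  have hW : CE B fun σ : List Bool => ∃ n, decide (N ≤ n) = true ∧ σ.getD n false = true := by
    refine CE.ex (p := fun (σ : List Bool) n => decide (N ≤ n) = true ∧ σ.getD n false = true) ?_
    refine CE.and (CE.of_sig1 (Sig1.of_computable ?_)) (CE.of_sig1 (Sig1.of_computable ?_))
    · exact (Primrec.nat_le.decide.to_comp).comp (Computable.const N) Computable.snd
    · exact (Primrec.list_getD false).to_comp.comp Computable.fst Computable.snd
  obtain ⟨s, hs | hs⟩ := h _ hW
  · obtain ⟨n, h1, h2⟩ := hs
    rw [decide_eq_true_eq] at h1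
    refine ⟨n, h1, ?_⟩
    rw [List.getD_eq_getElem?_getD] at h2
    by_cases hn : n < s
    · rw [pre_getElem? _ _ _ hn] at h2
      simpa using h2
    · rw [pre_getElem?_none _ _ _ (not_lt.1 hn)] at h2
      simp at h2
  · exfalso
    refine hs (pre D s ++ List.replicate (N + 1) true) (List.prefix_append _ _) ?_
    refine ⟨s + N, by rw [decide_eq_true_eq]; omega, ?_⟩
    rw [List.getD_eq_getElem?_getD, List.getElem?_append_right (by simp)]
    simp

/-- generics relative to `B` are not c.e. in `B` -/
theorem Generic.not_ce {D B : Set ℕ} (h : Generic D B) : ¬ CE B fun n => n ∈ D := by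
  classical
  intro hD
  have hW : CE B fun σ : List Bool => ∃ n, σ.getD n true = false ∧ n ∈ D := by
    refine CE.ex (p := fun (σ : List Bool) n => σ.getD n true = false ∧ n ∈ D) ?_
    refine CE.and ?_ (hD.comp Computable.snd)
    refine (CE.of_sig1 (Sig1.of_computable (f := fun z : List Bool × ℕ =>
      !(z.1.getD z.2 true)) ?_)).of_eq fun z => by simp
    exact Primrec.not.to_comp.comp ((Primrec.list_getD true).to_comp.comp Computable.fst
      Computable.snd)
  obtain ⟨s, hs | hs⟩ := h _ hW
  · obtain ⟨n, h1, h2⟩ := hs
    rw [List.getD_eq_getElem?_getD] at h1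
    by_cases hn : n < s
    · rw [pre_getElem? _ _ _ hn] at h1
      simp only [Option.getD_some, decide_eq_false_iff_not] at h1
      exact h1 h2
    · rw [pre_getElem?_none _ _ _ (not_lt.1 hn)] at h1
      simp at h1
  · obtain ⟨n, hn, hnD⟩ := h.infinite s
    refine hs (pre D s ++ List.replicate (n - s + 1) false) (List.prefix_append _ _) ?_
    refine ⟨n, ?_, hnD⟩
    rw [List.getD_eq_getElem?_getD, List.getElem?_append_right (by simpa using hn)]
    simp only [pre_length]
    rw [List.getElem?_replicate]
    simp

/-- iterated jump -/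
def JJ : ℕ → Set ℕ → Set ℕ
  | 0, A => A
  | n + 1, A => J (JJ n A)

theorem isIterJump_JJ (n : ℕ) (A : Set ℕ) : IsIterJump n A (JJ n A) := by
  induction n with
  | zero => rfl
  | succ n ih => exact ⟨JJ n A, ih, isJump_J _⟩

theorem JJ_mono {A B : Set ℕ} (h : Red A B) (n : ℕ) : Red (JJ n A) (JJ n B) := by
  induction n with
  | zero => exact h
  | succ n ih => exact J_mono ih

theorem red_JJ_of_le (A : Set ℕ) {m n : ℕ} (h : m ≤ n) : Red (JJ m A) (JJ n A) := by
  induction h with
  | refl => exact Red.refl _
  | step _ ih => exact ih.trans (red_J _)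

theorem red_empty (A : Set ℕ) : Red ∅ A := by
  have h : Dec A fun n : ℕ => (fun _ => false) n = true := Dec.of_computable (Computable.const false)
  exact h.of_eq fun n => by simp

/-- There is a low₄ set which is infinite and not `Σ₄`. -/
theorem exists_low4 : ∃ D : Set ℕ, LowFour D ∧ (∀ N, ∃ n ≥ N, n ∈ D) ∧
    ¬ CE (JJ 3 ∅) fun n => n ∈ D := by
  let D := G (JJ 3 ∅)
  have hG : Generic D (JJ 3 ∅) := generic_G _
  have hD : Red D (JJ 4 ∅) := red_G _
  have hi : ∀ i ≤ 3, Red (J (join D (JJ i ∅))) (join D (JJ (i+1) ∅)) := fun i hi =>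
    jump_join (hG.mono (red_JJ_of_le ∅ hi))
  have key : ∀ i ≤ 4, Red (JJ i D) (join D (JJ i ∅)) := by
    intro i
    induction i with
    | zero => intro _; exact red_join_left _ _
    | succ i ih =>
      intro h
      have h1 := ih (by omega)
      exact (J_mono h1).trans (hi i (by omega))
  have h4 : Red (JJ 4 D) (JJ 4 ∅) := (key 4 le_rfl).trans (join_red hD (Red.refl _))
  refine ⟨D, ⟨JJ 4 D, JJ 4 ∅, isIterJump_JJ 4 D, isIterJump_JJ 4 ∅, ?_⟩, hG.infinite, hG.not_ce⟩
  exact ⟨turingReducible_of_red h4, turingReducible_of_red (JJ_mono (red_empty D) 4)⟩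

end Low4
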