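import Pool.Agent.Hhelper75.Low4.Star
import Pool.Agent.Hhelper75.Low4.Gen

namespace Low4

open Metric Set

section basic

theorem primrec_pow : Primrec₂ fun a b : ℕ => a ^ b := Primrec₂.unpaired'.1 Nat.Primrec.pow

/-- numerical test used for strict upper bounds -/
def ltTest (w : (ℕ × ℕ) × ((ℕ × ℕ) × ℕ)) : Bool :=
  decide (w.1.1 * w.2.1.2 * 2 ^ w.2.2 + (w.1.2 + 1) * w.2.1.2 < w.2.1.1 * (w.1.2 + 1) * 2 ^ w.2.2)

/-- numerical test used for strict lower bounds -/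
def gtTest (w : (ℕ × ℕ) × ((ℕ × ℕ) × ℕ)) : Bool :=
  decide (w.2.1.1 * (w.1.2 + 1) * 2 ^ w.2.2 + (w.1.2 + 1) * w.2.1.2 < w.1.1 * w.2.1.2 * 2 ^ w.2.2)

theorem primrec_ltTest : Primrec ltTest := by
  have num : Primrec fun w : (ℕ × ℕ) × ((ℕ × ℕ) × ℕ) => w.1.1 := Primrec.fst.comp Primrec.fst
  have den : Primrec fun w : (ℕ × ℕ) × ((ℕ × ℕ) × ℕ) => w.1.2 + 1 :=
    Primrec.succ.comp (Primrec.snd.comp Primrec.fst)
  have p : Primrec fun w : (ℕ × ℕ) × ((ℕ × ℕ) × ℕ) => w.2.1.1 :=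
    Primrec.fst.comp (Primrec.fst.comp Primrec.snd)
  have q : Primrec fun w : (ℕ × ℕ) × ((ℕ × ℕ) × ℕ) => w.2.1.2 :=
    Primrec.snd.comp (Primrec.fst.comp Primrec.snd)
  have pw : Primrec fun w : (ℕ × ℕ) × ((ℕ × ℕ) × ℕ) => 2 ^ w.2.2 :=
    primrec_pow.comp (Primrec.const 2) (Primrec.snd.comp Primrec.snd)
  exact (Primrec.nat_lt.comp (Primrec.nat_add.comp (Primrec.nat_mul.comp
    (Primrec.nat_mul.comp num q) pw) (Primrec.nat_mul.comp den q))
    (Primrec.nat_mul.comp (Primrec.nat_mul.comp p den) pw)).decide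

theorem primrec_gtTest : Primrec gtTest := by
  have num : Primrec fun w : (ℕ × ℕ) × ((ℕ × ℕ) × ℕ) => w.1.1 := Primrec.fst.comp Primrec.fst
  have den : Primrec fun w : (ℕ × ℕ) × ((ℕ × ℕ) × ℕ) => w.1.2 + 1 :=
    Primrec.succ.comp (Primrec.snd.comp Primrec.fst)
  have p : Primrec fun w : (ℕ × ℕ) × ((ℕ × ℕ) × ℕ) => w.2.1.1 :=
    Primrec.fst.comp (Primrec.fst.comp Primrec.snd)
  have q : Primrec fun w : (ℕ × ℕ) × ((ℕ × ℕ) × ℕ) => w.2.1.2 :=
    Primrec.snd.comp (Primrec.fst.comp Primrec.snd)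
  have pw : Primrec fun w : (ℕ × ℕ) × ((ℕ × ℕ) × ℕ) => 2 ^ w.2.2 :=
    primrec_pow.comp (Primrec.const 2) (Primrec.snd.comp Primrec.snd)
  exact (Primrec.nat_lt.comp (Primrec.nat_add.comp
    (Primrec.nat_mul.comp (Primrec.nat_mul.comp p den) pw) (Primrec.nat_mul.comp den q))
    (Primrec.nat_mul.comp (Primrec.nat_mul.comp num q) pw)).decide

theorem eventually_pow_small {δ : ℝ} (hδ : 0 < δ) :
    ∃ n : ℕ, (1 : ℝ) / 2 ^ n < δ := by
  obtain ⟨n, hn⟩ := exists_pow_lt_of_lt_one hδ (by norm_num : (1 / 2 : ℝ) < 1)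
  exact ⟨n, by rwa [div_pow, one_pow] at hn⟩

theorem lt_iff_test {δ : ℝ} (a : ℕ → ℕ × ℕ)
    (h : ∀ n, |δ - ((a n).1 : ℝ) / ((a n).2 + 1)| ≤ 1 / 2 ^ n) (p q : ℕ) :
    δ * q < p ↔ ∃ n, ltTest (a n, ((p, q), n)) = true := by
  have hq : (0 : ℝ) ≤ q := Nat.cast_nonneg q
  have key : ∀ n, ltTest (a n, ((p, q), n)) = true ↔
      (((a n).1 : ℝ) / ((a n).2 + 1) + 1 / 2 ^ n) * q < p := by
    intro n
    have hd : (0 : ℝ) < (a n).2 + 1 := by positivity
    have h2 : (0 : ℝ) < 2 ^ n := by positivity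
    simp only [ltTest, decide_eq_true_eq]
    rw [← Nat.cast_lt (α := ℝ)]
    push_cast
    have : (((a n).1 : ℝ) / ((a n).2 + 1) + 1 / 2 ^ n) * q =
        ((a n).1 * q * 2 ^ n + ((a n).2 + 1) * q) / (((a n).2 + 1) * 2 ^ n) := by
      field_simp
    rw [this, div_lt_iff₀ (by positivity), mul_assoc (p : ℝ)]
  constructor
  · intro hlt
    obtain ⟨n, hn⟩ := eventually_pow_small (δ := (p - δ * q) / (2 * (q + 1)))
      (div_pos (by linarith) (by positivity))
    refine ⟨n, (key n).2 ?_⟩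
    have h1 := (abs_le.1 (h n)).1
    have h3 : ((a n).1 : ℝ) / ((a n).2 + 1) + 1 / 2 ^ n ≤ δ + 2 * (1 / 2 ^ n) := by linarith
    have h4 : (((a n).1 : ℝ) / ((a n).2 + 1) + 1 / 2 ^ n) * q ≤ (δ + 2 * (1 / 2 ^ n)) * q :=
      mul_le_mul_of_nonneg_right h3 hq
    have h5 : (1 / 2 ^ n : ℝ) * (2 * (q + 1)) < p - δ * q := by
      rwa [lt_div_iff₀ (by positivity)] at hn
    have h6 : (0 : ℝ) < 1 / 2 ^ n := by positivity
    nlinarith
  · rintro ⟨n, hn⟩
    have h0 := (key n).1 hn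
    have h1 := (abs_le.1 (h n)).2
    have h3 : δ ≤ ((a n).1 : ℝ) / ((a n).2 + 1) + 1 / 2 ^ n := by linarith
    exact lt_of_le_of_lt (mul_le_mul_of_nonneg_right h3 hq) h0

theorem gt_iff_test {δ : ℝ} (a : ℕ → ℕ × ℕ)
    (h : ∀ n, |δ - ((a n).1 : ℝ) / ((a n).2 + 1)| ≤ 1 / 2 ^ n) (p q : ℕ) :
    p < δ * q ↔ ∃ n, gtTest (a n, ((p, q), n)) = true := by
  have hq : (0 : ℝ) ≤ q := Nat.cast_nonneg q
  have key : ∀ n, gtTest (a n, ((p, q), n)) = true ↔
      p < (((a n).1 : ℝ) / ((a n).2 + 1) - 1 / 2 ^ n) * q := by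
    intro n
    have hd : (0 : ℝ) < (a n).2 + 1 := by positivity
    have h2 : (0 : ℝ) < 2 ^ n := by positivity
    simp only [gtTest, decide_eq_true_eq]
    rw [← Nat.cast_lt (α := ℝ)]
    push_cast
    have : (((a n).1 : ℝ) / ((a n).2 + 1) - 1 / 2 ^ n) * q =
        ((a n).1 * q * 2 ^ n - ((a n).2 + 1) * q) / (((a n).2 + 1) * 2 ^ n) := by
      field_simp
    rw [this, lt_div_iff₀ (by positivity), lt_sub_iff_add_lt, mul_assoc (p : ℝ)]
  constructor
  · intro hlt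
    obtain ⟨n, hn⟩ := eventually_pow_small (δ := (δ * q - p) / (2 * (q + 1)))
      (div_pos (by linarith) (by positivity))
    refine ⟨n, (key n).2 ?_⟩
    have h1 := (abs_le.1 (h n)).2
    have h3 : δ - 2 * (1 / 2 ^ n) ≤ ((a n).1 : ℝ) / ((a n).2 + 1) - 1 / 2 ^ n := by linarith
    have h4 : (δ - 2 * (1 / 2 ^ n)) * q ≤ (((a n).1 : ℝ) / ((a n).2 + 1) - 1 / 2 ^ n) * q :=
      mul_le_mul_of_nonneg_right h3 hq
    have h5 : (1 / 2 ^ n : ℝ) * (2 * (q + 1)) < δ * q - p := by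
      rwa [lt_div_iff₀ (by positivity)] at hn
    have h6 : (0 : ℝ) < 1 / 2 ^ n := by positivity
    nlinarith
  · rintro ⟨n, hn⟩
    have h0 := (key n).1 hn
    have h1 := (abs_le.1 (h n)).1
    have h3 : ((a n).1 : ℝ) / ((a n).2 + 1) - 1 / 2 ^ n ≤ δ := by linarith
    exact lt_of_lt_of_le h0 (mul_le_mul_of_nonneg_right h3 hq)

end basic

/-- reflexive transitive closures of c.e. relations are c.e. -/
theorem sig1_reflTransGen {α : Type} [Primcodable α] {E : α → ℕ → ℕ → Prop}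
    (hE : Sig1 fun x : α × (ℕ × ℕ) => E x.1 x.2.1 x.2.2) :
    Sig1 fun x : α × (ℕ × ℕ) => Relation.ReflTransGen (E x.1) x.2.1 x.2.2 := by
  have h1 : Sig1 fun x : α × (ℕ × ℕ) => ∃ w : ℕ × List ℕ,
      (decide (w.2.getD 0 0 = x.2.1) = true ∧ decide (w.2.getD w.1 0 = x.2.2) = true) ∧
      ∀ t < w.1, E x.1 (w.2.getD t 0) (w.2.getD (t + 1) 0) := by
    refine Sig1.ex (p := fun (x : α × (ℕ × ℕ)) (w : ℕ × List ℕ) =>
      (decide (w.2.getD 0 0 = x.2.1) = true ∧ decide (w.2.getD w.1 0 = x.2.2) = true) ∧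
      ∀ t < w.1, E x.1 (w.2.getD t 0) (w.2.getD (t + 1) 0)) ?_
    refine Sig1.and (Sig1.and ?_ ?_) ?_
    · refine Sig1.of_computable ?_
      refine Computable.comp (f := fun x : ℕ × ℕ => decide (x.1 = x.2))
        (g := fun z : (α × (ℕ × ℕ)) × (ℕ × List ℕ) => (z.2.2.getD 0 0, z.1.2.1))
        ((Primrec.eq (α := ℕ)).decide.to_comp) (Computable.pair ?_
          (Computable.fst.comp (Computable.snd.comp Computable.fst)))
      exact (Primrec.list_getD 0).to_comp.comp (Computable.snd.comp Computable.snd)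
        (Computable.const 0)
    · refine Sig1.of_computable ?_
      refine Computable.comp (f := fun x : ℕ × ℕ => decide (x.1 = x.2))
        (g := fun z : (α × (ℕ × ℕ)) × (ℕ × List ℕ) => (z.2.2.getD z.2.1 0, z.1.2.2))
        ((Primrec.eq (α := ℕ)).decide.to_comp) (Computable.pair ?_
          (Computable.snd.comp (Computable.snd.comp Computable.fst)))
      exact (Primrec.list_getD 0).to_comp.comp (Computable.snd.comp Computable.snd)
        (Computable.fst.comp Computable.snd)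
    · refine Sig1.ball (p := fun (z : (α × (ℕ × ℕ)) × (ℕ × List ℕ)) t =>
        E z.1.1 (z.2.2.getD t 0) (z.2.2.getD (t + 1) 0)) ?_ (Computable.fst.comp Computable.snd)
      refine hE.comp (f := fun y : ((α × (ℕ × ℕ)) × (ℕ × List ℕ)) × ℕ =>
        (y.1.1.1, (y.1.2.2.getD y.2 0, y.1.2.2.getD (y.2 + 1) 0))) ?_
      refine Computable.pair (Computable.fst.comp (Computable.fst.comp Computable.fst))
        (Computable.pair ?_ ?_)
      · exact (Primrec.list_getD 0).to_comp.comp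
          (Computable.snd.comp (Computable.snd.comp Computable.fst)) Computable.snd
      · exact (Primrec.list_getD 0).to_comp.comp
          (Computable.snd.comp (Computable.snd.comp Computable.fst))
          (Computable.succ.comp Computable.snd)
  refine h1.of_eq fun x => ?_
  obtain ⟨e, a, b⟩ := x
  simp only [decide_eq_true_eq]
  constructor
  · rintro ⟨⟨n, l⟩, ⟨h0, hn⟩, hs⟩
    simp only at h0 hn hs
    have : ∀ i ≤ n, Relation.ReflTransGen (E e) a (l.getD i 0) := by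
      intro i
      induction i with
      | zero => intro _; rw [h0]
      | succ i ih => intro hi; exact (ih (by omega)).tail (hs i hi)
    rw [← hn]; exact this n le_rfl
  · intro h
    have h2 : ∃ (n : ℕ) (f : ℕ → ℕ), f 0 = a ∧ f n = b ∧ ∀ t < n, E e (f t) (f (t + 1)) := by
      induction h with
      | refl => exact ⟨0, fun _ => a, rfl, rfl, fun t ht => absurd ht (Nat.not_lt_zero _)⟩
      | @tail b c _ hbc ih =>
        obtain ⟨n, f, h0, hn, hs⟩ := ih
        refine ⟨n + 1, fun t => if t ≤ n then f t else c, by simp [h0], by simp, ?_⟩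
        intro t ht
        rcases Nat.lt_succ_iff_lt_or_eq.1 ht with ht' | ht'
        · simp only [ht'.le, if_true, Nat.succ_le_of_lt ht']
          exact hs t ht'
        · subst ht'
          simp [hn, hbc]
    obtain ⟨n, f, h0, hn, hs⟩ := h2
    refine ⟨(n, (List.range (n + 1)).map f), ⟨?_, ?_⟩, ?_⟩
    · rw [getD_map_range f (n+1) 0 0 (by omega)]; exact h0
    · rw [getD_map_range f (n+1) n 0 (by omega)]; exact hn
    · intro t ht
      simp only at ht ⊢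
      rw [getD_map_range f (n+1) t 0 (by omega), getD_map_range f (n+1) (t+1) 0 (by omega)]
      exact hs t ht

section space

variable {Y : Type} [MetricSpace Y] {s : ℕ → Y} {a : ℕ × ℕ × ℕ → ℕ × ℕ}

theorem sig1_LT (ha : Computable a)
    (h : ∀ i j n : ℕ, |dist (s i) (s j) - ((a (i, j, n)).1 : ℝ) / ((a (i, j, n)).2 + 1)| ≤ 1 / 2 ^ n) :
    Sig1 fun x : (ℕ × ℕ) × (ℕ × ℕ) => dist (s x.1.1) (s x.1.2) * x.2.2 < x.2.1 := by
  refine ⟨fun x n => ltTest (a (x.1.1, x.1.2, n), (x.2, n)), ?_, fun x => ?_⟩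
  · have h1 : Computable fun y : ((ℕ × ℕ) × (ℕ × ℕ)) × ℕ =>
        (a (y.1.1.1, y.1.1.2, y.2), ((y.1.2), y.2)) := by
      refine Computable.pair ?_ (Computable.pair (Computable.snd.comp Computable.fst)
        Computable.snd)
      exact ha.comp (Computable.pair (Computable.fst.comp (Computable.fst.comp Computable.fst))
        (Computable.pair (Computable.snd.comp (Computable.fst.comp Computable.fst))
          Computable.snd))
    exact (primrec_ltTest.to_comp.comp h1).to₂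
  · exact lt_iff_test (fun n => a (x.1.1, x.1.2, n)) (fun n => h x.1.1 x.1.2 n) x.2.1 x.2.2

theorem sig1_GT (ha : Computable a)
    (h : ∀ i j n : ℕ, |dist (s i) (s j) - ((a (i, j, n)).1 : ℝ) / ((a (i, j, n)).2 + 1)| ≤ 1 / 2 ^ n) :
    Sig1 fun x : (ℕ × ℕ) × (ℕ × ℕ) => (x.2.1 : ℝ) < dist (s x.1.1) (s x.1.2) * x.2.2 := by
  refine ⟨fun x n => gtTest (a (x.1.1, x.1.2, n), (x.2, n)), ?_, fun x => ?_⟩
  · have h1 : Computable fun y : ((ℕ × ℕ) × (ℕ × ℕ)) × ℕ =>
        (a (y.1.1.1, y.1.1.2, y.2), ((y.1.2), y.2)) := by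
      refine Computable.pair ?_ (Computable.pair (Computable.snd.comp Computable.fst)
        Computable.snd)
      exact ha.comp (Computable.pair (Computable.fst.comp (Computable.fst.comp Computable.fst))
        (Computable.pair (Computable.snd.comp (Computable.fst.comp Computable.fst))
          Computable.snd))
    exact (primrec_gtTest.to_comp.comp h1).to₂
  · exact gt_iff_test (fun n => a (x.1.1, x.1.2, n)) (fun n => h x.1.1 x.1.2 n) x.2.1 x.2.2

/-- `dist < 1/(N+1)` -/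
theorem sig1_small (ha : Computable a)
    (h : ∀ i j n : ℕ, |dist (s i) (s j) - ((a (i, j, n)).1 : ℝ) / ((a (i, j, n)).2 + 1)| ≤ 1 / 2 ^ n) :
    Sig1 fun x : ℕ × (ℕ × ℕ) => dist (s x.2.1) (s x.2.2) < 1 / ((x.1 : ℝ) + 1) := by
  refine ((sig1_LT ha h).comp (f := fun x : ℕ × (ℕ × ℕ) => (x.2, (1, x.1 + 1))) ?_).of_eq
    fun x => ?_
  · exact Computable.pair Computable.snd (Computable.pair (Computable.const 1)
      (Computable.succ.comp Computable.fst))
  · rw [lt_div_iff₀ (by positivity)]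
    push_cast
    rfl

/-- `m/(N+1) < dist` -/
theorem sig1_big (ha : Computable a)
    (h : ∀ i j n : ℕ, |dist (s i) (s j) - ((a (i, j, n)).1 : ℝ) / ((a (i, j, n)).2 + 1)| ≤ 1 / 2 ^ n)
    (m : ℕ) :
    Sig1 fun x : ℕ × (ℕ × ℕ) => (m : ℝ) / ((x.1 : ℝ) + 1) < dist (s x.2.1) (s x.2.2) := by
  refine ((sig1_GT ha h).comp (f := fun x : ℕ × (ℕ × ℕ) => (x.2, (m, x.1 + 1))) ?_).of_eq
    fun x => ?_
  · exact Computable.pair Computable.snd (Computable.pair (Computable.const m)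
      (Computable.succ.comp Computable.fst))
  · rw [div_lt_iff₀ (by positivity)]
    push_cast
    rfl

/-- membership in `VB`: parameters `((N, L), i)` -/
theorem sig1_VB (ha : Computable a)
    (h : ∀ i j n : ℕ, |dist (s i) (s j) - ((a (i, j, n)).1 : ℝ) / ((a (i, j, n)).2 + 1)| ≤ 1 / 2 ^ n) :
    Sig1 fun x : (ℕ × List ℕ) × ℕ => s x.2 ∈ VB s x.1.1 x.1.2 := by
  have h1 : Sig1 fun x : (ℕ × List ℕ) × ℕ =>
      ∃ i < x.1.2.length, dist (s x.2) (s (x.1.2.getD i 0)) < 1 / ((x.1.1 : ℝ) + 1) := by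
    refine Sig1.bex (p := fun (x : (ℕ × List ℕ) × ℕ) i =>
      dist (s x.2) (s (x.1.2.getD i 0)) < 1 / ((x.1.1 : ℝ) + 1)) ?_
      (Computable.list_length.comp (Computable.snd.comp Computable.fst))
    refine (sig1_small ha h).comp (f := fun y : ((ℕ × List ℕ) × ℕ) × ℕ =>
      (y.1.1.1, (y.1.2, y.1.1.2.getD y.2 0))) ?_
    refine Computable.pair (Computable.fst.comp (Computable.fst.comp Computable.fst))
      (Computable.pair (Computable.snd.comp Computable.fst) ?_)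
    exact (Primrec.list_getD 0).to_comp.comp
      (Computable.snd.comp (Computable.fst.comp Computable.fst)) Computable.snd
  exact h1

/-- `Lk`: parameters `((N, L), k), (i, j)` -/
theorem sig1_Lk (ha : Computable a)
    (h : ∀ i j n : ℕ, |dist (s i) (s j) - ((a (i, j, n)).1 : ℝ) / ((a (i, j, n)).2 + 1)| ≤ 1 / 2 ^ n) :
    Sig1 fun x : ((ℕ × List ℕ) × ℕ) × (ℕ × ℕ) => Lk s x.1.1.1 x.1.1.2 x.1.2 x.2.1 x.2.2 := by
  have hV1 : Sig1 fun x : ((ℕ × List ℕ) × ℕ) × (ℕ × ℕ) => s x.2.1 ∈ VB s x.1.1.1 x.1.1.2 :=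
    (sig1_VB ha h).comp (f := fun x : ((ℕ × List ℕ) × ℕ) × (ℕ × ℕ) => (x.1.1, x.2.1))
      (Computable.pair (Computable.fst.comp Computable.fst) (Computable.fst.comp Computable.snd))
  have hV2 : Sig1 fun x : ((ℕ × List ℕ) × ℕ) × (ℕ × ℕ) => s x.2.2 ∈ VB s x.1.1.1 x.1.1.2 :=
    (sig1_VB ha h).comp (f := fun x : ((ℕ × List ℕ) × ℕ) × (ℕ × ℕ) => (x.1.1, x.2.2))
      (Computable.pair (Computable.fst.comp Computable.fst) (Computable.snd.comp Computable.snd))
  have hd : Sig1 fun x : ((ℕ × List ℕ) × ℕ) × (ℕ × ℕ) =>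
      dist (s x.2.1) (s x.2.2) < 1 / ((x.1.2 : ℝ) + 1) :=
    (sig1_small ha h).comp (f := fun x : ((ℕ × List ℕ) × ℕ) × (ℕ × ℕ) => (x.1.2, x.2))
      (Computable.pair (Computable.snd.comp Computable.fst) Computable.snd)
  have hE : Sig1 fun x : ((ℕ × List ℕ) × ℕ) × (ℕ × ℕ) =>
      Ed s x.1.1.1 x.1.1.2 x.1.2 x.2.1 x.2.2 := hV1.and (hV2.and hd)
  exact hV1.and (sig1_reflTransGen (α := (ℕ × List ℕ) × ℕ)
    (E := fun e a b => Ed s e.1.1 e.1.2 e.2 a b) hE)

end space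

end Low4
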