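import Pool.Agent.Hhelper75.Low4.Sig1
import Pool.Agent.Hhelper75.Low4.Defs

namespace Low4



/-- initial segment of length `s` of the characteristic sequence of `A` -/
noncomputable def pre (A : Set ℕ) (s : ℕ) : List Bool :=
  open Classical in (List.range s).map fun i => decide (i ∈ A)

@[simp] theorem pre_length (A : Set ℕ) (s : ℕ) : (pre A s).length = s := by simp [pre]

theorem pre_getElem? (A : Set ℕ) (s i : ℕ) (h : i < s) :
    (pre A s)[i]? = some (open Classical in decide (i ∈ A)) := by
  simp [pre, h]

theorem pre_getElem?_none (A : Set ℕ) (s i : ℕ) (h : s ≤ i) :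
    (pre A s)[i]? = none := by
  simp [pre, h]

theorem pre_take (A : Set ℕ) (s t : ℕ) (h : t ≤ s) : (pre A s).take t = pre A t := by
  apply List.ext_getElem?
  intro i
  rw [List.getElem?_take]
  split_ifs with hi
  · rw [pre_getElem? A s i (lt_of_lt_of_le hi h), pre_getElem? A t i hi]
  · rw [pre_getElem?_none A t i (not_lt.1 hi)]

theorem pre_le (A : Set ℕ) {s t : ℕ} (h : t ≤ s) : pre A t <+: pre A s := by
  rw [← pre_take A s t h]
  exact List.take_prefix _ _

theorem eq_pre_of_le {A : Set ℕ} {s : ℕ} {σ : List Bool} (h : σ <+: pre A s) :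
    σ = pre A σ.length := by
  have h1 : σ.length ≤ s := by simpa using h.length_le
  rw [← pre_take A s _ h1]
  exact (List.prefix_iff_eq_take.1 h)

/-- a functional representing a function recursive in `A` -/
structure Rep (A : Set ℕ) (f : ℕ →. ℕ) (F : List Bool → ℕ →. ℕ) : Prop where
  part : Partrec₂ F
  mono : ∀ σ τ n m, σ <+: τ → m ∈ F σ n → m ∈ F τ n
  lim : ∀ n m, m ∈ f n ↔ ∃ s, m ∈ F (pre A s) n

theorem rep_of_partrec {A : Set ℕ} {f : ℕ →. ℕ} (hf : Nat.Partrec f) :
    ∃ F, Rep A f F := by
  refine ⟨fun _ n => f n, ?_, fun _ _ _ _ _ h => h, fun n m => ⟨fun h => ⟨0, h⟩, fun ⟨_, h⟩ => h⟩⟩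
  exact (Partrec.nat_iff.2 hf).comp Computable.snd

theorem rep_chi (A : Set ℕ) : ∃ F, Rep A (chi A) F := by
  refine ⟨fun σ n => ((σ[n]?).map (fun b => cond b 1 0) : Option ℕ), ?_, ?_, ?_⟩
  · apply Computable.ofOption
    exact Computable.option_map (Computable.list_getElem?.comp Computable.fst Computable.snd)
      ((Computable.cond Computable.snd (Computable.const 1) (Computable.const 0)).to₂)
  · intro σ τ n m h hm
    simp only [Part.mem_coe, Option.mem_def, Option.map_eq_some_iff] at hm ⊢
    obtain ⟨b, hb, rfl⟩ := hm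
    refine ⟨b, ?_, rfl⟩
    obtain ⟨ρ, rfl⟩ := h
    have hn : n < σ.length := (List.getElem?_eq_some_iff.1 hb).1
    rw [List.getElem?_append_left hn, hb]
  · intro n m
    simp only [chi, Part.mem_some_iff, Part.mem_coe, Option.mem_def, Option.map_eq_some_iff]
    constructor
    · intro h
      refine ⟨n + 1, _, pre_getElem? A (n+1) n (Nat.lt_succ_self n), ?_⟩
      rw [h]
      by_cases hn : n ∈ A <;> simp [hn]
    · rintro ⟨s, b, hb, rfl⟩
      have hn : n < s := by
        by_contra hh
        rw [pre_getElem?_none A s n (not_lt.1 hh)] at hb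
        simp at hb
      rw [pre_getElem? A s n hn] at hb
      simp only [Option.some.injEq] at hb
      subst hb
      by_cases hn : n ∈ A <;> simp [hn]

/-- Normal form theorem for functions recursive in a set. -/
theorem exists_rep {A : Set ℕ} {f : ℕ →. ℕ} (hf : Nat.RecursiveIn {chi A} f) :
    ∃ F, Rep A f F := by
  induction hf with
  | zero => exact rep_of_partrec Nat.Partrec.zero
  | succ => exact rep_of_partrec Nat.Partrec.succ
  | left => exact rep_of_partrec Nat.Partrec.left
  | right => exact rep_of_partrec Nat.Partrec.right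
  | oracle g hg =>
    rw [Set.mem_singleton_iff] at hg
    subst hg
    exact rep_chi A
  | @pair f h _ _ ihf ihh =>
    obtain ⟨F, hF⟩ := ihf
    obtain ⟨H, hH⟩ := ihh
    refine ⟨fun σ n => (F σ n).bind fun x => (H σ n).map fun y => Nat.pair x y, ?_, ?_, ?_⟩
    · refine Partrec.bind hF.part ?_
      refine Partrec.map (hH.part.comp (Computable.fst.comp Computable.fst)
        (Computable.snd.comp Computable.fst)) ?_
      exact (Primrec₂.natPair.to_comp.comp (Computable.snd.comp Computable.fst)
        Computable.snd).to₂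
    · intro σ τ n m h hm
      simp only [Part.mem_bind_iff, Part.mem_map_iff] at hm ⊢
      obtain ⟨x, hx, y, hy, rfl⟩ := hm
      exact ⟨x, hF.mono _ _ _ _ h hx, y, hH.mono _ _ _ _ h hy, rfl⟩
    · intro n m
      simp only [Seq.seq, Part.map_eq_map, Part.mem_bind_iff, Part.mem_map_iff,
        exists_exists_and_eq_and]
      constructor
      · rintro ⟨x, hx, y, hy, rfl⟩
        obtain ⟨s, hs⟩ := (hF.lim _ _).1 hx
        obtain ⟨t, ht⟩ := (hH.lim _ _).1 hy
        exact ⟨max s t, x, hF.mono _ _ _ _ (pre_le A (le_max_left _ _)) hs, y,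
          hH.mono _ _ _ _ (pre_le A (le_max_right _ _)) ht, rfl⟩
      · rintro ⟨s, x, hx, y, hy, rfl⟩
        exact ⟨x, (hF.lim _ _).2 ⟨s, hx⟩, y, (hH.lim _ _).2 ⟨s, hy⟩, rfl⟩
  | @comp f h _ _ ihf ihh =>
    obtain ⟨F, hF⟩ := ihf
    obtain ⟨H, hH⟩ := ihh
    refine ⟨fun σ n => (H σ n).bind fun x => F σ x, ?_, ?_, ?_⟩
    · refine Partrec.bind hH.part ?_
      exact hF.part.comp (Computable.fst.comp Computable.fst) Computable.snd
    · intro σ τ n m h hm
      simp only [Part.mem_bind_iff] at hm ⊢
      obtain ⟨x, hx, hy⟩ := hm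
      exact ⟨x, hH.mono _ _ _ _ h hx, hF.mono _ _ _ _ h hy⟩
    · intro n m
      simp only [Part.bind_eq_bind, Part.mem_bind_iff]
      constructor
      · rintro ⟨x, hx, hy⟩
        obtain ⟨s, hs⟩ := (hH.lim _ _).1 hx
        obtain ⟨t, ht⟩ := (hF.lim _ _).1 hy
        exact ⟨max s t, x, hH.mono _ _ _ _ (pre_le A (le_max_left _ _)) hs,
          hF.mono _ _ _ _ (pre_le A (le_max_right _ _)) ht⟩
      · rintro ⟨s, x, hx, hy⟩
        exact ⟨x, (hH.lim _ _).2 ⟨s, hx⟩, (hF.lim _ _).2 ⟨s, hy⟩⟩
  | @prec f h _ _ ihf ihh =>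
    obtain ⟨F, hF⟩ := ihf
    obtain ⟨H, hH⟩ := ihh
    refine ⟨fun σ p => (Nat.unpair p).2.rec (F σ (Nat.unpair p).1) fun y IH =>
      IH.bind fun i => H σ (Nat.pair (Nat.unpair p).1 (Nat.pair y i)), ?_, ?_, ?_⟩
    · refine Partrec.nat_rec (f := fun x : List Bool × ℕ => (Nat.unpair x.2).2)
        (g := fun x : List Bool × ℕ => F x.1 (Nat.unpair x.2).1)
        (h := fun (x : List Bool × ℕ) (q : ℕ × ℕ) =>
          H x.1 (Nat.pair (Nat.unpair x.2).1 (Nat.pair q.1 q.2))) ?_ ?_ ?_
      · exact Computable.snd.comp (Computable.unpair.comp Computable.snd)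
      · exact hF.part.comp Computable.fst (Computable.fst.comp (Computable.unpair.comp Computable.snd))
      · refine hH.part.comp (Computable.fst.comp Computable.fst) ?_
        refine Primrec₂.natPair.to_comp.comp (Computable.fst.comp
          (Computable.unpair.comp (Computable.snd.comp Computable.fst))) ?_
        exact Primrec₂.natPair.to_comp.comp (Computable.fst.comp Computable.snd)
          (Computable.snd.comp Computable.snd)
    · intro σ τ p m h
      generalize (Nat.unpair p).2 = k
      induction k generalizing m with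
      | zero => exact fun hm => hF.mono _ _ _ _ h hm
      | succ k ih =>
        intro hm
        simp only [Part.mem_bind_iff] at hm ⊢
        obtain ⟨x, hx, hy⟩ := hm
        exact ⟨x, ih x hx, hH.mono _ _ _ _ h hy⟩
    · intro p m
      simp only
      generalize (Nat.unpair p).2 = k
      induction k generalizing m with
      | zero => exact hF.lim _ _
      | succ k ih =>
        simp only [Part.bind_eq_bind, Part.mem_bind_iff]
        constructor
        · rintro ⟨x, hx, hy⟩
          obtain ⟨s, hs⟩ := (ih _).1 hx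
          obtain ⟨t, ht⟩ := (hH.lim _ _).1 hy
          refine ⟨max s t, x, ?_, hH.mono _ _ _ _ (pre_le A (le_max_right _ _)) ht⟩
          have key : ∀ (k : ℕ) (m : ℕ) (σ τ : List Bool), σ <+: τ →
              m ∈ (Nat.rec (F σ (Nat.unpair p).1) (fun y IH =>
                IH.bind fun i => H σ (Nat.pair (Nat.unpair p).1 (Nat.pair y i))) k : Part ℕ) →
              m ∈ (Nat.rec (F τ (Nat.unpair p).1) (fun y IH =>
                IH.bind fun i => H τ (Nat.pair (Nat.unpair p).1 (Nat.pair y i))) k : Part ℕ) := by
            intro k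
            induction k with
            | zero => intro m σ τ h hm; exact hF.mono _ _ _ _ h hm
            | succ k ih =>
              intro m σ τ h hm
              simp only [Part.mem_bind_iff] at hm ⊢
              obtain ⟨x, hx, hy⟩ := hm
              exact ⟨x, ih _ _ _ h hx, hH.mono _ _ _ _ h hy⟩
          exact key _ _ _ _ (pre_le A (le_max_left _ _)) hs
        · rintro ⟨s, x, hx, hy⟩
          exact ⟨x, (ih _).2 ⟨s, hx⟩, (hH.lim _ _).2 ⟨s, hy⟩⟩
  | @rfind f _ ihf =>
    obtain ⟨F, hF⟩ := ihf
    have hmono : ∀ (σ τ : List Bool) (n m : ℕ), σ <+: τ →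
        m ∈ (Nat.rfind fun k => (F σ (Nat.pair n k)).map fun m => decide (m = 0)) →
        m ∈ (Nat.rfind fun k => (F τ (Nat.pair n k)).map fun m => decide (m = 0)) := by
      intro σ τ n m h hm
      rw [Nat.mem_rfind] at hm ⊢
      obtain ⟨h1, h2⟩ := hm
      constructor
      · simp only [Part.mem_map_iff] at h1 ⊢
        obtain ⟨x, hx, hx2⟩ := h1
        exact ⟨x, hF.mono _ _ _ _ h hx, hx2⟩
      · intro i hi
        have := h2 hi
        simp only [Part.mem_map_iff] at this ⊢
        obtain ⟨x, hx, hx2⟩ := this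
        exact ⟨x, hF.mono _ _ _ _ h hx, hx2⟩
    refine ⟨fun σ a => Nat.rfind fun n => (F σ (Nat.pair a n)).map fun m => decide (m = 0),
      ?_, hmono, ?_⟩
    · refine Partrec.rfind (α := List Bool × ℕ)
        (p := fun x n => (F x.1 (Nat.pair x.2 n)).map fun m => decide (m = 0)) ?_
      refine Partrec.map (hF.part.comp (Computable.fst.comp Computable.fst)
        (Primrec₂.natPair.to_comp.comp (Computable.snd.comp Computable.fst) Computable.snd)) ?_
      exact (((Primrec.eq (α := ℕ)).decide.to_comp).comp Computable.snd (Computable.const 0)).to₂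
    · intro n m
      simp only [Part.map_eq_map]
      constructor
      · intro hm
        rw [Nat.mem_rfind] at hm
        obtain ⟨h1, h2⟩ := hm
        -- each of the values for i ≤ m is witnessed by some stage
        have h3 : ∀ i, ∃ s, i ≤ m → ∃ x ∈ F (pre A s) (Nat.pair n i),
            ∀ y ∈ f (Nat.pair n i), x = y := by
          intro i
          by_cases hi : i ≤ m
          · have : ∃ x, x ∈ f (Nat.pair n i) := by
              rcases Nat.lt_or_eq_of_le hi with hi' | hi'
              · have := h2 hi'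
                simp only [Part.mem_map_iff] at this
                obtain ⟨x, hx, -⟩ := this
                exact ⟨x, hx⟩
              · subst hi'
                simp only [Part.mem_map_iff] at h1
                obtain ⟨x, hx, -⟩ := h1
                exact ⟨x, hx⟩
            obtain ⟨x, hx⟩ := this
            obtain ⟨s, hs⟩ := (hF.lim _ _).1 hx
            exact ⟨s, fun _ => ⟨x, hs, fun y hy => Part.mem_unique hx hy⟩⟩
          · exact ⟨0, fun h => absurd h hi⟩
        choose g hg using h3
        have hle : ∀ i ≤ m, g i ≤ (Finset.range (m+1)).sup g := fun i hi =>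
          Finset.le_sup (f := g) (Finset.mem_range.2 (Nat.lt_succ_of_le hi))
        refine ⟨(Finset.range (m+1)).sup g, ?_⟩
        rw [Nat.mem_rfind]
        constructor
        · obtain ⟨x, hx, hx2⟩ := hg m le_rfl
          simp only [Part.mem_map_iff] at h1 ⊢
          obtain ⟨y, hy, hy2⟩ := h1
          have := hx2 y hy
          subst this
          exact ⟨x, hF.mono _ _ _ _ (pre_le A (hle m le_rfl)) hx, hy2⟩
        · intro i hi
          obtain ⟨x, hx, hx2⟩ := hg i hi.le
          have h4 := h2 hi
          simp only [Part.mem_map_iff] at h4 ⊢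
          obtain ⟨y, hy, hy2⟩ := h4
          have := hx2 y hy
          subst this
          exact ⟨x, hF.mono _ _ _ _ (pre_le A (hle i hi.le)) hx, hy2⟩
      · rintro ⟨s, hs⟩
        rw [Nat.mem_rfind] at hs ⊢
        obtain ⟨h1, h2⟩ := hs
        constructor
        · simp only [Part.mem_map_iff] at h1 ⊢
          obtain ⟨x, hx, hx2⟩ := h1
          exact ⟨x, (hF.lim _ _).2 ⟨s, hx⟩, hx2⟩
        · intro i hi
          have := h2 hi
          simp only [Part.mem_map_iff] at this ⊢
          obtain ⟨x, hx, hx2⟩ := this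
          exact ⟨x, (hF.lim _ _).2 ⟨s, hx⟩, hx2⟩

end Low4
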