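import Pool.Agent.Hhelper75.Low4.SpaceFan
import Pool.Agent.Hhelper75.Low4.Bridge
import Pool.Agent.Hhelper75.Low4.Formula

namespace Low4

open Metric Set Encodable

def dOf (i : ℕ) : ℕ := i.unpair.1
def jOf (i : ℕ) : ℕ := i.unpair.2.unpair.1
def aOf (i : ℕ) : ℕ := i.unpair.2.unpair.2.unpair.1
def bOf (i : ℕ) : ℕ := i.unpair.2.unpair.2.unpair.2
def pOf (i : ℕ) : ℕ := 2 ^ (dOf i + 3)
def ok (i : ℕ) : ℕ := cond (decide (jOf i < dOf i + 3) && decide (aOf i ≤ bOf i + 1)) 1 0

def xn (i w : ℕ) : ℕ := w * ok i * (aOf i * (bOf i + 1) * (pOf i * pOf i))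
def yn (i w : ℕ) : ℕ := w * ok i * (aOf i * ((bOf i + 1) * pOf i + jOf i * (bOf i + 1 - aOf i)))
def dn (i : ℕ) : ℕ := (bOf i + 1) * (bOf i + 1) * (pOf i * pOf i * pOf i)
def adiff (p q : ℕ) : ℕ := (p - q) + (q - p)
def numF (i w i' w' : ℕ) : ℕ :=
  max (adiff (xn i w * dn i') (xn i' w' * dn i)) (adiff (yn i w * dn i') (yn i' w' * dn i))
def denF (i i' : ℕ) : ℕ := dn i * dn i' - 1

theorem primrec_dOf : Primrec dOf := Primrec.fst.comp Primrec.unpair
theorem primrec_jOf : Primrec jOf :=
  Primrec.fst.comp (Primrec.unpair.comp (Primrec.snd.comp Primrec.unpair))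
theorem primrec_aOf : Primrec aOf :=
  Primrec.fst.comp (Primrec.unpair.comp (Primrec.snd.comp (Primrec.unpair.comp
    (Primrec.snd.comp Primrec.unpair))))
theorem primrec_bOf : Primrec bOf :=
  Primrec.snd.comp (Primrec.unpair.comp (Primrec.snd.comp (Primrec.unpair.comp
    (Primrec.snd.comp Primrec.unpair))))
theorem primrec_pOf : Primrec pOf :=
  primrec_pow.comp (Primrec.const 2) (Primrec.nat_add.comp primrec_dOf (Primrec.const 3))

theorem primrec_ok : Primrec ok := by
  refine Primrec.cond ?_ (Primrec.const 1) (Primrec.const 0)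
  refine Primrec.and.comp ?_ ?_
  · exact (Primrec.nat_lt.comp primrec_jOf (Primrec.nat_add.comp primrec_dOf
      (Primrec.const 3))).decide
  · exact (Primrec.nat_le.comp primrec_aOf (Primrec.succ.comp primrec_bOf)).decide

theorem primrec_xn : Primrec₂ xn := by
  have i : Primrec fun x : ℕ × ℕ => x.1 := Primrec.fst
  have w : Primrec fun x : ℕ × ℕ => x.2 := Primrec.snd
  exact Primrec.nat_mul.comp (Primrec.nat_mul.comp w (primrec_ok.comp i))
    (Primrec.nat_mul.comp (Primrec.nat_mul.comp (primrec_aOf.comp i)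
      (Primrec.succ.comp (primrec_bOf.comp i)))
      (Primrec.nat_mul.comp (primrec_pOf.comp i) (primrec_pOf.comp i)))

theorem primrec_yn : Primrec₂ yn := by
  have i : Primrec fun x : ℕ × ℕ => x.1 := Primrec.fst
  have w : Primrec fun x : ℕ × ℕ => x.2 := Primrec.snd
  exact Primrec.nat_mul.comp (Primrec.nat_mul.comp w (primrec_ok.comp i))
    (Primrec.nat_mul.comp (primrec_aOf.comp i) (Primrec.nat_add.comp
      (Primrec.nat_mul.comp (Primrec.succ.comp (primrec_bOf.comp i)) (primrec_pOf.comp i))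
      (Primrec.nat_mul.comp (primrec_jOf.comp i) (Primrec.nat_sub.comp
        (Primrec.succ.comp (primrec_bOf.comp i)) (primrec_aOf.comp i)))))

theorem primrec_dn : Primrec dn :=
  Primrec.nat_mul.comp (Primrec.nat_mul.comp (Primrec.succ.comp primrec_bOf)
    (Primrec.succ.comp primrec_bOf)) (Primrec.nat_mul.comp
      (Primrec.nat_mul.comp primrec_pOf primrec_pOf) primrec_pOf)

theorem primrec_adiff : Primrec₂ adiff :=
  Primrec.nat_add.comp (Primrec.nat_sub.comp Primrec.fst Primrec.snd)
    (Primrec.nat_sub.comp Primrec.snd Primrec.fst)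

theorem primrec_numF : Primrec fun x : (ℕ × ℕ) × (ℕ × ℕ) => numF x.1.1 x.1.2 x.2.1 x.2.2 := by
  have i : Primrec fun x : (ℕ × ℕ) × (ℕ × ℕ) => x.1.1 := Primrec.fst.comp Primrec.fst
  have w : Primrec fun x : (ℕ × ℕ) × (ℕ × ℕ) => x.1.2 := Primrec.snd.comp Primrec.fst
  have i' : Primrec fun x : (ℕ × ℕ) × (ℕ × ℕ) => x.2.1 := Primrec.fst.comp Primrec.snd
  have w' : Primrec fun x : (ℕ × ℕ) × (ℕ × ℕ) => x.2.2 := Primrec.snd.comp Primrec.snd
  have d := primrec_dn.comp i
  have d' := primrec_dn.comp i'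
  exact Primrec.nat_max.comp
    (primrec_adiff.comp (Primrec.nat_mul.comp (primrec_xn.comp i w) d')
      (Primrec.nat_mul.comp (primrec_xn.comp i' w') d))
    (primrec_adiff.comp (Primrec.nat_mul.comp (primrec_yn.comp i w) d')
      (Primrec.nat_mul.comp (primrec_yn.comp i' w') d))

theorem primrec_denF : Primrec₂ denF :=
  Primrec.nat_sub.comp (Primrec.nat_mul.comp (primrec_dn.comp Primrec.fst)
    (primrec_dn.comp Primrec.snd)) (Primrec.const 1)

theorem adiff_cast (p q : ℕ) : ((adiff p q : ℕ) : ℝ) = |(p : ℝ) - q| := by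
  unfold adiff
  rcases le_total p q with h | h
  · rw [Nat.sub_eq_zero_of_le h, zero_add, Nat.cast_sub h, abs_sub_comm, abs_of_nonneg]
    have : (p : ℝ) ≤ q := by exact_mod_cast h
    linarith
  · rw [Nat.sub_eq_zero_of_le h, add_zero, Nat.cast_sub h, abs_of_nonneg]
    have : (q : ℝ) ≤ p := by exact_mod_cast h
    linarith

variable (D : Set ℕ)

open Classical in
/-- membership bit -/
noncomputable def wD (i : ℕ) : ℕ := if dOf i ∈ D then 1 else 0

open Classical in
/-- the dense sequence -/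
noncomputable def sX (i : ℕ) : XS D :=
  if h : dOf i ∈ D ∧ jOf i < dOf i + 3 ∧ aOf i ≤ bOf i + 1 then
    ⟨gam (dOf i) (jOf i) ((aOf i : ℝ) / (bOf i + 1)), gam_mem_XS h.1 h.2.1 (by positivity) (by
      rw [div_le_one (by positivity)]; exact_mod_cast h.2.2)⟩
  else oX D

theorem sX_val (i : ℕ) : ((sX D i : XS D) : ℝ × ℝ) =
    ((xn i (wD D i) : ℝ) / dn i, (yn i (wD D i) : ℝ) / dn i) := by
  classical
  by_cases h : dOf i ∈ D ∧ jOf i < dOf i + 3 ∧ aOf i ≤ bOf i + 1
  · rw [sX, dif_pos h]
    have hw : wD D i = 1 := by simp [wD, h.1]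
    have hok : ok i = 1 := by simp [ok, h.2.1, h.2.2]
    have hp : (pOf i : ℝ) = 2 ^ (dOf i + 3) := by simp [pOf]
    have hp0 : (0 : ℝ) < 2 ^ (dOf i + 3) := by positivity
    have hb0 : (0 : ℝ) < (bOf i : ℝ) + 1 := by positivity
    have hsub : ((bOf i + 1 - aOf i : ℕ) : ℝ) = (bOf i : ℝ) + 1 - aOf i := by
      rw [Nat.cast_sub h.2.2]; push_cast; ring
    simp only [gam, u]
    refine Prod.ext ?_ ?_
    · simp only [xn, hw, hok, dn]
      push_cast
      rw [hp]
      field_simp
    · simp only [yn, hw, hok, dn]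
      push_cast
      rw [hsub, hp]
      field_simp
  · rw [sX, dif_neg h]
    have h0 : wD D i * ok i = 0 := by
      by_cases h1 : dOf i ∈ D
      · have : ok i = 0 := by
          unfold ok
          by_cases h2 : jOf i < dOf i + 3
          · by_cases h3 : aOf i ≤ bOf i + 1
            · exact absurd ⟨h1, h2, h3⟩ h
            · simp [h3]
          · simp [h2]
        simp [this]
      · simp [wD, h1]
    have hx : xn i (wD D i) = 0 := by unfold xn; rw [h0, zero_mul]
    have hy : yn i (wD D i) = 0 := by unfold yn; rw [h0, zero_mul]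
    rw [hx, hy]
    simp [oX]
    rfl

theorem dn_pos (i : ℕ) : 0 < dn i := by
  unfold dn pOf
  positivity

theorem dist_sX (i i' : ℕ) : dist (sX D i) (sX D i') =
    (numF i (wD D i) i' (wD D i') : ℝ) / ((denF i i' : ℝ) + 1) := by
  have h1 : (0 : ℝ) < dn i := by exact_mod_cast dn_pos i
  have h2 : (0 : ℝ) < dn i' := by exact_mod_cast dn_pos i'
  have hden : (denF i i' : ℝ) + 1 = dn i * dn i' := by
    have : denF i i' + 1 = dn i * dn i' := by
      unfold denF
      have := Nat.mul_pos (dn_pos i) (dn_pos i')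
      omega
    exact_mod_cast this
  have key : ∀ p q : ℝ, |p / dn i - q / dn i'| = |p * dn i' - q * dn i| / (dn i * dn i') := by
    intro p q
    have : p / dn i - q / dn i' = (p * dn i' - q * dn i) / (dn i * dn i') := by
      field_simp
    rw [this, abs_div, abs_of_pos (mul_pos h1 h2)]
  rw [Subtype.dist_eq, sX_val, sX_val, Prod.dist_eq, Real.dist_eq, Real.dist_eq, key, key, hden]
  rw [max_div_div_right (mul_pos h1 h2).le]
  congr 1
  unfold numF
  rw [Nat.cast_max, adiff_cast, adiff_cast]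
  push_cast
  rfl

theorem denseRange_sX : DenseRange (sX D) := by
  classical
  rw [DenseRange, Metric.dense_iff]
  rintro ⟨p, hp⟩ ε hε
  rcases hp with rfl | ⟨d, hd, j, hj, t, h0, h1, rfl⟩
  · refine ⟨oX D, mem_ball_self hε, Nat.pair 0 (Nat.pair 0 (Nat.pair 2 0)), ?_⟩
    rw [sX, dif_neg]
    rintro ⟨-, -, h⟩
    simp [aOf, bOf] at h
  · obtain ⟨δ, hδ, hball⟩ := Metric.continuousAt_iff.1
      ((continuous_gam d j).continuousAt (x := t)) ε hε
    obtain ⟨b, hb⟩ := exists_nat_one_div_lt hδ
    have hb0 : (0 : ℝ) < (b : ℝ) + 1 := by positivity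
    set a : ℕ := ⌊t * (b + 1)⌋₊ with ha
    have ha1 : (a : ℝ) ≤ t * (b + 1) := Nat.floor_le (by positivity)
    have ha2 : t * (b + 1) < a + 1 := Nat.lt_floor_add_one _
    have hab : a ≤ b + 1 := by
      have : (a : ℝ) ≤ b + 1 := ha1.trans (by nlinarith)
      exact_mod_cast this
    have hdist : dist ((a : ℝ) / (b + 1)) t < δ := by
      refine lt_of_le_of_lt ?_ hb
      rw [Real.dist_eq, abs_sub_comm, abs_of_nonneg]
      · rw [sub_le_iff_le_add, ← add_div, le_div_iff₀ hb0]
        linarith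
      · rw [sub_nonneg, div_le_iff₀ hb0]; exact ha1
    refine ⟨⟨gam d j ((a : ℝ) / (b + 1)), gam_mem_XS hd hj (by positivity)
      (by rw [div_le_one hb0]; exact_mod_cast hab)⟩, hball hdist,
      Nat.pair d (Nat.pair j (Nat.pair a b)), ?_⟩
    rw [sX, dif_pos]
    · apply Subtype.ext
      simp [dOf, jOf, aOf, bOf]
    · simp only [dOf, jOf, aOf, bOf, Nat.unpair_pair]
      exact ⟨hd, hj, hab⟩

theorem computableIn_dist : ComputableIn {chi D} fun x : ℕ × ℕ × ℕ =>
    (numF x.1 (wD D x.1) x.2.1 (wD D x.2.1), denF x.1 x.2.1) := by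
  classical
  -- oracle part
  have hw : ∀ f : ℕ → ℕ, Computable f →
      Nat.RecursiveIn {chi D} (fun n => Part.some (wD D (f n))) := by
    intro f hf
    exact recIn_comp (f := fun n => if n ∈ D then 1 else 0) (g := fun n => dOf (f n)) (recIn_chi D)
      (recIn_computable (primrec_dOf.to_comp.comp hf))
  have c1 : Computable fun n : ℕ => n.unpair.1 := Computable.fst.comp Computable.unpair
  have c2 : Computable fun n : ℕ => n.unpair.2.unpair.1 :=
    Computable.fst.comp (Computable.unpair.comp (Computable.snd.comp Computable.unpair))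
  let H : ℕ → ℕ := fun q =>
    encode (numF q.unpair.1.unpair.1 q.unpair.2.unpair.1 q.unpair.1.unpair.2.unpair.1
      q.unpair.2.unpair.2, denF q.unpair.1.unpair.1 q.unpair.1.unpair.2.unpair.1)
  have hH : Computable H := by
    have e1 : Computable fun q : ℕ => q.unpair.1.unpair.1 :=
      c1.comp c1
    have e2 : Computable fun q : ℕ => q.unpair.1.unpair.2.unpair.1 := c2.comp c1
    have e3 : Computable fun q : ℕ => q.unpair.2.unpair.1 := c2
    have e4 : Computable fun q : ℕ => q.unpair.2.unpair.2 :=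
      Computable.snd.comp (Computable.unpair.comp (Computable.snd.comp Computable.unpair))
    refine Computable.encode.comp (Computable.pair ?_ (primrec_denF.to_comp.comp e1 e2))
    exact Computable.comp (f := fun x : (ℕ × ℕ) × (ℕ × ℕ) => numF x.1.1 x.1.2 x.2.1 x.2.2)
      (g := fun q : ℕ => ((q.unpair.1.unpair.1, q.unpair.2.unpair.1),
        (q.unpair.1.unpair.2.unpair.1, q.unpair.2.unpair.2)))
      primrec_numF.to_comp (Computable.pair (Computable.pair e1 e3) (Computable.pair e2 e4))
  have h1 := recIn_comp (O := {chi D}) (f := H)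
    (g := fun n => Nat.pair n (Nat.pair (wD D n.unpair.1) (wD D n.unpair.2.unpair.1)))
    (recIn_computable hH)
    (recIn_pair (f := fun n => n) (recIn_computable Computable.id)
      (recIn_pair (hw _ c1) (hw _ c2)))
  refine h1.of_eq fun n => ?_
  simp [H]

theorem presented_XS : Presented D (XS D) := by
  have : CompactSpace (XS D) := isCompact_iff_compactSpace.1 (isCompact_XS D)
  refine ⟨inferInstance, rfl, inferInstance, sX D, denseRange_sX D, _, computableIn_dist D, ?_⟩
  intro i j n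
  have := dist_sX D i j
  show |dist (sX D i) (sX D j) - _| ≤ _
  rw [this, sub_self, abs_zero]
  positivity

end Low4
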