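import Mathlib

namespace Low4

open Nat.Partrec

variable {α β γ : Type} [Primcodable α] [Primcodable β] [Primcodable γ]

/-- Normal form of recursively enumerable predicates: `p a ↔ ∃ k, R a k` with `R` computable. -/
def Sig1 (p : α → Prop) : Prop :=
  ∃ R : α → ℕ → Bool, Computable₂ R ∧ ∀ a, p a ↔ ∃ k, R a k = true

/-- bounded conjunction -/
def bAll (R : ℕ → Bool) (n : ℕ) : Bool := Nat.rec true (fun i b => b && R i) n

/-- bounded disjunction -/
def bEx (R : ℕ → Bool) (n : ℕ) : Bool := Nat.rec false (fun i b => b || R i) n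

theorem bAll_iff (R : ℕ → Bool) (n : ℕ) : bAll R n = true ↔ ∀ i < n, R i = true := by
  induction n with
  | zero => simp [bAll]
  | succ n ih =>
    have : bAll R (n+1) = (bAll R n && R n) := rfl
    rw [this, Bool.and_eq_true, ih]
    constructor
    · rintro ⟨h1, h2⟩ i hi
      rcases Nat.lt_succ_iff_lt_or_eq.1 hi with h | h
      · exact h1 i h
      · rw [h]; exact h2
    · intro h
      exact ⟨fun i hi => h i (Nat.lt_succ_of_lt hi), h n (Nat.lt_succ_self n)⟩

theorem bEx_iff (R : ℕ → Bool) (n : ℕ) : bEx R n = true ↔ ∃ i < n, R i = true := by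
  induction n with
  | zero => simp [bEx]
  | succ n ih =>
    have : bEx R (n+1) = (bEx R n || R n) := rfl
    rw [this, Bool.or_eq_true, ih]
    constructor
    · rintro (⟨i, hi, h⟩ | h)
      · exact ⟨i, Nat.lt_succ_of_lt hi, h⟩
      · exact ⟨n, Nat.lt_succ_self n, h⟩
    · rintro ⟨i, hi, h⟩
      rcases Nat.lt_succ_iff_lt_or_eq.1 hi with h' | h'
      · exact Or.inl ⟨i, h', h⟩
      · exact Or.inr (h' ▸ h)

theorem computable_bAll {R : α → ℕ → Bool} {f : α → ℕ} (hR : Computable₂ R) (hf : Computable f) :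
    Computable fun a => bAll (R a) (f a) := by
  refine Computable.nat_rec hf (Computable.const true) (h := fun a p => p.2 && R a p.1) ?_
  exact (Primrec.and.to_comp.comp (Computable.snd.comp Computable.snd)
    (hR.comp Computable.fst (Computable.fst.comp Computable.snd))).to₂

theorem computable_bEx {R : α → ℕ → Bool} {f : α → ℕ} (hR : Computable₂ R) (hf : Computable f) :
    Computable fun a => bEx (R a) (f a) := by
  refine Computable.nat_rec hf (Computable.const false) (h := fun a p => p.2 || R a p.1) ?_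
  exact (Primrec.or.to_comp.comp (Computable.snd.comp Computable.snd)
    (hR.comp Computable.fst (Computable.fst.comp Computable.snd))).to₂

theorem Sig1.of_eq {p q : α → Prop} (hp : Sig1 p) (h : ∀ a, p a ↔ q a) : Sig1 q := by
  obtain ⟨R, hR, hp⟩ := hp
  exact ⟨R, hR, fun a => (h a).symm.trans (hp a)⟩

theorem Sig1.of_re {p : α → Prop} (h : REPred p) : Sig1 p := by
  obtain ⟨c, hc⟩ := Code.exists_code.1 h
  refine ⟨fun a k => (Code.evaln k c (Encodable.encode a)).isSome, ?_, ?_⟩
  · have h1 : Computable fun x : α × ℕ => Code.evaln x.2 c (Encodable.encode x.1) :=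
      Code.primrec_evaln.to_comp.comp
        (Computable.pair (Computable.pair Computable.snd (Computable.const c))
          (Computable.encode.comp Computable.fst))
    exact (Primrec.option_isSome.to_comp.comp h1).to₂
  · intro a
    have h2 := congrFun hc (Encodable.encode a)
    simp only [Encodable.encodek, Part.coe_some, Part.bind_some] at h2
    constructor
    · intro hp
      have : (Code.eval c (Encodable.encode a)).Dom := by
        rw [h2]; exact ⟨hp, trivial⟩
      obtain ⟨x, hx⟩ := Part.dom_iff_mem.1 this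
      obtain ⟨k, hk⟩ := Code.evaln_complete.1 hx
      exact ⟨k, by rw [Option.mem_def] at hk; dsimp only; rw [hk]; rfl⟩
    · rintro ⟨k, hk⟩
      obtain ⟨x, hx⟩ := Option.isSome_iff_exists.1 hk
      have : x ∈ Code.eval c (Encodable.encode a) := Code.evaln_complete.2 ⟨k, hx⟩
      rw [h2] at this
      exact this.fst.1

theorem Sig1.re {p : α → Prop} (h : Sig1 p) : REPred p := by
  obtain ⟨R, hR, hp⟩ := h
  have h1 : Partrec fun a => Nat.rfind (fun k => Part.some (R a k)) :=
    Partrec.rfind hR.partrec₂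
  refine h1.dom_re.of_eq fun a => ?_
  rw [hp a]
  simp [Nat.rfind_dom]

theorem sig1_iff_re {p : α → Prop} : Sig1 p ↔ REPred p := ⟨Sig1.re, Sig1.of_re⟩

theorem Sig1.of_computable {f : α → Bool} (hf : Computable f) : Sig1 fun a => f a = true :=
  ⟨fun a _ => f a, (hf.comp Computable.fst).to₂, fun a => by simp⟩

theorem Sig1.comp {p : β → Prop} {f : α → β} (hp : Sig1 p) (hf : Computable f) :
    Sig1 fun a => p (f a) := by
  obtain ⟨R, hR, hp⟩ := hp
  exact ⟨fun a k => R (f a) k, (hR.comp (hf.comp Computable.fst) Computable.snd).to₂,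
    fun a => hp (f a)⟩

theorem Sig1.and {p q : α → Prop} (hp : Sig1 p) (hq : Sig1 q) : Sig1 fun a => p a ∧ q a := by
  obtain ⟨R, hR, hp⟩ := hp
  obtain ⟨S, hS, hq⟩ := hq
  refine ⟨fun a k => R a k.unpair.1 && S a k.unpair.2, ?_, ?_⟩
  · exact (Primrec.and.to_comp.comp
      (hR.comp Computable.fst (Computable.fst.comp (Computable.unpair.comp Computable.snd)))
      (hS.comp Computable.fst (Computable.snd.comp (Computable.unpair.comp Computable.snd)))).to₂
  · intro a
    dsimp only
    rw [hp, hq]
    constructor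
    · rintro ⟨⟨k, hk⟩, ⟨l, hl⟩⟩
      exact ⟨Nat.pair k l, by simp [hk, hl]⟩
    · rintro ⟨k, hk⟩
      simp only [Bool.and_eq_true] at hk
      exact ⟨⟨_, hk.1⟩, ⟨_, hk.2⟩⟩

theorem Sig1.or {p q : α → Prop} (hp : Sig1 p) (hq : Sig1 q) : Sig1 fun a => p a ∨ q a := by
  obtain ⟨R, hR, hp⟩ := hp
  obtain ⟨S, hS, hq⟩ := hq
  refine ⟨fun a k => R a k || S a k, ?_, ?_⟩
  · exact (Primrec.or.to_comp.comp hR hS).to₂
  · intro a
    dsimp only
    rw [hp, hq]
    constructor
    · rintro (⟨k, hk⟩ | ⟨k, hk⟩)
      · exact ⟨k, by simp [hk]⟩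
      · exact ⟨k, by simp [hk]⟩
    · rintro ⟨k, hk⟩
      simp only [Bool.or_eq_true] at hk
      rcases hk with hk | hk
      · exact Or.inl ⟨_, hk⟩
      · exact Or.inr ⟨_, hk⟩

theorem Sig1.imp {g : α → Bool} {q : α → Prop} (hg : Computable g) (hq : Sig1 q) :
    Sig1 fun a => g a = true → q a := by
  have h1 : Sig1 fun a => (!(g a)) = true := Sig1.of_computable (Primrec.not.to_comp.comp hg)
  refine (h1.or hq).of_eq fun a => ?_
  cases g a <;> simp

theorem Sig1.ex_nat {p : α → ℕ → Prop} (hp : Sig1 fun x : α × ℕ => p x.1 x.2) :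
    Sig1 fun a => ∃ n, p a n := by
  obtain ⟨R, hR, hp⟩ := hp
  refine ⟨fun a k => R (a, k.unpair.1) k.unpair.2, ?_, ?_⟩
  · exact (hR.comp (Computable.pair Computable.fst
        (Computable.fst.comp (Computable.unpair.comp Computable.snd)))
      (Computable.snd.comp (Computable.unpair.comp Computable.snd))).to₂
  · intro a
    constructor
    · rintro ⟨n, hn⟩
      obtain ⟨k, hk⟩ := (hp (a, n)).1 hn
      exact ⟨Nat.pair n k, by simpa using hk⟩
    · rintro ⟨k, hk⟩
      exact ⟨_, (hp (a, k.unpair.1)).2 ⟨_, hk⟩⟩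

theorem Sig1.ex {p : α → β → Prop} (hp : Sig1 fun x : α × β => p x.1 x.2) :
    Sig1 fun a => ∃ b, p a b := by
  obtain ⟨R, hR, hp⟩ := hp
  have h1 : Sig1 fun x : α × ℕ => ∃ k, ((Encodable.decode (α := β) x.2).map
      fun b => R (x.1, b) k).getD false = true := by
    refine ⟨fun x k => ((Encodable.decode (α := β) x.2).map fun b => R (x.1, b) k).getD false,
      ?_, fun a => Iff.rfl⟩
    have h3 : Computable₂ fun (y : (α × ℕ) × ℕ) (b : β) => R (y.1.1, b) y.2 :=
      (hR.comp (Computable.pair (Computable.fst.comp (Computable.fst.comp Computable.fst))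
        Computable.snd) (Computable.snd.comp Computable.fst)).to₂
    have h2 : Computable fun y : (α × ℕ) × ℕ =>
        (Encodable.decode (α := β) y.1.2).map fun b => R (y.1.1, b) y.2 :=
      Computable.option_map (Computable.decode.comp (Computable.snd.comp Computable.fst)) h3
    exact (Computable.option_getD h2 (Computable.const false)).to₂
  refine (Sig1.ex_nat (p := fun a n => ∃ k, ((Encodable.decode (α := β) n).map
      fun b => R (a, b) k).getD false = true) h1).of_eq fun a => ?_
  constructor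
  · rintro ⟨n, k, hk⟩
    rcases hd : Encodable.decode (α := β) n with _ | b
    · simp [hd] at hk
    · rw [hd] at hk
      exact ⟨b, (hp (a, b)).2 ⟨k, by simpa using hk⟩⟩
  · rintro ⟨b, hb⟩
    obtain ⟨k, hk⟩ := (hp (a, b)).1 hb
    exact ⟨Encodable.encode b, k, by simpa using hk⟩

theorem Sig1.ball {p : α → ℕ → Prop} {f : α → ℕ} (hp : Sig1 fun x : α × ℕ => p x.1 x.2)
    (hf : Computable f) : Sig1 fun a => ∀ i < f a, p a i := by
  obtain ⟨R, hR, hp⟩ := hp
  refine ⟨fun a K => bAll (fun i => bEx (fun k => R (a, i) k) K) (f a), ?_, ?_⟩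
  · have h1 : Computable₂ fun (y : α × ℕ) (i : ℕ) => bEx (fun k => R (y.1, i) k) y.2 := by
      have := computable_bEx (α := (α × ℕ) × ℕ) (R := fun y k => R (y.1.1, y.2) k)
        (f := fun y => y.1.2)
        (hR.comp (Computable.pair (Computable.fst.comp (Computable.fst.comp Computable.fst))
          (Computable.snd.comp Computable.fst)) Computable.snd).to₂
        (Computable.snd.comp Computable.fst)
      exact this.to₂
    exact (computable_bAll h1 (hf.comp Computable.fst)).to₂
  · intro a
    constructor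
    · intro h
      have h1 : ∀ i, ∃ k, i < f a → R (a, i) k = true := by
        intro i
        by_cases hi : i < f a
        · obtain ⟨k, hk⟩ := (hp (a, i)).1 (h i hi)
          exact ⟨k, fun _ => hk⟩
        · exact ⟨0, fun h => absurd h hi⟩
      choose g hg using h1
      refine ⟨(Finset.range (f a)).sup g + 1, ?_⟩
      rw [bAll_iff]
      intro i hi
      rw [bEx_iff]
      exact ⟨g i, Nat.lt_succ_of_le (Finset.le_sup (f := g) (Finset.mem_range.2 hi)), hg i hi⟩
    · rintro ⟨K, hK⟩ i hi
      rw [bAll_iff] at hK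
      obtain ⟨k, -, hk⟩ := (bEx_iff _ _).1 (hK i hi)
      exact (hp (a, i)).2 ⟨k, hk⟩

theorem Sig1.bex {p : α → ℕ → Prop} {f : α → ℕ} (hp : Sig1 fun x : α × ℕ => p x.1 x.2)
    (hf : Computable f) : Sig1 fun a => ∃ i < f a, p a i := by
  have h1 : Sig1 fun x : α × ℕ => (decide (x.2 < f x.1)) = true := by
    refine Sig1.of_computable ?_
    exact (Primrec.nat_lt.decide.to_comp).comp
      (Computable.snd (α := α) (β := ℕ)) (hf.comp (Computable.fst (α := α) (β := ℕ)))
  refine (Sig1.ex (p := fun a i => decide (i < f a) = true ∧ p a i) (h1.and hp)).of_eq fun a => ?_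
  simp

end Low4
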