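import Pool.Agent.Hhelper75.Low4.Star

namespace Low4

open Metric Set

/-- scale of the `d`-th star -/
noncomputable def u (d : ℕ) : ℝ := 1 / 2 ^ (d + 3)

/-- the `j`-th arc of the `d`-th star, from the base point `0` (`t = 0`) to the centre (`t = 1`) -/
noncomputable def gam (d j : ℕ) (t : ℝ) : ℝ × ℝ :=
  (u d * t, u d * (u d * t) * (1 + j * (u d * (1 - t))))

/-- the space coding `D` -/
def XS (D : Set ℕ) : Set (ℝ × ℝ) :=
  {p | p = 0 ∨ ∃ d ∈ D, ∃ j < d + 3, ∃ t : ℝ, 0 ≤ t ∧ t ≤ 1 ∧ p = gam d j t}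

theorem u_pos (d : ℕ) : 0 < u d := by unfold u; positivity

theorem u_lt (d d' : ℕ) (h : d < d') : u d' ≤ u d / 2 := by
  unfold u
  have h1 : (2 : ℝ) ^ (d + 4) ≤ 2 ^ (d' + 3) := pow_le_pow_right₀ (by norm_num) (by omega)
  calc 1 / (2 : ℝ) ^ (d' + 3) ≤ 1 / 2 ^ (d + 4) := one_div_le_one_div_of_le (by positivity) h1
    _ = 1 / 2 ^ (d + 3) / 2 := by rw [pow_succ (2 : ℝ) (d + 3)]; field_simp

theorem j_bound (d j : ℕ) (h : j < d + 3) : (j : ℝ) * u d ≤ 1 / 4 := by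
  have h1 : (d + 2) * 4 ≤ 2 ^ (d + 3) := by
    induction d with
    | zero => norm_num
    | succ d ih =>
      by_cases hj : j < d + 3
      · have := ih hj
        rw [pow_succ]; omega
      · have h2 : ∀ d : ℕ, (d + 2) * 4 ≤ 2 ^ (d + 3) := by
          intro d
          induction d with
          | zero => norm_num
          | succ d ih => rw [pow_succ]; omega
        exact h2 (d + 1)
  have h2 : (j : ℝ) * 4 ≤ 2 ^ (d + 3) := by
    have : j * 4 ≤ 2 ^ (d + 3) := by omega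
    exact_mod_cast this
  unfold u
  rw [mul_one_div, div_le_div_iff₀ (by positivity) (by norm_num)]
  linarith

theorem continuous_gam (d j : ℕ) : Continuous (gam d j) := by
  unfold gam
  fun_prop

theorem gam_zero (d j : ℕ) : gam d j 0 = 0 := by simp [gam]

theorem gam_one (d j : ℕ) : gam d j 1 = (u d, u d * u d) := by simp [gam]

/-- plane region of the `d`-th star -/
def Od (d : ℕ) : Set (ℝ × ℝ) := {p | 3 / 4 * u d * p.1 < p.2 ∧ p.2 < 3 / 2 * u d * p.1}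

theorem isOpen_Od (d : ℕ) : IsOpen (Od d) := by
  have h1 : IsOpen {p : ℝ × ℝ | 3 / 4 * u d * p.1 < p.2} :=
    isOpen_lt (by fun_prop) (by fun_prop)
  have h2 : IsOpen {p : ℝ × ℝ | p.2 < 3 / 2 * u d * p.1} :=
    isOpen_lt (by fun_prop) (by fun_prop)
  exact h1.inter h2

theorem gam_slope {d j : ℕ} {t : ℝ} (hj : j < d + 3) (ht0 : 0 ≤ t) (ht : t ≤ 1) :
    u d * (u d * t) ≤ (gam d j t).2 ∧ (gam d j t).2 ≤ 5 / 4 * (u d * (u d * t)) := by
  have hu := u_pos d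
  have hjb := j_bound d j hj
  have h1 : 0 ≤ (j : ℝ) * (u d * (1 - t)) := by
    have : 0 ≤ 1 - t := by linarith
    positivity
  have h2 : (j : ℝ) * (u d * (1 - t)) ≤ 1 / 4 := by
    have h3 : (j : ℝ) * (u d * (1 - t)) = (j * u d) * (1 - t) := by ring
    rw [h3]
    have h4 : 0 ≤ (j : ℝ) * u d := by positivity
    nlinarith
  have h3 : 0 ≤ u d * (u d * t) := by positivity
  simp only [gam]
  constructor <;> nlinarith

theorem gam_mem_Od {d j : ℕ} {t : ℝ} (hj : j < d + 3) (ht0 : 0 < t) (ht : t ≤ 1) :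
    gam d j t ∈ Od d := by
  obtain ⟨h1, h2⟩ := gam_slope hj ht0.le ht
  have hu := u_pos d
  have h3 : 0 < u d * (u d * t) := by positivity
  have h4 : (gam d j t).1 = u d * t := rfl
  constructor <;> rw [h4] <;> nlinarith

theorem zero_notMem_Od (d : ℕ) : (0 : ℝ × ℝ) ∉ Od d := by
  rintro ⟨h, -⟩
  simp at h

theorem gam_notMem_Od {d d' j : ℕ} {t : ℝ} (hne : d' ≠ d) (hj : j < d' + 3) (ht0 : 0 ≤ t)
    (ht : t ≤ 1) : gam d' j t ∉ Od d := by
  rintro ⟨h1, h2⟩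
  have h4 : (gam d' j t).1 = u d' * t := rfl
  rw [h4] at h1 h2
  obtain ⟨h5, h6⟩ := gam_slope hj ht0 ht
  have hu := u_pos d
  have hu' := u_pos d'
  have hx : 0 ≤ u d' * t := by positivity
  rcases lt_or_gt_of_ne hne with h | h
  · -- `u d' ≥ 2 u d`
    have := u_lt d' d h
    have h7 : 2 * u d * (u d' * t) ≤ u d' * (u d' * t) := by nlinarith
    nlinarith
  · have := u_lt d d' h
    have h7 : u d' * (u d' * t) ≤ u d / 2 * (u d' * t) := by nlinarith
    nlinarith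

theorem mem_XS_ne_zero {D : Set ℕ} {p : ℝ × ℝ} (hp : p ∈ XS D) (h0 : p ≠ 0) :
    ∃ d ∈ D, ∃ j < d + 3, ∃ t : ℝ, 0 < t ∧ t ≤ 1 ∧ p = gam d j t ∧ p ∈ Od d := by
  rcases hp with hp | ⟨d, hd, j, hj, t, ht0, ht, rfl⟩
  · exact absurd hp h0
  · rcases eq_or_lt_of_le ht0 with h | h
    · subst h
      exact absurd (gam_zero d j) h0
    · exact ⟨d, hd, j, hj, t, h, ht, rfl, gam_mem_Od hj h ht⟩

theorem mem_XS_Od {D : Set ℕ} {p : ℝ × ℝ} {d : ℕ} (hp : p ∈ XS D) (h : p ∈ Od d) :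
    d ∈ D ∧ ∃ j < d + 3, ∃ t : ℝ, 0 < t ∧ t ≤ 1 ∧ p = gam d j t := by
  have h0 : p ≠ 0 := fun h0 => zero_notMem_Od d (h0 ▸ h)
  obtain ⟨d', hd', j, hj, t, ht0, ht, rfl, -⟩ := mem_XS_ne_zero hp h0
  by_cases hne : d' = d
  · subst hne
    exact ⟨hd', j, hj, t, ht0, ht, rfl⟩
  · exact absurd h (gam_notMem_Od hne hj ht0.le ht)

/-- plane region of the `j`-th open arc of the `d`-th star -/
def Lg (d j : ℕ) : Set (ℝ × ℝ) :=
  {p | p.1 < u d ∧ ((j : ℝ) - 1 / 2) * (u d * p.1 * (u d - p.1)) < p.2 - u d * p.1 ∧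
    p.2 - u d * p.1 < ((j : ℝ) + 1 / 2) * (u d * p.1 * (u d - p.1))}

theorem isOpen_Lg (d j : ℕ) : IsOpen (Lg d j) := by
  have h1 : IsOpen {p : ℝ × ℝ | p.1 < u d} := isOpen_lt (by fun_prop) (by fun_prop)
  have h2 : IsOpen {p : ℝ × ℝ | ((j : ℝ) - 1 / 2) * (u d * p.1 * (u d - p.1)) <
      p.2 - u d * p.1} := isOpen_lt (by fun_prop) (by fun_prop)
  have h3 : IsOpen {p : ℝ × ℝ | p.2 - u d * p.1 <
      ((j : ℝ) + 1 / 2) * (u d * p.1 * (u d - p.1))} := isOpen_lt (by fun_prop) (by fun_prop)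
  exact h1.inter (h2.inter h3)

theorem gam_mem_Lg {d j j' : ℕ} {t : ℝ} (ht0 : 0 < t) (ht : t < 1) :
    gam d j t ∈ Lg d j' ↔ j = j' := by
  have hu := u_pos d
  have h4 : (gam d j t).1 = u d * t := rfl
  have h5 : (gam d j t).2 = u d * (u d * t) * (1 + j * (u d * (1 - t))) := rfl
  have h6 : (gam d j t).2 - u d * (gam d j t).1 = j * (u d * (gam d j t).1 * (u d - (gam d j t).1)) := by
    rw [h5, h4]; ring
  have h7 : 0 < u d * (gam d j t).1 * (u d - (gam d j t).1) := by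
    rw [h4]
    have : 0 < u d - u d * t := by nlinarith
    positivity
  constructor
  · rintro ⟨-, h1, h2⟩
    rw [h6] at h1 h2
    have h1' := lt_of_mul_lt_mul_right h1 h7.le
    have h2' := lt_of_mul_lt_mul_right h2 h7.le
    have h8 : (j' : ℝ) < j + 1 := by linarith
    have h9 : (j : ℝ) < j' + 1 := by linarith
    have h8' : j' < j + 1 := by exact_mod_cast h8
    have h9' : j < j' + 1 := by exact_mod_cast h9
    omega
  · rintro rfl
    refine ⟨by rw [h4]; nlinarith, ?_, ?_⟩ <;> rw [h6] <;> nlinarith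

theorem gam_one_notMem_Lg (d j j' : ℕ) : gam d j 1 ∉ Lg d j' := by
  rintro ⟨h, -⟩
  rw [gam_one] at h
  exact lt_irrefl _ h

theorem mem_Lg {D : Set ℕ} {p : ℝ × ℝ} {d j : ℕ} (hp : p ∈ XS D) (h : p ∈ Od d)
    (hl : p ∈ Lg d j) : j < d + 3 ∧ ∃ t : ℝ, 0 < t ∧ t < 1 ∧ p = gam d j t := by
  obtain ⟨-, j', hj', t, ht0, ht, rfl⟩ := mem_XS_Od hp h
  rcases eq_or_lt_of_le ht with h1 | h1
  · subst h1
    exact absurd hl (gam_one_notMem_Lg _ _ _)
  · have := (gam_mem_Lg ht0 h1).1 hl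
    subst this
    exact ⟨hj', t, ht0, h1, rfl⟩

theorem Lg_inj {D : Set ℕ} {p q : ℝ × ℝ} {d j : ℕ} (hp : p ∈ XS D) (hpO : p ∈ Od d)
    (hpl : p ∈ Lg d j) (hq : q ∈ XS D) (hqO : q ∈ Od d) (hql : q ∈ Lg d j) (h : p.1 = q.1) :
    p = q := by
  obtain ⟨-, t, -, -, rfl⟩ := mem_Lg hp hpO hpl
  obtain ⟨-, t', -, -, rfl⟩ := mem_Lg hq hqO hql
  have hu := u_pos d
  have h1 : u d * t = u d * t' := h
  have h2 : t = t' := mul_left_cancel₀ hu.ne' h1
  rw [h2]

open Classical in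
/-- depth along the `j`-th arc -/
noncomputable def gd (d j : ℕ) (p : ℝ × ℝ) : ℝ := if p ∈ Lg d j then p.1 else u d

section tree

variable {D : Set ℕ}

theorem gd_of_mem {d j : ℕ} {p : ℝ × ℝ} (h : p ∈ Lg d j) : gd d j p = p.1 := by
  classical
  simp [gd, h]

theorem gd_of_notMem {d j : ℕ} {p : ℝ × ℝ} (h : p ∉ Lg d j) : gd d j p = u d := by
  classical
  simp [gd, h]

theorem gd_le {d j : ℕ} (p : ℝ × ℝ) : gd d j p ≤ u d := by
  by_cases h : p ∈ Lg d j
  · rw [gd_of_mem h]; exact h.1.le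
  · rw [gd_of_notMem h]

theorem mem_of_gd_lt {d j : ℕ} {p : ℝ × ℝ} (h : gd d j p < u d) : p ∈ Lg d j := by
  by_contra hn
  rw [gd_of_notMem hn] at h
  exact lt_irrefl _ h

/-- intermediate value property -/
theorem ivt {d j : ℕ} {C : Set (XS D)} (hC : IsPreconnected C) (hCO : ∀ p ∈ C, (p : ℝ × ℝ) ∈ Od d)
    {p q : XS D} (hp : p ∈ C) (hq : q ∈ C) {s : ℝ} (h1 : gd d j p < s) (h2 : s < gd d j q) :
    ∃ r ∈ C, (r : ℝ × ℝ) ∈ Lg d j ∧ (r : ℝ × ℝ).1 = s := by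
  by_contra hcon
  push Not at hcon
  have hsu : s < u d := lt_of_lt_of_le h2 (gd_le _)
  let F : Set (XS D) := {r | (r : ℝ × ℝ) ∈ Lg d j ∧ (r : ℝ × ℝ).1 < s}
  let N : Set (XS D) := {r | s < (r : ℝ × ℝ).1 ∨ ∃ j', j' ≠ j ∧ (r : ℝ × ℝ) ∈ Lg d j'}
  have hF : IsOpen F := by
    refine IsOpen.inter ((isOpen_Lg d j).preimage continuous_subtype_val) ?_
    exact isOpen_lt (continuous_fst.comp continuous_subtype_val) continuous_const
  have hN : IsOpen N := by
    refine IsOpen.union (isOpen_lt continuous_const (continuous_fst.comp continuous_subtype_val)) ?_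
    have : {r : XS D | ∃ j', j' ≠ j ∧ (r : ℝ × ℝ) ∈ Lg d j'} =
        ⋃ j' ∈ {j' : ℕ | j' ≠ j}, Subtype.val ⁻¹' (Lg d j') := by
      ext r; simp
    show IsOpen {r : XS D | ∃ j', j' ≠ j ∧ (r : ℝ × ℝ) ∈ Lg d j'}
    rw [this]
    exact isOpen_biUnion fun j' _ => (isOpen_Lg d j').preimage continuous_subtype_val
  have hcov : C ⊆ F ∪ N := by
    intro r hr
    obtain ⟨-, j', hj', t, ht0, ht, hrt⟩ := mem_XS_Od r.2 (hCO r hr)
    by_cases hl : (r : ℝ × ℝ) ∈ Lg d j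
    · rcases lt_trichotomy (r : ℝ × ℝ).1 s with h | h | h
      · exact Or.inl ⟨hl, h⟩
      · exact absurd h (hcon r hr hl)
      · exact Or.inr (Or.inl h)
    · rcases eq_or_lt_of_le ht with ht1 | ht1
      · refine Or.inr (Or.inl ?_)
        subst ht1
        rw [hrt, gam_one]
        exact hsu
      · refine Or.inr (Or.inr ⟨j', ?_, ?_⟩)
        · rintro rfl
          exact hl (hrt ▸ (gam_mem_Lg ht0 ht1).2 rfl)
        · rw [hrt]; exact (gam_mem_Lg ht0 ht1).2 rfl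
  have hpF : p ∈ F := by
    have : (p : ℝ × ℝ) ∈ Lg d j := mem_of_gd_lt (h1.trans hsu)
    refine ⟨this, ?_⟩
    rwa [gd_of_mem this] at h1
  have hqN : q ∈ N := by
    by_cases hl : (q : ℝ × ℝ) ∈ Lg d j
    · rw [gd_of_mem hl] at h2
      exact Or.inl h2
    · obtain ⟨-, j', hj', t, ht0, ht, hrt⟩ := mem_XS_Od q.2 (hCO q hq)
      rcases eq_or_lt_of_le ht with ht1 | ht1
      · refine Or.inl ?_
        subst ht1
        rw [hrt, gam_one]
        exact hsu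
      · refine Or.inr ⟨j', ?_, ?_⟩
        · rintro rfl
          exact hl (hrt ▸ (gam_mem_Lg ht0 ht1).2 rfl)
        · rw [hrt]; exact (gam_mem_Lg ht0 ht1).2 rfl
  obtain ⟨r, hrC, hrF, hrN⟩ := hC F N hF hN hcov ⟨p, hp, hpF⟩ ⟨q, hq, hqN⟩
  rcases hrN with h | ⟨j', hne, hl⟩
  · exact absurd hrF.2 (not_lt.2 h.le)
  · obtain ⟨-, t, ht0, ht, hrt⟩ := mem_Lg r.2 (hCO r hrC) hrF.1
    rw [hrt] at hl
    exact hne ((gam_mem_Lg ht0 ht).1 hl).symm

theorem subset_Od {d : ℕ} {C : Set (XS D)} (hC : IsPreconnected C)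
    (hC0 : ∀ p ∈ C, (p : ℝ × ℝ) ≠ 0) {p : XS D} (hp : p ∈ C) (hpO : (p : ℝ × ℝ) ∈ Od d) :
    ∀ q ∈ C, (q : ℝ × ℝ) ∈ Od d := by
  let U : Set (XS D) := Subtype.val ⁻¹' (Od d)
  let V : Set (XS D) := ⋃ d' ∈ {d' : ℕ | d' ≠ d}, Subtype.val ⁻¹' (Od d')
  have hU : IsOpen U := (isOpen_Od d).preimage continuous_subtype_val
  have hV : IsOpen V := isOpen_biUnion fun d' _ => (isOpen_Od d').preimage continuous_subtype_val
  have hUV : Disjoint U V := by
    rw [Set.disjoint_left]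
    intro r hr hr'
    simp only [V, mem_iUnion] at hr'
    obtain ⟨d', hne, hd'⟩ := hr'
    obtain ⟨-, j, hj, t, ht0, ht, hrt⟩ := mem_XS_Od r.2 hr
    have hd'' : (r : ℝ × ℝ) ∈ Od d' := hd'
    rw [hrt] at hd''
    exact gam_notMem_Od (Ne.symm hne) hj ht0.le ht hd''
  have hcov : C ⊆ U ∪ V := by
    intro r hr
    obtain ⟨d', -, j, hj, t, ht0, ht, hrt, hO⟩ := mem_XS_ne_zero r.2 (hC0 r hr)
    by_cases hne : d' = d
    · subst hne; exact Or.inl hO
    · refine Or.inr ?_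
      simp only [V, mem_iUnion]
      exact ⟨d', hne, hO⟩
  exact fun q hq => hC.subset_left_of_subset_union hU hV hUV hcov ⟨p, hp, hpO⟩ hq

/-- two different arms cannot both cross the same depth of the same arc -/
theorem clash {n d j : ℕ} {K : Set (XS D)} {A : ℕ → Set (XS D)} {y z : ℕ → XS D}
    (hC : Config n K A y z) (hAO : ∀ i < n, ∀ p ∈ A i, (p : ℝ × ℝ) ∈ Od d)
    {i i' : ℕ} (hi : i < n) (hi' : i' < n) (hne : i ≠ i') {p q p' q' : XS D}
    (hp : p ∈ A i) (hq : q ∈ A i) (hp' : p' ∈ A i') (hq' : q' ∈ A i')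
    (h : max (gd d j p) (gd d j p') < min (gd d j q) (gd d j q')) : False := by
  obtain ⟨s, hs1, hs2⟩ := exists_between h
  rw [max_lt_iff] at hs1
  rw [lt_min_iff] at hs2
  obtain ⟨r, hr, hrl, hrs⟩ := ivt (hC.armC i hi) (hAO i hi) hp hq hs1.1 hs2.1
  obtain ⟨r', hr', hrl', hrs'⟩ := ivt (hC.armC i' hi') (hAO i' hi') hp' hq' hs1.2 hs2.2
  have : r = r' := Subtype.ext (Lg_inj r.2 (hAO i hi r hr) hrl r'.2 (hAO i' hi' r' hr') hrl'
    (hrs.trans hrs'.symm))
  subst this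
  exact Set.disjoint_left.1 (hC.disj i hi i' hi' hne) hr hr'

theorem tree_aux {n d : ℕ} {K : Set (XS D)} {A : ℕ → Set (XS D)} {y z : ℕ → XS D} (hn : 3 ≤ n)
    (hC : Config n K A y z) (hKO : ∀ p ∈ K, (p : ℝ × ℝ) ∈ Od d)
    (hAO : ∀ i < n, ∀ p ∈ A i, (p : ℝ × ℝ) ∈ Od d) :
    n ≤ d + 3 ∧ ∃ p ∈ K, (p : ℝ × ℝ) = (u d, u d * u d) := by
  have hz0 : z 0 ∈ K := hC.zK 0 (by omega)
  by_cases hc : ∃ p ∈ K, (p : ℝ × ℝ) = (u d, u d * u d)
  · refine ⟨?_, hc⟩
    obtain ⟨c, hcK, hc⟩ := hc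
    have hcl : ∀ j, (c : ℝ × ℝ) ∉ Lg d j := by
      intro j h
      rw [hc] at h
      exact lt_irrefl _ h.1
    have hj : ∀ i, ∃ j, i < n → j < d + 3 ∧ (y i : ℝ × ℝ) ∈ Lg d j := by
      intro i
      by_cases hi : i < n
      · obtain ⟨-, j', hj', t, ht0, ht, hrt⟩ := mem_XS_Od (y i).2 (hAO i hi _ (hC.yA i hi))
        rcases eq_or_lt_of_le ht with h1 | h1
        · exfalso
          subst h1
          rw [gam_one, ← hc] at hrt
          have : y i = c := Subtype.ext hrt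
          exact hC.yK i hi (this ▸ hcK)
        · exact ⟨j', fun _ => ⟨hj', by rw [hrt]; exact (gam_mem_Lg ht0 h1).2 rfl⟩⟩
      · exact ⟨0, fun h => absurd h hi⟩
    choose f hf using hj
    by_contra hlt
    push Not at hlt
    obtain ⟨i, hi, i', hi', hne, hff⟩ := Finset.exists_ne_map_eq_of_card_lt_of_maps_to
      (s := Finset.range n) (t := Finset.range (d + 3)) (by simpa using hlt) (f := f)
      (fun i hi => Finset.mem_coe.2 (Finset.mem_range.2 (hf i (Finset.mem_range.1 hi)).1))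
    rw [Finset.mem_range] at hi hi'
    -- every point of the core is nearer to the centre than `y i`
    have key : ∀ i < n, ∀ k ∈ K, gd d (f i) (y i) < gd d (f i) k := by
      intro i hi k hk
      obtain ⟨-, hl⟩ := hf i hi
      by_contra hle
      push Not at hle
      have hgy : gd d (f i) (y i) < u d := by rw [gd_of_mem hl]; exact hl.1
      rcases eq_or_lt_of_le hle with h | h
      · have hkl : (k : ℝ × ℝ) ∈ Lg d (f i) := mem_of_gd_lt (h ▸ hgy)
        rw [gd_of_mem hl, gd_of_mem hkl] at h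
        have : k = y i := Subtype.ext (Lg_inj k.2 (hKO k hk) hkl (y i).2
          (hAO i hi _ (hC.yA i hi)) hl h)
        exact hC.yK i hi (this ▸ hk)
      · obtain ⟨r, hr, hrl, hrs⟩ := ivt hC.coreC hKO hk hcK h
          (by rw [gd_of_notMem (hcl (f i))]; exact hgy)
        rw [gd_of_mem hl] at hrs
        have : r = y i := Subtype.ext (Lg_inj r.2 (hKO r hr) hrl (y i).2
          (hAO i hi _ (hC.yA i hi)) hl hrs)
        exact hC.yK i hi (this ▸ hr)
    refine clash (j := f i) hC hAO hi hi' hne (hC.yA i hi) (hC.zA i hi) (hC.yA i' hi')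
      (hC.zA i' hi') ?_
    rw [max_lt_iff, lt_min_iff, lt_min_iff]
    refine ⟨⟨key i hi _ (hC.zK i hi), key i hi _ (hC.zK i' hi')⟩, ?_, ?_⟩
    · rw [hff]; exact key i' hi' _ (hC.zK i hi)
    · rw [hff]; exact key i' hi' _ (hC.zK i' hi')
  · exfalso
    push Not at hc
    -- the core lies in one open arc
    have hleg : ∀ k ∈ K, ∃ j, (k : ℝ × ℝ) ∈ Lg d j := by
      intro k hk
      obtain ⟨-, j', hj', t, ht0, ht, hrt⟩ := mem_XS_Od k.2 (hKO k hk)
      rcases eq_or_lt_of_le ht with h1 | h1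
      · exfalso
        subst h1
        rw [gam_one] at hrt
        exact hc k hk hrt
      · exact ⟨j', by rw [hrt]; exact (gam_mem_Lg ht0 h1).2 rfl⟩
    obtain ⟨j, hj⟩ := hleg _ hz0
    have hKl : ∀ k ∈ K, (k : ℝ × ℝ) ∈ Lg d j := by
      have hU : IsOpen (Subtype.val ⁻¹' (Lg d j) : Set (XS D)) :=
        (isOpen_Lg d j).preimage continuous_subtype_val
      have hV : IsOpen (⋃ j' ∈ {j' : ℕ | j' ≠ j}, (Subtype.val ⁻¹' (Lg d j' ∩ Od d)) :
          Set (XS D)) :=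
        isOpen_biUnion fun j' _ =>
          ((isOpen_Lg d j').inter (isOpen_Od d)).preimage continuous_subtype_val
      have hUV : Disjoint (Subtype.val ⁻¹' (Lg d j) : Set (XS D))
          (⋃ j' ∈ {j' : ℕ | j' ≠ j}, (Subtype.val ⁻¹' (Lg d j' ∩ Od d))) := by
        rw [Set.disjoint_left]
        intro r hr hr'
        simp only [mem_iUnion] at hr'
        obtain ⟨j', hne, hl, hO⟩ := hr'
        obtain ⟨-, t, ht0, ht, hrt⟩ := mem_Lg r.2 hO hl
        have hr2 : (r : ℝ × ℝ) ∈ Lg d j := hr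
        rw [hrt] at hr2
        exact hne ((gam_mem_Lg ht0 ht).1 hr2)
      have hcov : K ⊆ (Subtype.val ⁻¹' (Lg d j) : Set (XS D)) ∪
          (⋃ j' ∈ {j' : ℕ | j' ≠ j}, (Subtype.val ⁻¹' (Lg d j' ∩ Od d))) := by
        intro k hk
        obtain ⟨j', hj'⟩ := hleg k hk
        by_cases h : j' = j
        · subst h; exact Or.inl hj'
        · refine Or.inr ?_
          simp only [mem_iUnion]
          exact ⟨j', h, hj', hKO k hk⟩
      exact fun k hk => hC.coreC.subset_left_of_subset_union hU hV hUV hcov ⟨z 0, hz0, hj⟩ hk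
    have hgK : ∀ k ∈ K, gd d j k < u d := fun k hk => by
      rw [gd_of_mem (hKl k hk)]; exact (hKl k hk).1
    have kind : ∀ i < n, (∀ k ∈ K, gd d j (y i) < gd d j k) ∨ (∀ k ∈ K, gd d j k < gd d j (y i)) := by
      intro i hi
      by_contra hcon
      push Not at hcon
      obtain ⟨⟨k1, hk1, h1⟩, ⟨k2, hk2, h2⟩⟩ := hcon
      have hyu : gd d j (y i) < u d := lt_of_le_of_lt h2 (hgK k2 hk2)
      have hyl : (y i : ℝ × ℝ) ∈ Lg d j := mem_of_gd_lt hyu
      have heq : ∀ k ∈ K, gd d j k ≠ gd d j (y i) := by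
        intro k hk h
        rw [gd_of_mem (hKl k hk), gd_of_mem hyl] at h
        have : k = y i := Subtype.ext (Lg_inj k.2 (hKO k hk) (hKl k hk) (y i).2
          (hAO i hi _ (hC.yA i hi)) hyl h)
        exact hC.yK i hi (this ▸ hk)
      obtain ⟨r, hr, hrl, hrs⟩ := ivt hC.coreC hKO hk1 hk2
        (lt_of_le_of_ne h1 (heq k1 hk1)) (lt_of_le_of_ne h2 (heq k2 hk2).symm)
      exact heq r hr (by rw [gd_of_mem hrl, hrs])
    have clashA : ∀ i < n, ∀ i' < n, i ≠ i' → (∀ k ∈ K, gd d j (y i) < gd d j k) →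
        (∀ k ∈ K, gd d j (y i') < gd d j k) → False := by
      intro i hi i' hi' hne h1 h2
      refine clash (j := j) hC hAO hi hi' hne (hC.yA i hi) (hC.zA i hi) (hC.yA i' hi')
        (hC.zA i' hi') ?_
      rw [max_lt_iff, lt_min_iff, lt_min_iff]
      exact ⟨⟨h1 _ (hC.zK i hi), h1 _ (hC.zK i' hi')⟩, h2 _ (hC.zK i hi), h2 _ (hC.zK i' hi')⟩
    have clashB : ∀ i < n, ∀ i' < n, i ≠ i' → (∀ k ∈ K, gd d j k < gd d j (y i)) →
        (∀ k ∈ K, gd d j k < gd d j (y i')) → False := by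
      intro i hi i' hi' hne h1 h2
      refine clash (j := j) hC hAO hi hi' hne (hC.zA i hi) (hC.yA i hi) (hC.zA i' hi')
        (hC.yA i' hi') ?_
      rw [max_lt_iff, lt_min_iff, lt_min_iff]
      exact ⟨⟨h1 _ (hC.zK i hi), h2 _ (hC.zK i hi)⟩, h1 _ (hC.zK i' hi'), h2 _ (hC.zK i' hi')⟩
    have h0 := kind 0 (by omega)
    have h1 := kind 1 (by omega)
    have h2 := kind 2 (by omega)
    rcases h0 with h0 | h0 <;> rcases h1 with h1 | h1 <;> rcases h2 with h2 | h2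
    · exact clashA 0 (by omega) 1 (by omega) (by omega) h0 h1
    · exact clashA 0 (by omega) 1 (by omega) (by omega) h0 h1
    · exact clashA 0 (by omega) 2 (by omega) (by omega) h0 h2
    · exact clashB 1 (by omega) 2 (by omega) (by omega) h1 h2
    · exact clashA 1 (by omega) 2 (by omega) (by omega) h1 h2
    · exact clashB 0 (by omega) 2 (by omega) (by omega) h0 h2
    · exact clashB 0 (by omega) 1 (by omega) (by omega) h0 h1
    · exact clashB 0 (by omega) 1 (by omega) (by omega) h0 h1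

end tree

end Low4
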