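import Pool.Agent.Hhelper75.Low4.Space
import Pool.Agent.Hhelper75.Low4.Defs

namespace Low4

open Metric Set

variable {D : Set ℕ}

theorem gam_mem_XS {d j : ℕ} {t : ℝ} (hd : d ∈ D) (hj : j < d + 3) (h0 : 0 ≤ t) (h1 : t ≤ 1) :
    gam d j t ∈ XS D := Or.inr ⟨d, hd, j, hj, t, h0, h1, rfl⟩

/-- the base point -/
def oX (D : Set ℕ) : XS D := ⟨0, Or.inl rfl⟩

open Classical in
/-- the centres -/
noncomputable def cX (D : Set ℕ) (d : ℕ) : XS D :=
  if h : d ∈ D then ⟨gam d 0 1, gam_mem_XS h (by omega) zero_le_one le_rfl⟩ else oX D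

theorem cX_val {d : ℕ} (h : d ∈ D) : ((cX D d : XS D) : ℝ × ℝ) = (u d, u d * u d) := by
  rw [cX, dif_pos h]
  exact gam_one d 0

/-- clamping to the unit interval -/
noncomputable def cl (t : ℝ) : ℝ := max 0 (min 1 t)

theorem cl_nonneg (t : ℝ) : 0 ≤ cl t := le_max_left _ _
theorem cl_le (t : ℝ) : cl t ≤ 1 := max_le zero_le_one (min_le_left _ _)
theorem cl_eq {t : ℝ} (h0 : 0 ≤ t) (h1 : t ≤ 1) : cl t = t := by
  unfold cl; rw [min_eq_right h1, max_eq_right h0]
theorem continuous_cl : Continuous cl := by unfold cl; fun_prop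

/-- the arcs as paths in the space -/
noncomputable def path {d : ℕ} (hd : d ∈ D) (j : ℕ) (t : ℝ) : XS D :=
  ⟨gam d (j % (d + 3)) (cl t), gam_mem_XS hd (Nat.mod_lt _ (by omega)) (cl_nonneg t) (cl_le t)⟩

theorem continuous_path {d : ℕ} (hd : d ∈ D) (j : ℕ) : Continuous (path hd j) :=
  ((continuous_gam d _).comp continuous_cl).subtype_mk _

theorem path_val {d : ℕ} (hd : d ∈ D) {j : ℕ} (hj : j < d + 3) {t : ℝ} (h0 : 0 ≤ t) (h1 : t ≤ 1) :
    (path hd j t : ℝ × ℝ) = gam d j t := by
  simp only [path]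
  rw [cl_eq h0 h1, Nat.mod_eq_of_lt hj]

theorem path_one {d : ℕ} (hd : d ∈ D) (j : ℕ) : path hd j 1 = cX D d := by
  apply Subtype.ext
  rw [cX_val hd]
  simp only [path]
  rw [cl_eq zero_le_one le_rfl, gam_one]

theorem u_tendsto {ε : ℝ} (hε : 0 < ε) : ∃ N, ∀ d ≥ N, u d < ε := by
  obtain ⟨N, hN⟩ := exists_pow_lt_of_lt_one hε (by norm_num : (1 / 2 : ℝ) < 1)
  refine ⟨N, fun d hd => ?_⟩
  have h1 : u d ≤ (1 / 2) ^ N := by
    unfold u
    rw [one_div_pow]
    exact one_div_le_one_div_of_le (by positivity) (pow_le_pow_right₀ (by norm_num) (by omega))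
  linarith

theorem u_le_one (d : ℕ) : u d ≤ 1 := by
  unfold u
  rw [div_le_one (by positivity)]
  exact one_le_pow₀ (by norm_num)

theorem isFan_XS (D : Set ℕ) : IsFan D (XS D) (oX D) (cX D) := by
  refine ⟨?_, ?_, ?_, ?_⟩
  · -- decoding of configurations
    intro n K A y z hn hC hoK hoA
    have hK0 : ∀ p ∈ K, (p : ℝ × ℝ) ≠ 0 := fun p hp h => hoK (by
      have : p = oX D := Subtype.ext h
      rwa [this] at hp)
    have hz0 : z 0 ∈ K := hC.zK 0 (by omega)
    obtain ⟨d, hd, -, -, -, -, -, -, hO⟩ := mem_XS_ne_zero (z 0).2 (hK0 _ hz0)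
    have hKO := subset_Od hC.coreC hK0 hz0 hO
    have hAO : ∀ i < n, ∀ p ∈ A i, (p : ℝ × ℝ) ∈ Od d := by
      intro i hi
      refine subset_Od (hC.armC i hi) ?_ (hC.zA i hi) (hKO _ (hC.zK i hi))
      intro p hp h
      apply hoA i hi
      have : p = oX D := Subtype.ext h
      rwa [this] at hp
    obtain ⟨h1, p, hp, hpc⟩ := tree_aux hn hC hKO hAO
    refine ⟨d, hd, h1, ?_⟩
    have : cX D d = p := Subtype.ext ((cX_val hd).trans hpc.symm)
    rw [this]; exact hp
  · -- small configurations near the centres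
    intro d hd U hU hcU S hS
    have hu := u_pos d
    have hev : ∀ᶠ t in nhds (1 : ℝ), ∀ j ∈ Finset.range (d + 3), path hd j t ∈ U := by
      refine (Finset.eventually_all _).2 fun j _ => ?_
      have : Filter.Tendsto (path hd j) (nhds 1) (nhds (path hd j 1)) :=
        (continuous_path hd j).tendsto 1
      exact this.eventually (hU.mem_nhds (by rw [path_one]; exact hcU))
    obtain ⟨δ', hδ', hball⟩ := Metric.eventually_nhds_iff.1 hev
    obtain ⟨δ, hδ, hδ1, hδU⟩ : ∃ δ : ℝ, 0 < δ ∧ δ < 1 ∧ ∀ t, 1 - δ < t → t ≤ 1 →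
        ∀ j < d + 3, path hd j t ∈ U := by
      refine ⟨min δ' 1 / 2, by positivity, ?_, ?_⟩
      · have := min_le_right δ' 1
        linarith
      · intro t ht1 ht2 j hj
        refine hball ?_ j (Finset.mem_range.2 hj)
        have := min_le_left δ' 1
        rw [Real.dist_eq, abs_lt]
        constructor <;> linarith
    -- dense points on the arcs
    have hpt : ∀ (a b : ℝ), 0 < a → a < b → b ≤ 1 → ∀ j, ∃ (p : XS D) (t : ℝ), j < d + 3 →
        p ∈ S ∧ a < t ∧ t < b ∧ (p : ℝ × ℝ) = gam d j t := by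
      intro a b ha hab hb j
      by_cases hj : j < d + 3
      · let W : Set (XS D) := {p | (p : ℝ × ℝ) ∈ Od d ∧ (p : ℝ × ℝ) ∈ Lg d j ∧
          u d * a < (p : ℝ × ℝ).1 ∧ (p : ℝ × ℝ).1 < u d * b}
        have hW : IsOpen W := by
          refine IsOpen.inter ((isOpen_Od d).preimage continuous_subtype_val)
            (IsOpen.inter ((isOpen_Lg d j).preimage continuous_subtype_val)
            (IsOpen.inter ?_ ?_))
          · exact isOpen_lt continuous_const (continuous_fst.comp continuous_subtype_val)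
          · exact isOpen_lt (continuous_fst.comp continuous_subtype_val) continuous_const
        obtain ⟨m, hm1, hm2⟩ := exists_between hab
        have hne : W.Nonempty := by
          refine ⟨path hd j m, ?_⟩
          have hv := path_val hd hj (t := m) (by linarith) (by linarith)
          refine ⟨?_, ?_, ?_, ?_⟩
          · rw [hv]; exact gam_mem_Od hj (by linarith) (by linarith)
          · rw [hv]; exact (gam_mem_Lg (by linarith) (by linarith)).2 rfl
          · rw [hv]; exact mul_lt_mul_of_pos_left hm1 hu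
          · rw [hv]; exact mul_lt_mul_of_pos_left hm2 hu
        obtain ⟨p, hpS, hpW⟩ := hS.exists_mem_open hW hne
        obtain ⟨hO, hL, h1, h2⟩ := hpW
        obtain ⟨-, t, ht0, ht1, hpt⟩ := mem_Lg p.2 hO hL
        refine ⟨p, t, fun _ => ⟨hpS, ?_, ?_, hpt⟩⟩
        · rw [hpt] at h1
          exact lt_of_mul_lt_mul_left h1 hu.le
        · rw [hpt] at h2
          exact lt_of_mul_lt_mul_left h2 hu.le
      · exact ⟨oX D, 0, fun h => absurd h hj⟩
    choose z tz hz using hpt (1 - δ / 2) 1 (by linarith) (by linarith) le_rfl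
    choose y ty hy using hpt (1 - δ) (1 - δ / 2) (by linarith) (by linarith) (by linarith)
    have hzp : ∀ j < d + 3, z j = path hd j (tz j) := by
      intro j hj
      obtain ⟨-, h1, h2, h3⟩ := hz j hj
      exact Subtype.ext (by rw [path_val hd hj (by linarith) (by linarith)]; exact h3)
    have hyp : ∀ j < d + 3, y j = path hd j (ty j) := by
      intro j hj
      obtain ⟨-, h1, h2, h3⟩ := hy j hj
      exact Subtype.ext (by rw [path_val hd hj (by linarith) (by linarith)]; exact h3)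
    refine ⟨⋃ j ∈ Finset.range (d + 3), path hd j '' Icc (tz j) 1,
      fun j => path hd j '' Icc (ty j) (tz j), y, z, ?_, ?_, ?_, ?_⟩
    · refine ⟨?_, ?_, ?_, ?_, ?_, ?_, ?_⟩
      · have : (⋃ j ∈ Finset.range (d + 3), path hd j '' Icc (tz j) 1) =
            ⋃₀ ((fun j => path hd j '' Icc (tz j) 1) '' {j | j < d + 3}) := by
          ext p; simp
        rw [this]
        refine isPreconnected_sUnion (cX D d) _ ?_ ?_
        · rintro _ ⟨j, hj, rfl⟩
          exact ⟨1, ⟨(hz j hj).2.2.1.le, le_rfl⟩, path_one hd j⟩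
        · rintro _ ⟨j, hj, rfl⟩
          exact isPreconnected_Icc.image _ (continuous_path hd j).continuousOn
      · intro j _
        exact isPreconnected_Icc.image _ (continuous_path hd j).continuousOn
      · intro j hj
        rw [mem_iUnion₂]
        refine ⟨j, Finset.mem_range.2 hj, tz j, ⟨le_rfl, (hz j hj).2.2.1.le⟩, (hzp j hj).symm⟩
      · intro j hj
        have h1 := (hz j hj).2.1
        have h2 := (hy j hj).2.2.1
        exact ⟨tz j, ⟨by linarith, le_rfl⟩, (hzp j hj).symm⟩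
      · intro j hj
        have h1 := (hz j hj).2.1
        have h2 := (hy j hj).2.2.1
        exact ⟨ty j, ⟨le_rfl, by linarith⟩, (hyp j hj).symm⟩
      · intro j hj hmem
        rw [mem_iUnion₂] at hmem
        obtain ⟨i, hi, t, ht, hpt⟩ := hmem
        rw [Finset.mem_range] at hi
        have h1 := (hz i hi).2.1
        have h2 := (hy j hj).2.2.1
        have h3 := (hy j hj).2.2.2
        have h4 : (path hd i t : ℝ × ℝ) = gam d i t := path_val hd hi (by linarith [ht.1]) ht.2
        rw [← hpt, h4] at h3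
        have h5 : u d * t = u d * ty j := congrArg Prod.fst h3
        have h6 : t = ty j := mul_left_cancel₀ hu.ne' h5
        linarith [ht.1]
      · intro i hi j hj hne
        rw [Set.disjoint_left]
        rintro p ⟨t, ht, rfl⟩ ⟨t', ht', hpt⟩
        have a1 := (hz i hi).2.2.1
        have a2 := (hy i hi).2.1
        have a3 := (hz j hj).2.2.1
        have a4 := (hy j hj).2.1
        have h4 : (path hd i t : ℝ × ℝ) = gam d i t :=
          path_val hd hi (by linarith [ht.1]) (by linarith [ht.2])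
        have h5 : (path hd j t' : ℝ × ℝ) = gam d j t' :=
          path_val hd hj (by linarith [ht'.1]) (by linarith [ht'.2])
        have h6 : gam d j t' = gam d i t := by rw [← h4, ← h5, hpt]
        have h7 : gam d i t ∈ Lg d i := (gam_mem_Lg (by linarith [ht.1]) (by linarith [ht.2])).2 rfl
        rw [← h6] at h7
        exact hne ((gam_mem_Lg (by linarith [ht'.1]) (by linarith [ht'.2])).1 h7).symm
    · exact (Finset.range (d + 3)).isCompact_biUnion fun j _ =>
        isCompact_Icc.image (continuous_path hd j)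
    · intro p hp
      rw [mem_iUnion₂] at hp
      obtain ⟨j, hj, t, ht, rfl⟩ := hp
      rw [Finset.mem_range] at hj
      have h1 := (hz j hj).2.1
      exact hδU t (by linarith [ht.1]) ht.2 j hj
    · intro j hj
      refine ⟨isCompact_Icc.image (continuous_path hd j), ?_, (hy j hj).1, (hz j hj).1⟩
      rintro p ⟨t, ht, rfl⟩
      have h1 := (hy j hj).2.1
      have h2 := (hz j hj).2.2.1
      exact hδU t (by linarith [ht.1]) (by linarith [ht.2]) j hj
  · intro U hU hoU
    obtain ⟨ε, hε, hball⟩ := Metric.isOpen_iff.1 hU _ hoU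
    obtain ⟨N, hN⟩ := u_tendsto hε
    refine ⟨N, fun d hd hdD => hball ?_⟩
    rw [mem_ball, Subtype.dist_eq, cX_val hdD]
    have h0 : ((oX D : XS D) : ℝ × ℝ) = (0, 0) := rfl
    rw [h0, Prod.dist_eq, max_lt_iff]
    have hu := u_pos d
    have h1 := hN d hd
    have h2 := u_le_one d
    simp only [dist_zero_right, Real.norm_eq_abs]
    rw [abs_of_pos hu, abs_of_pos (mul_pos hu hu)]
    exact ⟨h1, by nlinarith⟩
  · intro d hd
    refine ⟨Subtype.val ⁻¹' (Od d), (isOpen_Od d).preimage continuous_subtype_val, ?_, ?_, ?_⟩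
    · show ((cX D d : XS D) : ℝ × ℝ) ∈ Od d
      rw [cX_val hd, ← gam_one d 0]
      exact gam_mem_Od (by omega) one_pos le_rfl
    · exact zero_notMem_Od d
    · intro d' hd' hmem
      by_contra hne
      have h1 : ((cX D d' : XS D) : ℝ × ℝ) ∈ Od d := hmem
      rw [cX_val hd', ← gam_one d' 0] at h1
      exact gam_notMem_Od hne (by omega) zero_le_one le_rfl h1

theorem dist_gam_zero {d j : ℕ} {t : ℝ} (hj : j < d + 3) (h0 : 0 ≤ t) (h1 : t ≤ 1) :
    dist (gam d j t) 0 ≤ u d := by
  have hu := u_pos d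
  have h2 := u_le_one d
  obtain ⟨h3, h4⟩ := gam_slope hj h0 h1
  have h5 : (gam d j t).1 = u d * t := rfl
  have h8 : u d ≤ 1 / 2 := by
    unfold u
    exact one_div_le_one_div_of_le (by norm_num)
      (by calc (2 : ℝ) = 2 ^ 1 := by norm_num
          _ ≤ 2 ^ (d + 3) := pow_le_pow_right₀ (by norm_num) (by omega))
  have h6 : 0 ≤ u d * t := by positivity
  have h7 : u d * t ≤ u d := by nlinarith
  rw [Prod.dist_eq, max_le_iff]
  simp only [Prod.fst_zero, Prod.snd_zero, dist_zero_right, Real.norm_eq_abs]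
  rw [h5, abs_of_nonneg h6, abs_of_nonneg (le_trans (by positivity) h3)]
  refine ⟨h7, ?_⟩
  nlinarith

theorem isCompact_XS (D : Set ℕ) : IsCompact (XS D) := by
  refine isCompact_of_finite_subcover fun {ι} U hU hcov => ?_
  obtain ⟨i0, hi0⟩ := mem_iUnion.1 (hcov (Or.inl rfl : (0 : ℝ × ℝ) ∈ XS D))
  obtain ⟨ε, hε, hball⟩ := Metric.isOpen_iff.1 (hU i0) _ hi0
  obtain ⟨N, hN⟩ := u_tendsto hε
  let T : Set (ℝ × ℝ) := ⋃ d ∈ {d | d < N ∧ d ∈ D}, ⋃ j ∈ {j | j < d + 3}, gam d j '' Icc 0 1
  have hT : IsCompact T := by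
    have hfin : {d | d < N ∧ d ∈ D}.Finite := (Set.finite_lt_nat N).subset fun d hd => hd.1
    refine hfin.isCompact_biUnion fun d _ => ?_
    exact (Set.finite_lt_nat (d + 3)).isCompact_biUnion fun j _ =>
      isCompact_Icc.image (continuous_gam d j)
  have hTX : T ⊆ XS D := by
    intro p hp
    simp only [T, mem_iUnion] at hp
    obtain ⟨d, ⟨-, hd⟩, j, hj, t, ht, rfl⟩ := hp
    exact gam_mem_XS hd hj ht.1 ht.2
  obtain ⟨t, ht⟩ := hT.elim_finite_subcover U hU (hTX.trans hcov)
  classical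
  refine ⟨insert i0 t, ?_⟩
  intro p hp
  rcases hp with rfl | ⟨d, hd, j, hj, s, hs0, hs1, rfl⟩
  · exact mem_iUnion₂.2 ⟨i0, Finset.mem_insert_self _ _, hi0⟩
  · by_cases hdN : d < N
    · have : gam d j s ∈ T := by
        simp only [T, mem_iUnion]
        exact ⟨d, ⟨hdN, hd⟩, j, hj, s, ⟨hs0, hs1⟩, rfl⟩
      obtain ⟨i, hi, hmem⟩ := mem_iUnion₂.1 (ht this)
      exact mem_iUnion₂.2 ⟨i, Finset.mem_insert_of_mem hi, hmem⟩
    · refine mem_iUnion₂.2 ⟨i0, Finset.mem_insert_self _ _, hball ?_⟩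
      rw [mem_ball]
      exact lt_of_le_of_lt (dist_gam_zero hj hs0 hs1) (hN d (not_lt.1 hdN))

theorem isConnected_XS (D : Set ℕ) : IsConnected (XS D) := by
  refine ⟨⟨0, Or.inl rfl⟩, ?_⟩
  have : XS D = ⋃₀ ({{0}} ∪ {C | ∃ d ∈ D, ∃ j < d + 3, C = gam d j '' Icc 0 1}) := by
    ext p
    constructor
    · rintro (rfl | ⟨d, hd, j, hj, t, h0, h1, rfl⟩)
      · exact ⟨{0}, Or.inl rfl, rfl⟩
      · exact ⟨_, Or.inr ⟨d, hd, j, hj, rfl⟩, t, ⟨h0, h1⟩, rfl⟩
    · rintro ⟨C, hC | ⟨d, hd, j, hj, rfl⟩, hp⟩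
      · rw [mem_singleton_iff] at hC
        subst hC
        exact Or.inl hp
      · obtain ⟨t, ht, rfl⟩ := hp
        exact gam_mem_XS hd hj ht.1 ht.2
  rw [this]
  refine isPreconnected_sUnion 0 _ ?_ ?_
  · rintro C (hC | ⟨d, hd, j, hj, rfl⟩)
    · rw [mem_singleton_iff] at hC
      subst hC
      rfl
    · exact ⟨0, ⟨le_rfl, zero_le_one⟩, gam_zero d j⟩
  · rintro C (hC | ⟨d, hd, j, hj, rfl⟩)
    · rw [mem_singleton_iff] at hC
      subst hC
      exact isPreconnected_singleton
    · exact isPreconnected_Icc.image _ (continuous_gam d j).continuousOn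

/-- compact subsets of the plane have covering dimension at most `3` (in particular finite) -/
theorem coveringDim_of_compact {K : Set (ℝ × ℝ)} (hK : IsCompact K) : CoveringDimLE K 3 := by
  have : CompactSpace K := isCompact_iff_compactSpace.1 hK
  intro U hU hcov
  obtain ⟨δ, hδ, hleb⟩ := lebesgue_number_lemma_of_metric_sUnion (isCompact_univ (X := K)) hU
    (by rw [hcov])
  set η : ℝ := δ / 2 with hη
  have hηpos : 0 < η := by positivity
  let B : ℤ × ℤ → Set K := fun q => {p | |(p : ℝ × ℝ).1 - q.1 * η| < η ∧ |(p : ℝ × ℝ).2 - q.2 * η| < η}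
  have hBopen : ∀ q, IsOpen (B q) := by
    intro q
    have h1 : Continuous fun p : K => |(p : ℝ × ℝ).1 - q.1 * η| := by fun_prop
    have h2 : Continuous fun p : K => |(p : ℝ × ℝ).2 - q.2 * η| := by fun_prop
    exact (isOpen_lt h1 continuous_const).inter (isOpen_lt h2 continuous_const)
  refine ⟨{v | ∃ q, v = B q ∧ v.Nonempty}, ?_, ?_, ?_⟩
  · rintro v ⟨q, rfl, x, hx⟩
    refine ⟨hBopen q, ?_⟩
    obtain ⟨w, hw, hxw⟩ := hleb x (mem_univ x)
    refine ⟨w, hw, fun y hy => hxw ?_⟩
    rw [mem_ball, Subtype.dist_eq, Prod.dist_eq, max_lt_iff, Real.dist_eq, Real.dist_eq]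
    have a1 := abs_lt.1 hx.1
    have a2 := abs_lt.1 hx.2
    have a3 := abs_lt.1 hy.1
    have a4 := abs_lt.1 hy.2
    constructor <;> rw [abs_lt] <;> constructor <;> linarith
  · rw [eq_univ_iff_forall]
    intro p
    have key : ∀ x : ℝ, |x - round (x / η) * η| < η := by
      intro x
      have h1 := abs_sub_round (x / η)
      have h2 : x - round (x / η) * η = (x / η - round (x / η)) * η := by
        field_simp
      rw [h2, abs_mul, abs_of_pos hηpos]
      nlinarith
    have hp : p ∈ B (round ((p : ℝ × ℝ).1 / η), round ((p : ℝ × ℝ).2 / η)) := ⟨key _, key _⟩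
    exact ⟨_, ⟨_, rfl, p, hp⟩, hp⟩
  · intro p
    have key : ∀ (x : ℝ) (a : ℤ), |x - a * η| < η → a = ⌊x / η⌋ ∨ a = ⌊x / η⌋ + 1 := by
      intro x a h
      have h1 := abs_lt.1 h
      have h2 : (a : ℝ) - 1 < x / η := by
        rw [lt_div_iff₀ hηpos]; linarith
      have h3 : x / η < a + 1 := by
        rw [div_lt_iff₀ hηpos]; linarith
      have h4 := Int.floor_le (x / η)
      have h5 := Int.lt_floor_add_one (x / η)
      have h6 : (a : ℝ) < ⌊x / η⌋ + 2 := by linarith
      have h7 : (⌊x / η⌋ : ℝ) < a + 1 := by linarith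
      have h6' : a < ⌊x / η⌋ + 2 := by exact_mod_cast h6
      have h7' : ⌊x / η⌋ < a + 1 := by exact_mod_cast h7
      omega
    set a := ⌊(p : ℝ × ℝ).1 / η⌋ with ha
    set b := ⌊(p : ℝ × ℝ).2 / η⌋ with hb
    let F : Set (Set K) := {B (a, b), B (a, b + 1), B (a + 1, b), B (a + 1, b + 1)}
    have hsub : {v ∈ {v | ∃ q, v = B q ∧ v.Nonempty} | p ∈ v} ⊆ F := by
      rintro v ⟨⟨q, rfl, -⟩, hp⟩
      obtain ⟨q1, q2⟩ := q
      rcases key _ _ hp.1 with h1 | h1 <;> rcases key _ _ hp.2 with h2 | h2 <;>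
        simp only at h1 h2 <;> rw [h1, h2] <;> simp [F, ha, hb]
    refine (Set.encard_le_encard hsub).trans ?_
    refine (Set.encard_insert_le _ _).trans ?_
    refine (add_le_add_left (Set.encard_insert_le _ _) _).trans ?_
    refine (add_le_add_left (add_le_add_left (Set.encard_insert_le _ _) _) _).trans ?_
    rw [Set.encard_singleton]
    norm_num

end Low4
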