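import Pool.Agent.Hhelper75.Low4.Chain

namespace Low4

open Metric Set

/-- a configuration of `n` pairwise disjoint connected arms attached to a connected core -/
structure Config {Y : Type} [TopologicalSpace Y] (n : ℕ) (K : Set Y) (A : ℕ → Set Y)
    (y z : ℕ → Y) : Prop where
  coreC : IsPreconnected K
  armC : ∀ i < n, IsPreconnected (A i)
  zK : ∀ i < n, z i ∈ K
  zA : ∀ i < n, z i ∈ A i
  yA : ∀ i < n, y i ∈ A i
  yK : ∀ i < n, y i ∉ K
  disj : ∀ i < n, ∀ j < n, i ≠ j → Disjoint (A i) (A j)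

/-- the topological properties of the space coding `D` which are used for decoding -/
structure IsFan (D : Set ℕ) (Y : Type) [TopologicalSpace Y] (o : Y) (c : ℕ → Y) : Prop where
  tree : ∀ (n : ℕ) (K : Set Y) (A : ℕ → Set Y) (y z : ℕ → Y), 3 ≤ n → Config n K A y z →
    o ∉ K → (∀ i < n, o ∉ A i) → ∃ d ∈ D, n ≤ d + 3 ∧ c d ∈ K
  loc : ∀ d ∈ D, ∀ U : Set Y, IsOpen U → c d ∈ U → ∀ S : Set Y, Dense S →
    ∃ (K : Set Y) (A : ℕ → Set Y) (y z : ℕ → Y), Config (d + 3) K A y z ∧ IsCompact K ∧ K ⊆ U ∧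
      ∀ i < d + 3, IsCompact (A i) ∧ A i ⊆ U ∧ y i ∈ S ∧ z i ∈ S
  lim : ∀ U : Set Y, IsOpen U → o ∈ U → ∃ N, ∀ d ≥ N, d ∈ D → c d ∈ U
  sep : ∀ d ∈ D, ∃ U : Set Y, IsOpen U ∧ c d ∈ U ∧ o ∉ U ∧ ∀ d' ∈ D, c d' ∈ U → d' = d

variable {Y : Type} [MetricSpace Y] (s : ℕ → Y)

/-- the formal version of a configuration inside the ball `b, 1/(M+1)`;
`Ls` lists the covers of the arms `0, …, n-1` and of the core (index `n`) -/
def FS (n b M : ℕ) (N : ℕ) (Ls : List (List ℕ)) (ys zs : List ℕ) : Prop :=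
  (∀ i < n + 1, ∀ t < (Ls.getD i []).length,
    dist (s ((Ls.getD i []).getD t 0)) (s b) + 1 / ((N : ℝ) + 1) < 1 / ((M : ℝ) + 1)) ∧
  (∀ i < n, ∀ j < n, i ≠ j → ∀ t < (Ls.getD i []).length, ∀ t' < (Ls.getD j []).length,
    2 / ((N : ℝ) + 1) < dist (s ((Ls.getD i []).getD t 0)) (s ((Ls.getD j []).getD t' 0))) ∧
  (∀ i < n, ∀ t < (Ls.getD n []).length,
    1 / ((N : ℝ) + 1) < dist (s (ys.getD i 0)) (s ((Ls.getD n []).getD t 0))) ∧
  (∀ k, ∀ i < n, Lk s N (Ls.getD i []) k (ys.getD i 0) (zs.getD i 0)) ∧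
  (∀ k, ∀ i < n, Lk s N (Ls.getD n []) k (zs.getD 0 0) (zs.getD i 0))

def FStar (n b M : ℕ) : Prop :=
  ∃ (N : ℕ) (Ls : List (List ℕ)) (ys zs : List ℕ), FS s n b M N Ls ys zs

theorem fstar_sound [CompactSpace Y] {n b M : ℕ} (hn : 0 < n) (h : FStar s n b M) :
    ∃ (K : Set Y) (A : ℕ → Set Y) (y z : ℕ → Y), Config n K A y z ∧
      K ⊆ ball (s b) (1 / ((M : ℝ) + 1)) ∧ ∀ i < n, A i ⊆ ball (s b) (1 / ((M : ℝ) + 1)) := by
  obtain ⟨N, Ls, ys, zs, h1, h2, h3, h4, h5⟩ := h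
  have hFB : ∀ i < n + 1, FB s N (Ls.getD i []) ⊆ ball (s b) (1 / ((M : ℝ) + 1)) := by
    rintro i hi x ⟨t, ht, hx⟩
    rw [mem_ball]
    have := dist_triangle x (s ((Ls.getD i []).getD t 0)) (s b)
    have := h1 i hi t ht
    linarith
  refine ⟨connectedComponentIn (FB s N (Ls.getD n [])) (s (zs.getD 0 0)),
    fun i => connectedComponentIn (FB s N (Ls.getD i [])) (s (ys.getD i 0)),
    fun i => s (ys.getD i 0), fun i => s (zs.getD i 0), ?_, ?_, ?_⟩
  · refine ⟨isPreconnected_connectedComponentIn, fun i _ => isPreconnected_connectedComponentIn,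
      ?_, ?_, ?_, ?_, ?_⟩
    · intro i hi
      exact lk_sound s fun k => h5 k i hi
    · intro i hi
      exact lk_sound s fun k => h4 k i hi
    · intro i hi
      exact mem_connectedComponentIn (VB_sub_FB s _ _ (h4 0 i hi).1)
    · intro i hi hmem
      obtain ⟨t, ht, hx⟩ := connectedComponentIn_subset _ _ hmem
      exact absurd hx (not_le.2 (h3 i hi t ht))
    · intro i hi j hj hij
      rw [Set.disjoint_left]
      intro x hx1 hx2
      obtain ⟨t, ht, hx⟩ := connectedComponentIn_subset _ _ hx1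
      obtain ⟨t', ht', hx'⟩ := connectedComponentIn_subset _ _ hx2
      have h6 := h2 i hi j hj hij t ht t' ht'
      have h7 := dist_triangle (s ((Ls.getD i []).getD t 0)) x (s ((Ls.getD j []).getD t' 0))
      rw [dist_comm (s ((Ls.getD i []).getD t 0)) x] at h7
      have h8 : 2 / ((N : ℝ) + 1) = 1 / ((N : ℝ) + 1) + 1 / ((N : ℝ) + 1) := by ring
      linarith
  · exact (connectedComponentIn_subset _ _).trans (hFB n (Nat.lt_succ_self n))
  · intro i hi
    exact (connectedComponentIn_subset _ _).trans (hFB i (Nat.lt_succ_of_lt hi))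

theorem exists_sep_dist {s t : Set Y} (hs : IsCompact s) (ht : IsClosed t) (h : Disjoint s t) :
    ∃ δ > 0, ∀ x ∈ s, ∀ y ∈ t, δ ≤ dist x y := by
  obtain ⟨δ, hδ, hth⟩ := hs.exists_thickening_subset_open ht.isOpen_compl
    (Set.disjoint_left.1 h)
  refine ⟨δ, hδ, fun x hx y hy => ?_⟩
  by_contra hlt
  push Not at hlt
  have : y ∈ thickening δ s := by
    rw [mem_thickening_iff]
    exact ⟨x, hx, by rw [dist_comm]; exact hlt⟩
  exact hth this hy

theorem eventually_small {δ : ℝ} (hδ : 0 < δ) :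
    ∀ᶠ N : ℕ in Filter.atTop, 1 / ((N : ℝ) + 1) < δ :=
  (tendsto_one_div_add_atTop_nhds_zero_nat).eventually (gt_mem_nhds hδ)

theorem getD_map_range {α : Type} (f : ℕ → α) (n i : ℕ) (a : α) (hi : i < n) :
    ((List.range n).map f).getD i a = f i := by
  rw [List.getD_eq_getElem?_getD, List.getElem?_map, List.getElem?_range hi]
  rfl

theorem fstar_complete [CompactSpace Y] (hs : DenseRange s) {D : Set ℕ} {o : Y} {c : ℕ → Y}
    (hF : IsFan D Y o c) {d : ℕ} (hd : d ∈ D) {n b M : ℕ} (hn : n ≤ d + 3)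
    (hc : c d ∈ ball (s b) (1 / ((M : ℝ) + 1))) : FStar s n b M := by
  obtain ⟨K, A, y, z, hC, hK, hKU, hA⟩ := hF.loc d hd _ isOpen_ball hc _ hs
  have hy : ∀ i, ∃ a, i < d + 3 → s a = y i := by
    intro i
    by_cases hi : i < d + 3
    · obtain ⟨a, ha⟩ := (hA i hi).2.2.1
      exact ⟨a, fun _ => ha⟩
    · exact ⟨0, fun h => absurd h hi⟩
  have hz : ∀ i, ∃ a, i < d + 3 → s a = z i := by
    intro i
    by_cases hi : i < d + 3
    · obtain ⟨a, ha⟩ := (hA i hi).2.2.2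
      exact ⟨a, fun _ => ha⟩
    · exact ⟨0, fun h => absurd h hi⟩
  choose y' hy' using hy
  choose z' hz' using hz
  -- radii
  obtain ⟨ρK, hρK, hKρ⟩ := exists_lt_subset_ball hK.isClosed hKU
  have hAρ : ∀ i, ∃ ρ < 1 / ((M : ℝ) + 1), i < n → A i ⊆ ball (s b) ρ := by
    intro i
    by_cases hi : i < n
    · obtain ⟨ρ, h1, h2⟩ := exists_lt_subset_ball (hA i (lt_of_lt_of_le hi hn)).1.isClosed
        (hA i (lt_of_lt_of_le hi hn)).2.1
      exact ⟨ρ, h1, fun _ => h2⟩
    · exact ⟨0, by positivity, fun h => absurd h hi⟩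
  choose ρA hρA hAρ using hAρ
  have hdd : ∀ i j, ∃ δ > 0, i < n → j < n → i ≠ j → ∀ x ∈ A i, ∀ y ∈ A j, δ ≤ dist x y := by
    intro i j
    by_cases h : i < n ∧ j < n ∧ i ≠ j
    · obtain ⟨h1, h2, h3⟩ := h
      obtain ⟨δ, hδ, h4⟩ := exists_sep_dist (hA i (lt_of_lt_of_le h1 hn)).1
        (hA j (lt_of_lt_of_le h2 hn)).1.isClosed
        (hC.disj i (lt_of_lt_of_le h1 hn) j (lt_of_lt_of_le h2 hn) h3)
      exact ⟨δ, hδ, fun _ _ _ => h4⟩
    · exact ⟨1, one_pos, fun h1 h2 h3 => absurd ⟨h1, h2, h3⟩ h⟩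
  choose δA hδA hAd using hdd
  have hyy : ∀ i, ∃ δ > 0, i < n → ∀ x ∈ K, δ ≤ dist x (y i) := by
    intro i
    by_cases hi : i < n
    · obtain ⟨δ, hδ, h4⟩ := exists_sep_dist hK (isClosed_singleton (x := y i))
        (Set.disjoint_singleton_right.2 (hC.yK i (lt_of_lt_of_le hi hn)))
      exact ⟨δ, hδ, fun _ x hx => h4 x hx _ rfl⟩
    · exact ⟨1, one_pos, fun h => absurd h hi⟩
  choose δy hδy hyd using hyy
  have e1 : ∀ᶠ N : ℕ in Filter.atTop, 1 / ((N : ℝ) + 1) < (1 / ((M : ℝ) + 1) - ρK) / 2 :=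
    eventually_small (by linarith)
  have e2 : ∀ᶠ N : ℕ in Filter.atTop, ∀ i ∈ Finset.range n,
      1 / ((N : ℝ) + 1) < (1 / ((M : ℝ) + 1) - ρA i) / 2 :=
    (Finset.eventually_all _).2 fun i _ => eventually_small (by linarith [hρA i])
  have e3 : ∀ᶠ N : ℕ in Filter.atTop, ∀ i ∈ Finset.range n, ∀ j ∈ Finset.range n,
      1 / ((N : ℝ) + 1) < δA i j / 4 :=
    (Finset.eventually_all _).2 fun i _ => (Finset.eventually_all _).2 fun j _ =>
      eventually_small (by linarith [hδA i j])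
  have e4 : ∀ᶠ N : ℕ in Filter.atTop, ∀ i ∈ Finset.range n,
      1 / ((N : ℝ) + 1) < δy i / 2 :=
    (Finset.eventually_all _).2 fun i _ => eventually_small (by linarith [hδy i])
  obtain ⟨N, hN1, hN2, hN3, hN4⟩ := (e1.and (e2.and (e3.and e4))).exists
  set r : ℝ := 1 / ((N : ℝ) + 1) with hr
  obtain ⟨LK, hLK1, hLK2⟩ := exists_cover s hs hK N
  have hLA : ∀ i, ∃ L : List ℕ, i < n → (A i ⊆ VB s N L ∧
      ∀ t < L.length, ∃ x ∈ A i, dist x (s (L.getD t 0)) < 1 / ((N : ℝ) + 1)) := by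
    intro i
    by_cases hi : i < n
    · obtain ⟨L, h1, h2⟩ := exists_cover s hs (hA i (lt_of_lt_of_le hi hn)).1 N
      exact ⟨L, fun _ => ⟨h1, h2⟩⟩
    · exact ⟨[], fun h => absurd h hi⟩
  choose LA hLA using hLA
  let f : ℕ → List ℕ := fun i => if i < n then LA i else LK
  have hf1 : ∀ i < n, ((List.range (n + 1)).map f).getD i [] = LA i := by
    intro i hi
    rw [getD_map_range f (n+1) i [] (by omega)]
    simp [f, hi]
  have hf2 : ((List.range (n + 1)).map f).getD n [] = LK := by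
    rw [getD_map_range f (n+1) n [] (by omega)]
    simp [f]
  have hyD : ∀ i < n, ((List.range n).map y').getD i 0 = y' i := fun i hi =>
    getD_map_range y' n i 0 hi
  have hzD : ∀ i < n, ((List.range n).map z').getD i 0 = z' i := fun i hi =>
    getD_map_range z' n i 0 hi
  refine ⟨N, (List.range (n + 1)).map f, (List.range n).map y', (List.range n).map z',
    ?_, ?_, ?_, ?_, ?_⟩
  · intro i hi t ht
    rw [← hr]
    rcases Nat.lt_succ_iff_lt_or_eq.1 hi with hi' | hi'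
    · rw [hf1 i hi'] at ht ⊢
      obtain ⟨x, hx, hxd⟩ := (hLA i hi').2 t ht
      have h1 := hAρ i hi' hx
      rw [mem_ball] at h1
      have h2 := hN2 i (Finset.mem_range.2 hi')
      have h3 := dist_triangle_left (s ((LA i).getD t 0)) (s b) x
      linarith
    · subst hi'
      rw [hf2] at ht ⊢
      obtain ⟨x, hx, hxd⟩ := hLK2 t ht
      have h1 := hKρ hx
      rw [mem_ball] at h1
      have h3 := dist_triangle_left (s (LK.getD t 0)) (s b) x
      linarith
  · intro i hi j hj hij t ht t' ht'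
    rw [hf1 i hi] at ht ⊢
    rw [hf1 j hj] at ht' ⊢
    obtain ⟨x, hx, hxd⟩ := (hLA i hi).2 t ht
    obtain ⟨x', hx', hxd'⟩ := (hLA j hj).2 t' ht'
    have h1 := hAd i j hi hj hij x hx x' hx'
    have h2 := hN3 i (Finset.mem_range.2 hi) j (Finset.mem_range.2 hj)
    have h3 := dist_triangle4 x (s ((LA i).getD t 0)) (s ((LA j).getD t' 0)) x'
    rw [dist_comm (s ((LA j).getD t' 0)) x'] at h3
    have h8 : 2 / ((N : ℝ) + 1) = r + r := by rw [hr]; ring
    rw [h8]
    linarith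
  · intro i hi t ht
    rw [hf2] at ht ⊢
    rw [hyD i hi, hy' i (lt_of_lt_of_le hi hn), ← hr]
    obtain ⟨x, hx, hxd⟩ := hLK2 t ht
    have h1 := hyd i hi x hx
    have h2 := hN4 i (Finset.mem_range.2 hi)
    have h3 := dist_triangle x (s (LK.getD t 0)) (y i)
    rw [dist_comm (s (LK.getD t 0)) (y i)] at h3
    linarith
  · intro k i hi
    rw [hf1 i hi, hyD i hi, hzD i hi]
    have hi3 := lt_of_lt_of_le hi hn
    refine lk_complete s hs (hC.armC i hi3) (hLA i hi).1 ?_ ?_ k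
    · rw [hy' i hi3]; exact hC.yA i hi3
    · rw [hz' i hi3]; exact hC.zA i hi3
  · intro k i hi
    have hi3 := lt_of_lt_of_le hi hn
    rw [hf2, hzD i hi, hzD 0 (by omega)]
    refine lk_complete s hs hC.coreC hLK1 ?_ ?_ k
    · rw [hz' 0 (by omega)]; exact hC.zK 0 (by omega)
    · rw [hz' i hi3]; exact hC.zK i hi3

theorem fan_decode [CompactSpace Y] (hs : DenseRange s) {D : Set ℕ} {o : Y} {c : ℕ → Y}
    (hF : IsFan D Y o c) (hD : ∀ N, ∃ n ≥ N, n ∈ D) (d : ℕ) :
    d ∈ D ↔ ∃ b M, FStar s (d + 3) b M ∧ ¬ FStar s (d + 4) b M := by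
  constructor
  · intro hd
    obtain ⟨U, hU, hcU, hoU, hsep⟩ := hF.sep d hd
    obtain ⟨ε, hε, hball⟩ := Metric.isOpen_iff.1 hU _ hcU
    obtain ⟨M, hM⟩ := exists_nat_lt (δ := ε / 2) (by linarith)
    have hMpos : (0 : ℝ) < 1 / ((M : ℝ) + 1) := by positivity
    obtain ⟨b, hb⟩ := hs.exists_mem_open (isOpen_ball (x := c d) (ε := 1 / ((M : ℝ) + 1)))
      ⟨_, mem_ball_self hMpos⟩
    have hcb : c d ∈ ball (s b) (1 / ((M : ℝ) + 1)) := by rw [mem_ball_comm]; exact hb
    have hsub : ball (s b) (1 / ((M : ℝ) + 1)) ⊆ U := by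
      intro x hx
      apply hball
      rw [mem_ball] at hx hb ⊢
      have := dist_triangle x (s b) (c d)
      linarith
    refine ⟨b, M, fstar_complete s hs hF hd le_rfl hcb, fun hst => ?_⟩
    obtain ⟨K, A, y, z, hC, hK, hA⟩ := fstar_sound s (by omega) hst
    obtain ⟨d', hd', hle, hcd'⟩ := hF.tree (d + 4) K A y z (by omega) hC
      (fun h => hoU (hsub (hK h))) (fun i hi h => hoU (hsub (hA i hi h)))
    have := hsep d' hd' (hsub (hK hcd'))
    omega
  · rintro ⟨b, M, h3, h4⟩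
    have ho : o ∉ ball (s b) (1 / ((M : ℝ) + 1)) := by
      intro ho
      obtain ⟨N, hN⟩ := hF.lim _ isOpen_ball ho
      obtain ⟨d', hd'1, hd'2⟩ := hD (max N (d + 1))
      have := le_max_left N (d + 1)
      have := le_max_right N (d + 1)
      exact h4 (fstar_complete s hs hF hd'2 (by omega) (hN d' (by omega) hd'2))
    obtain ⟨K, A, y, z, hC, hK, hA⟩ := fstar_sound s (by omega) h3
    obtain ⟨d', hd', hle, hcd'⟩ := hF.tree (d + 3) K A y z (by omega) hC
      (fun h => ho (hK h)) (fun i hi h => ho (hA i hi h))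
    by_cases hlt : d < d'
    · exact absurd (fstar_complete s hs hF hd' (by omega) (hK hcd')) h4
    · have : d' = d := by omega
      rw [← this]; exact hd'

/-- transport along a homeomorphism -/
theorem IsFan.map {X Z : Type} [TopologicalSpace X] [TopologicalSpace Z] {D : Set ℕ} {o : X}
    {c : ℕ → X} (h : IsFan D X o c) (φ : X ≃ₜ Z) : IsFan D Z (φ o) fun d => φ (c d) := by
  refine ⟨?_, ?_, ?_, ?_⟩
  · intro n K A y z hn hC hoK hoA
    have hC' : Config n (φ ⁻¹' K) (fun i => φ ⁻¹' (A i)) (fun i => φ.symm (y i))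
        (fun i => φ.symm (z i)) := by
      refine ⟨(Homeomorph.isPreconnected_preimage φ).2 hC.coreC,
        fun i hi => (Homeomorph.isPreconnected_preimage φ).2 (hC.armC i hi), ?_, ?_, ?_, ?_, ?_⟩
      · intro i hi; simpa using hC.zK i hi
      · intro i hi; simpa using hC.zA i hi
      · intro i hi; simpa using hC.yA i hi
      · intro i hi; simpa using hC.yK i hi
      · intro i hi j hj hij
        exact Disjoint.preimage _ (hC.disj i hi j hj hij)
    exact h.tree n _ _ _ _ hn hC' hoK hoA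
  · intro d hd U hU hcU S hS
    obtain ⟨K, A, y, z, hC, hK, hKU, hA⟩ := h.loc d hd (φ ⁻¹' U) (hU.preimage φ.continuous) hcU
      (φ ⁻¹' S) (hS.preimage φ.isOpenMap)
    refine ⟨φ '' K, fun i => φ '' (A i), fun i => φ (y i), fun i => φ (z i), ?_,
      hK.image φ.continuous, by rwa [Set.image_subset_iff], ?_⟩
    · refine ⟨hC.coreC.image _ φ.continuous.continuousOn,
        fun i hi => (hC.armC i hi).image _ φ.continuous.continuousOn,
        fun i hi => mem_image_of_mem _ (hC.zK i hi), fun i hi => mem_image_of_mem _ (hC.zA i hi),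
        fun i hi => mem_image_of_mem _ (hC.yA i hi), ?_, ?_⟩
      · intro i hi hmem
        obtain ⟨x, hx, hxy⟩ := hmem
        rw [φ.injective hxy] at hx
        exact hC.yK i hi hx
      · intro i hi j hj hij
        exact (Set.disjoint_image_iff φ.injective).2 (hC.disj i hi j hj hij)
    · intro i hi
      obtain ⟨h1, h2, h3, h4⟩ := hA i hi
      exact ⟨h1.image φ.continuous, by rwa [Set.image_subset_iff], h3, h4⟩
  · intro U hU hoU
    exact h.lim (φ ⁻¹' U) (hU.preimage φ.continuous) hoU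
  · intro d hd
    obtain ⟨U, hU, h1, h2, h3⟩ := h.sep d hd
    refine ⟨φ '' U, φ.isOpenMap U hU, mem_image_of_mem _ h1, ?_, ?_⟩
    · rintro ⟨x, hx, hxo⟩
      rw [φ.injective hxo] at hx
      exact h2 hx
    · rintro d' hd' ⟨x, hx, hxo⟩
      rw [φ.injective hxo] at hx
      exact h3 d' hd' hx

end Low4
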